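import Pool.Agent.X280.HP.Loc
import Pool.Agent.X280.HG.LogW

/-!
# Pencils of plane curves: the normal law of the averages of Nagao's conjecture
-/

set_option autoImplicit false
set_option linter.unusedSectionVars false

namespace Pool.Agent.X280.HP

open Finset hiding val
open Filter Topology Pool.Agent.Y722.HS Pool.Agent.X280.BP Pool.Agent.X280.UC Pool.Agent.X280.HG
  MeasureTheory ProbabilityTheory

/-- The number of the points modulo `p` of the surface `∑ c_(μ,ν) y^μ x^ν = 0` in `ℙ¹ × ℙ²`, for `p`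
prime: the number of the pairs of nonzero vectors at which the form vanishes divided by
`(p - 1)²`. -/
noncomputable def surfacePoints {e d : ℕ} (c : Mon 1 e × Mon 2 d → ℤ) (p : ℕ) : ℝ :=
  (Nat.card {v : (Fin 2 → ZMod p) × (Fin 3 → ZMod p) //
    v.1 ≠ 0 ∧ v.2 ≠ 0 ∧ bval (fun q => (c q : ZMod p)) v.1 v.2 = 0} : ℝ) / ((p : ℝ) - 1) ^ 2

/-- The average trace: the sum over the `p + 1` fibres of `p + 1` minus the number of the points of the
fibre, divided by `p`. -/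
noncomputable def fibreAverage {e d : ℕ} (c : Mon 1 e × Mon 2 d → ℤ) (p : ℕ) : ℝ :=
  (((p : ℝ) + 1) ^ 2 - surfacePoints c p) / p

theorem fibreAverage_eq {e d : ℕ} (c : Mon 1 e × Mon 2 d → ℤ) (p : ℕ) :
    fibreAverage c p = nag e d p (red p c) := rfl

/-- **The normal law** with arbitrary sets of primes and weights. -/
theorem law_nag (e d : ℕ) (he : 3 ≤ e) (hd : 3 ≤ d) (δ : ℝ) (hδ : 0 < δ) (u ε : ℝ) (hε : 0 < ε) :
    ∃ K : ℕ, ∀ (P : Finset ℕ) (w : ℕ → ℝ) (y H : ℕ), (∀ p ∈ P, p.Prime ∧ p ≤ y) →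
      (∀ p ∈ P, |w p| ≤ 1) → δ * P.card ≤ ∑ p ∈ P, w p ^ 2 → K ≤ P.card → y ^ K ≤ H →
      |({c : Mon 1 e × Mon 2 d → ℤ | (∀ q, |c q| ≤ H) ∧
        ∑ p ∈ P, w p * fibreAverage c p ≤ u * √(∑ p ∈ P, w p ^ 2)}.ncard : ℝ) /
        (2 * H + 1 : ℝ) ^ Fintype.card (Mon 1 e × Mon 2 d) -
          (gaussianReal 0 1).real (Set.Iic u)| ≤ ε := by
  classical
  obtain ⟨C, hC⟩ := ld_nag e d he hd
  obtain ⟨K, hK⟩ := abs_law hC (by norm_num : (0 : ℝ) < 1 - 0 ^ 2) hδ u hε
  refine ⟨max K 1, fun P w y H hP hw hvar hcard hH => ?_⟩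
  have hc1 : 1 ≤ P.card := (le_max_right _ _).trans hcard
  have hy1 : 1 ≤ y := by
    obtain ⟨p, hp⟩ : P.Nonempty := by rw [← Finset.card_pos]; omega
    have h1 := (hP p hp).2
    have h2 := (hP p hp).1.pos
    omega
  have hfin := hK P w y H hP hw hvar ((le_max_left _ _).trans hcard)
    ((Nat.pow_le_pow_right hy1 (le_max_left _ _)).trans hH)
  have hW0 : 0 < ∑ p ∈ P, w p ^ 2 := by
    have : (1 : ℝ) ≤ P.card := by exact_mod_cast hc1
    have h2 : 0 < δ * P.card := by positivity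
    linarith
  have hs0 : 0 < √(∑ p ∈ P, w p ^ 2) := Real.sqrt_pos.2 hW0
  rw [show ((1 : ℝ) - 0 ^ 2) = 1 by ring, one_mul] at hfin
  rw [measureReal_def, law_apply H _ _ measurableSet_Iic,
    ENNReal.toReal_ofReal (by positivity)] at hfin
  rw [ncard_box]
  have e : ((Pool.Agent.Y722.HS.box (Mon 1 e × Mon 2 d) H).filter (fun c =>
      ∑ p ∈ P, w p * fibreAverage c p ≤ u * √(∑ p ∈ P, w p ^ 2))) =
      (Pool.Agent.Y722.HS.box (Mon 1 e × Mon 2 d) H).filter (fun c =>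
        (∑ p ∈ P, w p * (nag e d p (red p c) - 0)) / √(∑ p ∈ P, w p ^ 2) ∈ Set.Iic u) := by
    apply Finset.filter_congr
    intro c _
    rw [Set.mem_Iic, div_le_iff₀ hs0]
    have e2 : ∑ p ∈ P, w p * fibreAverage c p = ∑ p ∈ P, w p * (nag e d p (red p c) - 0) := by
      refine Finset.sum_congr rfl fun p _ => ?_
      rw [fibreAverage_eq, sub_zero]
    rw [e2]
  rw [e]
  exact hfin

/-- Nagao's average `T⁻¹ ∑_{p ≤ T} -A(p) log p`. -/
noncomputable def nagaoAverage {e d : ℕ} (c : Mon 1 e × Mon 2 d → ℤ) (T : ℕ) : ℝ :=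
  (∑ p ∈ primesUpTo T, -fibreAverage c p * Real.log p) / T

/-- **The normal law of the averages of Nagao's conjecture.** -/
theorem law_average (e d : ℕ) (he : 3 ≤ e) (hd : 3 ≤ d) (u ε : ℝ) (hε : 0 < ε) :
    ∃ K : ℕ, ∀ T H : ℕ, K ≤ T → T ^ K ≤ H →
      |({c : Mon 1 e × Mon 2 d → ℤ | (∀ q, |c q| ≤ H) ∧ nagaoAverage c T ≤
        u * (√(∑ p ∈ primesUpTo T, Real.log p ^ 2) / T)}.ncard : ℝ) /
        (2 * H + 1 : ℝ) ^ Fintype.card (Mon 1 e × Mon 2 d) -
          (gaussianReal 0 1).real (Set.Iic u)| ≤ ε := by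
  obtain ⟨K1, hK1⟩ := law_nag e d he hd (1 / 8) (by norm_num) u ε hε
  obtain ⟨K2, hK2⟩ := eventually_atTop.1 (many_primes.and log_weights)
  refine ⟨max (max K1 K2) (K1 ^ 2 + 3), fun T H hT hH => ?_⟩
  have hT1 : K2 ≤ T := (le_max_right _ _).trans ((le_max_left _ _).trans hT)
  have hT2 : K1 ^ 2 + 3 ≤ T := (le_max_right _ _).trans hT
  have hT0 : (0 : ℝ) < T := by exact_mod_cast (by omega : 0 < T)
  obtain ⟨h1, h2⟩ := hK2 T hT1
  have hlog : 0 < Real.log T := Real.log_pos (by exact_mod_cast (by omega : 1 < T))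
  have hcard : K1 ≤ (primesUpTo T).card := by
    have h3 : (K1 : ℝ) ≤ √(T : ℝ) := by
      apply Real.le_sqrt_of_sq_le
      exact_mod_cast (by omega : K1 ^ 2 ≤ T)
    have h4 : 0 ≤ √(T : ℝ) := Real.sqrt_nonneg _
    have h5 : (K1 : ℝ) ≤ ((primesUpTo T).card : ℝ) := by linarith
    exact_mod_cast h5
  have h2' : 1 / 8 * ((primesUpTo T).card : ℝ) ≤
      ∑ p ∈ primesUpTo T, (-(Real.log p / Real.log T)) ^ 2 := by
    refine h2.trans (le_of_eq ?_)
    refine Finset.sum_congr rfl fun p _ => ?_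
    rw [neg_sq]
  have hfin := hK1 (primesUpTo T) (fun p => -(Real.log p / Real.log T)) T H
    (fun p hp => ((mem_primesUpTo.1 hp).symm)) (fun p hp => by
      have h3 := mem_primesUpTo.1 hp
      have hp1 : (1 : ℝ) ≤ p := by exact_mod_cast h3.2.one_lt.le
      rw [abs_neg, abs_of_nonneg (div_nonneg (Real.log_nonneg hp1) hlog.le), div_le_one hlog]
      exact Real.log_le_log (by linarith) (by exact_mod_cast h3.1)) h2' hcard
    ((Nat.pow_le_pow_right (by omega) ((le_max_left _ _).trans (le_max_left _ _))).trans hH)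
  have e : {c : Mon 1 e × Mon 2 d → ℤ | (∀ q, |c q| ≤ H) ∧ nagaoAverage c T ≤
        u * (√(∑ p ∈ primesUpTo T, Real.log p ^ 2) / T)} =
      {c : Mon 1 e × Mon 2 d → ℤ | (∀ q, |c q| ≤ H) ∧
        ∑ p ∈ primesUpTo T, -(Real.log p / Real.log T) * fibreAverage c p ≤
          u * √(∑ p ∈ primesUpTo T, (-(Real.log p / Real.log T)) ^ 2)} := by
    ext c
    simp only [Set.mem_ofPred_eq]
    refine and_congr_right fun _ => ?_
    obtain ⟨S, hS⟩ : ∃ S : ℝ, S = ∑ p ∈ primesUpTo T, -fibreAverage c p * Real.log p := ⟨_, rfl⟩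
    obtain ⟨σ, hσ⟩ : ∃ σ : ℝ, σ = √(∑ p ∈ primesUpTo T, Real.log p ^ 2) := ⟨_, rfl⟩
    have e2 : ∑ p ∈ primesUpTo T, -(Real.log p / Real.log T) * fibreAverage c p =
        S / Real.log T := by
      rw [hS, Finset.sum_div]
      refine Finset.sum_congr rfl fun p _ => ?_
      ring
    have e3 : √(∑ p ∈ primesUpTo T, (-(Real.log p / Real.log T)) ^ 2) = σ / Real.log T := by
      have e4 : ∑ p ∈ primesUpTo T, (-(Real.log p / Real.log T)) ^ 2 =
          (∑ p ∈ primesUpTo T, Real.log p ^ 2) / Real.log T ^ 2 := by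
        simp only [neg_sq, div_pow]
        rw [← Finset.sum_div]
      rw [e4, Real.sqrt_div' _ (sq_nonneg _), Real.sqrt_sq hlog.le, hσ]
    have e7 : nagaoAverage c T = S / T := by rw [hS]; rfl
    rw [e2, e3, e7, ← hσ]
    have e5 : u * (σ / Real.log T) = (u * σ) / Real.log T := by ring
    have e6 : u * (σ / T) = (u * σ) / T := by ring
    rw [e5, e6, div_le_div_iff_of_pos_right hlog, div_le_div_iff_of_pos_right hT0]
  rw [e]
  exact hfin

end Pool.Agent.X280.HP
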