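import Pool.Agent.X280.HP.Pts

/-!
# Pencils of plane curves: the first moments of the average trace of the fibres
-/

set_option autoImplicit false
set_option linter.unusedSectionVars false

namespace Pool.Agent.X280.HP

open Finset hiding val
open Pool.Agent.Y722.HS Pool.Agent.X280.BP Pool.Agent.X280.UC Pool.Agent.X280.HG

/-- The average trace `((p + 1)² - #X(𝔽_p)) / p` of the surface `X` in `ℙ¹ × ℙ²`. -/
noncomputable def nag (e d p : ℕ) (c : Mon 1 e × Mon 2 d → ZMod p) : ℝ :=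
  (((p : ℝ) + 1) ^ 2 -
    (Nat.card {v : (Fin 2 → ZMod p) × (Fin 3 → ZMod p) //
      v.1 ≠ 0 ∧ v.2 ≠ 0 ∧ bval c v.1 v.2 = 0} : ℝ) / ((p : ℝ) - 1) ^ 2) / p

theorem card_VV {p : ℕ} [hp : Fact p.Prime] :
    ((univ : Finset (PS p 1 × PS p 2)).card : ℝ) = (p + 1) * (p ^ 2 + p + 1) := by
  rw [Finset.card_univ, Fintype.card_prod, Nat.cast_mul, card_PS, card_PS]
  simp only [Finset.sum_range_succ, Finset.sum_range_zero]
  ring

theorem nag_eq {e d p : ℕ} [hp : Fact p.Prime] (c : Mon 1 e × Mon 2 d → ZMod p) :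
    nag e d p c = -(SV (evB p 1 2 e d) univ c / p) - (p + 1) / (p : ℝ) ^ 2 := by
  classical
  have hp0 : (0 : ℝ) < p := p_pos'
  have h1 : SV (evB p 1 2 e d) univ c = (bcone c : ℝ) / ((p : ℝ) - 1) ^ 2 -
      (p + 1) * (p ^ 2 + p + 1) / p := by
    rw [bcone_div, ← card_VV]
    unfold SV zi
    rw [Finset.sum_sub_distrib, Finset.sum_const, nsmul_eq_mul]
    ring
  unfold nag
  have h2 : (Nat.card {v : (Fin 2 → ZMod p) × (Fin 3 → ZMod p) //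
      v.1 ≠ 0 ∧ v.2 ≠ 0 ∧ bval c v.1 v.2 = 0} : ℝ) = (bcone c : ℝ) := rfl
  rw [h2, h1]
  field_simp
  ring

/-- **The first moments of the average traces.** -/
theorem EM_nag : ∃ B : ℝ, 1 ≤ B ∧ ∀ (e d : ℕ), 3 ≤ e → 3 ≤ d → ∀ p : ℕ, ∀ [Fact p.Prime],
    |EM p (fun c : Mon 1 e × Mon 2 d → ZMod p => nag e d p c)| ≤ B / p ∧
    |EM p (fun c : Mon 1 e × Mon 2 d → ZMod p => nag e d p c ^ 2) - 1| ≤ B / p ∧
    EM p (fun c : Mon 1 e × Mon 2 d → ZMod p => nag e d p c ^ 4) ≤ B := by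
  obtain ⟨C2, h20, h2⟩ := exists_asy 2
  obtain ⟨C4, h40, h4⟩ := exists_asy 4
  have hg4 : 0 ≤ |gm 4| := abs_nonneg _
  refine ⟨C2 + 32 * (C4 + |gm 4|) + 16, by linarith, fun e d he hd p hpf => ?_⟩
  have hp2 : (2 : ℝ) ≤ p := by exact_mod_cast hpf.out.two_le
  have hp1 : (1 : ℝ) < p := by linarith
  have hp0 : (0 : ℝ) < p := by linarith
  have hip : 1 / (p : ℝ) ≤ 1 := by rw [div_le_one hp0]; exact hp1.le
  obtain ⟨G, hG⟩ : ∃ G : ℕ, G = (univ : Finset (PS p 1 × PS p 2)).card := ⟨_, rfl⟩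
  have hGc : (G : ℝ) = (p + 1) * (p ^ 2 + p + 1) := by rw [hG, card_VV]
  have hGq : (G : ℝ) * ((1 / p) * (1 - 1 / p)) = (p : ℝ) ^ 2 + p - 1 / p - 1 / (p : ℝ) ^ 2 := by
    rw [hGc]
    field_simp
    ring
  have hi1 : (0 : ℝ) ≤ 1 / p := by positivity
  have hi2 : (0 : ℝ) ≤ 1 / (p : ℝ) ^ 2 := by positivity
  have hGR : (G : ℝ) * ((1 / p) * (1 - 1 / p)) ≤ 2 * (p : ℝ) ^ 2 := by
    rw [hGq]; nlinarith
  have hR1 : (1 : ℝ) ≤ 2 * (p : ℝ) ^ 2 := by nlinarith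
  have hev := ev_evB (p := p) (m := 1) (n := 2) (e := e) (d := d) 3 he hd
  obtain ⟨s, hs⟩ : ∃ s : (Mon 1 e × Mon 2 d → ZMod p) → ℝ,
      s = fun c => SV (evB p 1 2 e d) univ c / p := ⟨_, rfl⟩
  obtain ⟨δ, hδ⟩ : ∃ δ : ℝ, δ = (p + 1) / (p : ℝ) ^ 2 := ⟨_, rfl⟩
  have hδ0 : 0 ≤ δ := by rw [hδ]; positivity
  have hδp : δ ≤ 2 / p := by
    rw [hδ, div_le_div_iff₀ (by positivity) hp0]
    nlinarith
  have hδ1 : δ ≤ 1 := by
    refine hδp.trans ?_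
    rw [div_le_one hp0]
    exact hp2
  have hat : ∀ c : Mon 1 e × Mon 2 d → ZMod p, nag e d p c = -s c - δ := by
    intro c
    rw [nag_eq, hs, hδ]
  have m1 : EM p s = 0 := by
    have e1 : s = fun c => (1 / (p : ℝ)) * SV (evB p 1 2 e d) univ c ^ 1 := by
      rw [hs]
      funext c
      rw [pow_one]; ring
    rw [e1, EM_mul', EM_SV hev univ 1 (by omega), (ME_one adm_ez _).2, mul_zero]
  have m2 : |EM p (fun c => s c ^ 2) - 1| ≤ (C2 + 1) / p := by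
    have e1 : (fun c : Mon 1 e × Mon 2 d → ZMod p => s c ^ 2) =
        fun c => (1 / (p : ℝ) ^ 2) * SV (evB p 1 2 e d) univ c ^ 2 := by
      rw [hs]
      funext c
      rw [div_pow]; ring
    have h5 := h2 (ez p) _ adm_ez G (2 * (p : ℝ) ^ 2) hR1 hGR
    have hgm : gm 2 = 1 := by
      have := gm_even 1
      simpa [dd] using this
    rw [if_pos (by decide), show 2 / 2 = 1 by rfl, pow_one, pow_one, hgm, one_mul] at h5
    have h6 : |ME (ez p) G 2 - G * ((1 / p) * (1 - 1 / p))| ≤ C2 :=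
      le_of_mul_le_mul_right h5 (by positivity)
    rw [e1, EM_mul', EM_SV hev univ 2 (by omega), ← hG]
    have e2 : 1 / (p : ℝ) ^ 2 * ME (ez p) G 2 - 1 =
        (ME (ez p) G 2 - G * ((1 / p) * (1 - 1 / p))) / (p : ℝ) ^ 2 +
        (1 / p - 1 / (p : ℝ) ^ 3 - 1 / (p : ℝ) ^ 4) := by
      rw [hGq]
      field_simp
      ring
    rw [e2]
    have h7 : |(ME (ez p) G 2 - G * ((1 / p) * (1 - 1 / p))) / (p : ℝ) ^ 2| ≤ C2 / p := by
      rw [abs_div, abs_of_pos (show (0 : ℝ) < (p : ℝ) ^ 2 by positivity)]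
      calc _ ≤ C2 / (p : ℝ) ^ 2 := by gcongr
        _ ≤ C2 / p := by
            apply div_le_div_of_nonneg_left h20 hp0
            nlinarith
    have h8 : |1 / (p : ℝ) - 1 / (p : ℝ) ^ 3 - 1 / (p : ℝ) ^ 4| ≤ 1 / (p : ℝ) := by
      have h9 : 1 / (p : ℝ) ^ 3 + 1 / (p : ℝ) ^ 4 ≤ 1 / (p : ℝ) := by
        rw [div_add_div _ _ (by positivity) (by positivity), div_le_div_iff₀ (by positivity) hp0]
        have h10 : (1 : ℝ) ≤ (p : ℝ) ^ 2 := by nlinarith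
        have h11 : (p : ℝ) + 1 ≤ (p : ℝ) ^ 3 := by nlinarith [sq_nonneg ((p : ℝ) - 1)]
        have h12 : (0 : ℝ) ≤ (p : ℝ) ^ 4 := by positivity
        nlinarith [mul_le_mul_of_nonneg_left h11 h12]
      have h10 : 0 ≤ 1 / (p : ℝ) ^ 3 := by positivity
      have h11 : 0 ≤ 1 / (p : ℝ) ^ 4 := by positivity
      rw [abs_le]
      constructor <;> linarith
    calc _ ≤ _ := abs_add_le _ _
      _ ≤ C2 / p + 1 / p := add_le_add h7 h8
      _ = _ := by ring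
  have m4 : EM p (fun c => s c ^ 4) ≤ 4 * (C4 + |gm 4|) := by
    have e1 : (fun c : Mon 1 e × Mon 2 d → ZMod p => s c ^ 4) =
        fun c => (1 / (p : ℝ) ^ 4) * SV (evB p 1 2 e d) univ c ^ 4 := by
      rw [hs]
      funext c
      rw [div_pow]; ring
    have h5 := h4.bound adm_ez (n := G) hR1 hGR
    rw [show 4 / 2 = 2 by rfl] at h5
    rw [e1, EM_mul', EM_SV hev univ 4 (by omega), ← hG]
    have h6 : ME (ez p) G 4 ≤ (C4 + |gm 4|) * (2 * (p : ℝ) ^ 2) ^ 2 := (le_abs_self _).trans h5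
    calc 1 / (p : ℝ) ^ 4 * ME (ez p) G 4 ≤
        1 / (p : ℝ) ^ 4 * ((C4 + |gm 4|) * (2 * (p : ℝ) ^ 2) ^ 2) := by gcongr
      _ = 4 * (C4 + |gm 4|) := by field_simp; ring
  have hBp : ∀ x : ℝ, x ≤ C2 + 32 * (C4 + |gm 4|) + 16 →
      x / p ≤ (C2 + 32 * (C4 + |gm 4|) + 16) / p := by
    intro x hx
    gcongr
  simp only [hat]
  refine ⟨?_, ?_, ?_⟩
  · have e1 : (fun c : Mon 1 e × Mon 2 d → ZMod p => -s c - δ) = fun c =>
        (-1) * s c + (-δ) := by funext c; ring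
    rw [e1, EM_add', EM_mul', m1, EM_const', mul_zero, zero_add, abs_neg, abs_of_nonneg hδ0]
    exact hδp.trans (hBp 2 (by linarith))
  · have e1 : (fun c : Mon 1 e × Mon 2 d → ZMod p => (-s c - δ) ^ 2) = fun c =>
        (s c ^ 2 + 2 * δ * s c) + δ ^ 2 := by
      funext c; ring
    rw [e1, EM_add', EM_add', EM_mul', m1, EM_const', mul_zero, add_zero]
    have h5 : δ ^ 2 ≤ 2 / p := by
      refine le_trans ?_ hδp
      calc δ ^ 2 = δ * δ := by ring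
        _ ≤ 1 * δ := by gcongr
        _ = δ := one_mul _
    have e6 : EM p (fun c => s c ^ 2) + δ ^ 2 - 1 = (EM p (fun c => s c ^ 2) - 1) + δ ^ 2 := by ring
    rw [e6]
    refine (abs_add_le _ _).trans ?_
    rw [abs_of_nonneg (sq_nonneg δ)]
    calc |EM p (fun c => s c ^ 2) - 1| + δ ^ 2 ≤ (C2 + 1) / p + 2 / p := add_le_add m2 h5
      _ = (C2 + 3) / p := by ring
      _ ≤ _ := hBp _ (by linarith)
  · have h6 : EM p (fun c => (-s c - δ) ^ 4) ≤ EM p (fun c => 8 * s c ^ 4 + 8) := by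
      refine EM_monoV p _ _ fun c => ?_
      have h7 : (-s c - δ) ^ 2 ≤ 2 * (s c ^ 2 + δ ^ 2) := by nlinarith [sq_nonneg (s c - δ)]
      have h8 : ((-s c - δ) ^ 2) ^ 2 ≤ (2 * (s c ^ 2 + δ ^ 2)) ^ 2 :=
        pow_le_pow_left₀ (sq_nonneg _) h7 2
      have h9 : (2 * (s c ^ 2 + δ ^ 2)) ^ 2 ≤ 8 * (s c ^ 4 + δ ^ 4) := by
        nlinarith [sq_nonneg (s c ^ 2 - δ ^ 2)]
      have h10 : δ ^ 4 ≤ 1 := pow_le_one₀ hδ0 hδ1
      calc (-s c - δ) ^ 4 = ((-s c - δ) ^ 2) ^ 2 := by ring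
        _ ≤ 8 * (s c ^ 4 + δ ^ 4) := h8.trans h9
        _ ≤ _ := by linarith
    rw [EM_add', EM_mul', EM_const'] at h6
    linarith

/-- The local data of the average traces. -/
theorem ld_nag (e d : ℕ) (he : 3 ≤ e) (hd : 3 ≤ d) :
    ∃ C : ℝ, LD (fun p (c : Mon 1 e × Mon 2 d → ZMod p) => nag e d p c) 0 1 C := by
  obtain ⟨B, hB1, hB⟩ := EM_nag
  refine ⟨B, by linarith, fun p hp _ => ?_, fun p hp _ => ?_, fun p hp _ => ?_⟩
  · have : Fact p.Prime := ⟨hp⟩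
    rw [sub_zero]
    exact (hB e d he hd p).1
  · have : Fact p.Prime := ⟨hp⟩
    exact (hB e d he hd p).2.1
  · have : Fact p.Prime := ⟨hp⟩
    exact (hB e d he hd p).2.2

end Pool.Agent.X280.HP
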