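import Pool.Agent.X280.HG.Local
import Pool.Agent.X280.HG.Main

/-!
# Values of bihomogeneous forms at points of `ℙ¹ × ℙ²`
-/

set_option autoImplicit false
set_option linter.unusedSectionVars false

namespace Pool.Agent.X280.HP

open Finset hiding val
open Pool.Agent.Y722.HS Pool.Agent.X280.BP Pool.Agent.X280.UC Pool.Agent.X280.HG

section
variable {p : ℕ} [hp : Fact p.Prime] {ι : Type} [Fintype ι] [DecidableEq ι]
  {V : Type} [DecidableEq V]

/-- A system of linear evaluations for which any `d + 1` different points are independent. -/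
structure Ev (ev : V → (ι → ZMod p) → ZMod p) (d : ℕ) : Prop where
  add : ∀ v c (t : ZMod p) b, ev v (c + t • b) = ev v c + t * ev v b
  sep : ∀ m : ℕ, m ≤ d → ∀ (x : V) (t : Fin m → V), (∀ i, t i ≠ x) →
    ∃ b, ev x b = 1 ∧ ∀ i, ev (t i) b = 0

/-- The sum of the centred indicators over the points in `A`. -/
noncomputable def SV (ev : V → (ι → ZMod p) → ZMod p) (A : Finset V) (c : ι → ZMod p) : ℝ :=
  ∑ x ∈ A, zi p (ev x c)

variable {ev : V → (ι → ZMod p) → ZMod p} {d : ℕ}

theorem EM_zi_SV (h : Ev ev d) (A : Finset V) (x : V) (hx : x ∉ A) (φ : ZMod p → ℝ) (m : ℕ)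
    (hm : m ≤ d) :
    EM p (fun c : ι → ZMod p => φ (ev x c) * SV ev A c ^ m) =
      (∑ u, φ u) / p * EM p (fun c : ι → ZMod p => SV ev A c ^ m) := by
  classical
  have e : ∀ c : ι → ZMod p, SV ev A c ^ m =
      ∑ t ∈ Fintype.piFinset fun _ : Fin m => A, ∏ i, zi p (ev (t i) c) := by
    intro c
    unfold SV
    rw [Finset.sum_pow']
  simp only [e]
  have e1 : ∀ c : ι → ZMod p, φ (ev x c) * ∑ t ∈ Fintype.piFinset fun _ : Fin m => A,
      ∏ i, zi p (ev (t i) c) = ∑ t ∈ Fintype.piFinset fun _ : Fin m => A,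
        φ (ev x c) * ∏ i, zi p (ev (t i) c) := fun c => Finset.mul_sum _ _ _
  simp only [e1]
  rw [EM_sum', EM_sum', Finset.mul_sum]
  refine Finset.sum_congr rfl fun t ht => ?_
  rw [Fintype.mem_piFinset] at ht
  obtain ⟨b, hb1, hb2⟩ := h.sep m hm x t (fun i h => hx (h ▸ ht i))
  refine EM_splitF φ (fun c => ev x c) (fun c => ∏ i, zi p (ev (t i) c)) b ?_ ?_
  · intro c t'
    show ev x (c + t' • b) = ev x c + t'
    rw [h.add, hb1, mul_one]
  · intro c t'
    show ∏ i, zi p (ev (t i) (c + t' • b)) = ∏ i, zi p (ev (t i) c)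
    refine Finset.prod_congr rfl fun i _ => ?_
    rw [h.add, hb2 i, mul_zero, add_zero]

/-- **The moments of the sums of the centred indicators.** -/
theorem EM_SV (h : Ev ev d) (A : Finset V) : ∀ j : ℕ, j ≤ d + 1 →
    EM p (fun c : ι → ZMod p => SV ev A c ^ j) = ME (ez p) A.card j := by
  classical
  induction A using Finset.induction_on with
  | empty =>
    intro j _
    have e : (fun c : ι → ZMod p => SV ev (∅ : Finset V) c ^ j) =
        fun _ => (if j = 0 then (1 : ℝ) else 0) := by
      funext c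
      unfold SV
      rw [Finset.sum_empty]
      split_ifs with h
      · rw [h, pow_zero]
      · rw [zero_pow h]
    rw [e, EM_const', Finset.card_empty, ME]
  | insert x A hx ih =>
    intro j hj
    have e : (fun c : ι → ZMod p => SV ev (insert x A) c ^ j) = fun c =>
        ∑ k ∈ range (j + 1), (j.choose k : ℝ) * (zi p (ev x c) ^ k * SV ev A c ^ (j - k)) := by
      funext c
      have e1 : SV ev (insert x A) c = zi p (ev x c) + SV ev A c := by
        unfold SV
        rw [Finset.sum_insert hx]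
      rw [e1, add_pow]
      refine Finset.sum_congr rfl fun k _ => ?_
      ring
    rw [e, EM_sum', Finset.card_insert_of_notMem hx, ME]
    refine Finset.sum_congr rfl fun k hk => ?_
    rw [Finset.mem_range] at hk
    rw [EM_mul']
    rcases Nat.eq_zero_or_pos k with rfl | hk0
    · simp only [pow_zero, one_mul, Nat.sub_zero, adm_ez.e0, mul_one]
      rw [ih j hj]
    · rw [EM_zi_SV h A x hx (fun u => zi p u ^ k) (j - k) (by omega), ih _ (by omega), sum_zi]
      ring

/-- A form with value one at `x` and zero at those points `t i` which are different from `x`. -/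
theorem dirG {n d m : ℕ} (hm : m ≤ d) (x : PS p n) (t : Fin m → PS p n) :
    ∃ c : Mon n d → ZMod p, val c x.rep = 1 ∧ ∀ i, t i ≠ x → val c (t i).rep = 0 := by
  classical
  have hone : ∃ a : Fin (n + 1) → ZMod p, ∑ l, a l * x.rep l = 1 := by
    obtain ⟨k, hk⟩ := Function.ne_iff.mp x.rep_nonzero
    refine ⟨Pi.single k (x.rep k)⁻¹, ?_⟩
    rw [Finset.sum_eq_single k]
    · rw [Pi.single_eq_same]
      exact inv_mul_cancel₀ hk
    · intro b _ hb
      rw [Pi.single_eq_of_ne hb, zero_mul]
    · intro h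
      exact absurd (Finset.mem_univ _) h
  obtain ⟨a0, ha0⟩ := hone
  have hsep : ∀ i, ∃ a : Fin (n + 1) → ZMod p, ∑ l, a l * x.rep l = 1 ∧
      (t i ≠ x → ∑ l, a l * (t i).rep l = 0) := by
    intro i
    by_cases h : t i = x
    · exact ⟨a0, ha0, fun h' => absurd h h'⟩
    · obtain ⟨a, h1, h2⟩ := sep x (t i) h
      exact ⟨a, h1, fun _ => h2⟩
  choose a ha1 ha2 using hsep
  obtain ⟨c, hc⟩ := exists_form (n := n) (d := d) (R := ZMod p)
    (fun i => if h : (i : ℕ) < m then a ⟨i, h⟩ else a0)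
  refine ⟨c, ?_, fun i hi => ?_⟩
  · rw [hc]
    refine Finset.prod_eq_one fun i _ => ?_
    split_ifs with h
    · exact ha1 _
    · exact ha0
  · rw [hc]
    refine Finset.prod_eq_zero (Finset.mem_univ (⟨i, by have := i.2; omega⟩ : Fin d)) ?_
    rw [dif_pos (show ((⟨i, by have := i.2; omega⟩ : Fin d) : ℕ) < m from i.2)]
    exact ha2 i hi

end

/-- The value of the bihomogeneous form with the coefficients `c`. -/
def bval {m n e d : ℕ} {R : Type*} [CommSemiring R] (c : Mon m e × Mon n d → R)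
    (y : Fin (m + 1) → R) (x : Fin (n + 1) → R) : R :=
  ∑ q, c q * (mev y q.1 * mev x q.2)

section
variable {p : ℕ} [hp : Fact p.Prime] {m n e d : ℕ}

theorem bval_mul {R : Type*} [CommRing R] (a : Mon m e → R) (b : Mon n d → R)
    (y : Fin (m + 1) → R) (x : Fin (n + 1) → R) :
    bval (fun q => a q.1 * b q.2) y x = val a y * val b x := by
  unfold bval val
  rw [Finset.sum_mul_sum, Fintype.sum_prod_type]
  refine Finset.sum_congr rfl fun i _ => Finset.sum_congr rfl fun j _ => ?_
  ring

theorem bval_add {R : Type*} [CommRing R] (c b : Mon m e × Mon n d → R) (t : R)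
    (y : Fin (m + 1) → R) (x : Fin (n + 1) → R) :
    bval (c + t • b) y x = bval c y x + t * bval b y x := by
  unfold bval
  rw [Finset.mul_sum, ← Finset.sum_add_distrib]
  refine Finset.sum_congr rfl fun q _ => ?_
  simp only [Pi.add_apply, Pi.smul_apply, smul_eq_mul]
  ring

theorem bval_smul (c : Mon m e × Mon n d → ZMod p) (s t : ZMod p) (y : Fin (m + 1) → ZMod p)
    (x : Fin (n + 1) → ZMod p) :
    bval c (s • y) (t • x) = s ^ e * t ^ d * bval c y x := by
  unfold bval
  rw [Finset.mul_sum]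
  refine Finset.sum_congr rfl fun q _ => ?_
  have h1 : ∀ {k g : ℕ} (s : ZMod p) (y : Fin (k + 1) → ZMod p) (μ : Mon k g),
      mev (s • y) μ = s ^ g * mev y μ := by
    intro k g s y μ
    unfold mev
    simp only [Pi.smul_apply, smul_eq_mul, mul_pow]
    rw [Finset.prod_mul_distrib, Finset.prod_pow_eq_pow_sum, μ.2]
  rw [h1, h1]
  ring

/-- The evaluation at the points of the product of the projective spaces. -/
noncomputable def evB (p : ℕ) [Fact p.Prime] (m n e d : ℕ) (v : PS p m × PS p n)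
    (c : Mon m e × Mon n d → ZMod p) : ZMod p := bval c v.1.rep v.2.rep

theorem ev_evB (k : ℕ) (he : k ≤ e) (hd : k ≤ d) : Ev (evB p m n e d) k := by
  refine ⟨fun v c t b => bval_add c b t _ _, fun j hj x t ht => ?_⟩
  obtain ⟨a, ha1, ha2⟩ := dirG (hj.trans he) x.1 (fun i => (t i).1)
  obtain ⟨b, hb1, hb2⟩ := dirG (hj.trans hd) x.2 (fun i => (t i).2)
  refine ⟨fun q => a q.1 * b q.2, ?_, fun i => ?_⟩
  · unfold evB
    rw [bval_mul, ha1, hb1, one_mul]
  · unfold evB
    rw [bval_mul]
    by_cases h : (t i).1 = x.1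
    · have h2 : (t i).2 ≠ x.2 := fun h2 => ht i (Prod.ext h h2)
      rw [hb2 i h2, mul_zero]
    · rw [ha2 i h, zero_mul]

/-- The number of pairs of nonzero vectors at which the form vanishes. -/
noncomputable def bcone (c : Mon m e × Mon n d → ZMod p) : ℕ :=
  Nat.card {v : (Fin (m + 1) → ZMod p) × (Fin (n + 1) → ZMod p) //
    v.1 ≠ 0 ∧ v.2 ≠ 0 ∧ bval c v.1 v.2 = 0}

theorem bcone_div (c : Mon m e × Mon n d → ZMod p) :
    (bcone c : ℝ) / ((p : ℝ) - 1) ^ 2 =
      ∑ v : PS p m × PS p n, if evB p m n e d v c = 0 then (1 : ℝ) else 0 := by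
  classical
  have hp1 : (1 : ℝ) < p := by exact_mod_cast hp.out.one_lt
  have h1 : (bcone c : ℝ) = ∑ y ∈ XX m p, ∑ x ∈ XX n p,
      if bval c y x = 0 then (1 : ℝ) else 0 := by
    unfold bcone
    rw [Nat.card_eq_fintype_card, Fintype.card_subtype, ← Finset.sum_product', Finset.sum_ite,
      Finset.sum_const_zero, add_zero, Finset.sum_const, nsmul_eq_mul, mul_one]
    congr 2
    ext v
    simp only [Finset.mem_filter, Finset.mem_univ, true_and, Finset.mem_product, mem_XX]
    tauto
  have h2 : ∀ y : Fin (m + 1) → ZMod p, ∑ x ∈ XX n p, (if bval c y x = 0 then (1 : ℝ) else 0) =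
      (p - 1) * ∑ x : PS p n, if bval c y x.rep = 0 then (1 : ℝ) else 0 := by
    intro y
    rw [sum_XX]
    have h3 : ∀ x : PS p n, ∀ u : (ZMod p)ˣ,
        (if bval c y ((u : ZMod p) • x.rep) = 0 then (1 : ℝ) else 0) =
          if bval c y x.rep = 0 then (1 : ℝ) else 0 := by
      intro x u
      have h4 := bval_smul c 1 (u : ZMod p) y x.rep
      rw [one_smul, one_pow, one_mul] at h4
      rw [h4]
      have hu : (u : ZMod p) ^ d ≠ 0 := pow_ne_zero _ u.ne_zero
      simp [hu]
    simp only [h3, Finset.sum_const, Finset.card_univ, ZMod.card_units, nsmul_eq_mul]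
    rw [← Finset.mul_sum, Nat.cast_sub hp.out.one_lt.le, Nat.cast_one]
  have h5 : (bcone c : ℝ) = (p - 1) ^ 2 * ∑ y : PS p m, ∑ x : PS p n,
      if bval c y.rep x.rep = 0 then (1 : ℝ) else 0 := by
    rw [h1, Finset.sum_congr rfl (fun y _ => h2 y), ← Finset.mul_sum, sum_XX]
    have h3 : ∀ y : PS p m, ∀ u : (ZMod p)ˣ,
        (∑ x : PS p n, if bval c ((u : ZMod p) • y.rep) x.rep = 0 then (1 : ℝ) else 0) =
          ∑ x : PS p n, if bval c y.rep x.rep = 0 then (1 : ℝ) else 0 := by
      intro y u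
      refine Finset.sum_congr rfl fun x _ => ?_
      have h4 := bval_smul c (u : ZMod p) 1 y.rep x.rep
      rw [one_smul, one_pow, mul_one] at h4
      rw [h4]
      have hu : (u : ZMod p) ^ e ≠ 0 := pow_ne_zero _ u.ne_zero
      simp [hu]
    simp only [h3, Finset.sum_const, Finset.card_univ, ZMod.card_units, nsmul_eq_mul]
    rw [← Finset.mul_sum, Nat.cast_sub hp.out.one_lt.le, Nat.cast_one]
    ring
  rw [h5, Fintype.sum_prod_type]
  have hp2 : ((p : ℝ) - 1) ^ 2 ≠ 0 := pow_ne_zero _ (by linarith)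
  rw [mul_comm, mul_div_assoc, div_self hp2, mul_one]
  rfl

end

end Pool.Agent.X280.HP
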