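import Pool.Agent.X280.HP.WeiUnif
import Pool.Agent.X280.BP.Final
import Pool.Agent.X280.BP.Six3

/-!
# Pencils in families with marked points: the mean squares of the centred fibral averages
-/

set_option autoImplicit false
set_option linter.unusedSectionVars false

namespace Pool.Agent.X280.HP

open Finset hiding val
open Filter Topology Polynomial Pool.Agent.Y722.HS Pool.Agent.X280.BP Pool.Agent.X280.UC
  Pool.Agent.X280.HG

/-- The values at `t` of polynomials. -/
def evI {ι : Type} {p : ℕ} (d : ℕ) (t : ZMod p) (c : ι × Fin (d + 1) → ZMod p) : ι → ZMod p :=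
  fun i => ∑ j : Fin (d + 1), c (i, j) * t ^ (j : ℕ)

section
variable {p : ℕ} [hp : Fact p.Prime] {ι κ : Type} [Fintype ι] [DecidableEq ι] [Fintype κ]
  [DecidableEq κ]

theorem EM_splitV (φ : (ι → ZMod p) → ℝ) (F : (κ → ZMod p) → (ι → ZMod p))
    (h : (κ → ZMod p) → ℝ) (D : (ι → ZMod p) → (κ → ZMod p))
    (hF : ∀ c v, F (c + D v) = F c + v) (hh : ∀ c v, h (c + D v) = h c) :
    EM p (fun c => φ (F c) * h c) = EM p φ * EM p h := by
  have hp0 : (0 : ℝ) < p := p_pos'
  have h1 : ∀ v, EM p (fun c => φ (F c) * h c) = EM p (fun c => φ (F c + v) * h c) := by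
    intro v
    unfold EM
    congr 1
    rw [← Equiv.sum_comp (Equiv.addRight (D v))]
    refine Finset.sum_congr rfl fun c _ => ?_
    show φ (F (c + D v)) * h (c + D v) = _
    rw [hF, hh]
  have h2 : ∑ v : ι → ZMod p, EM p (fun c => φ (F c + v) * h c) = (∑ v, φ v) * EM p h := by
    rw [← EM_sum']
    have h3 : ∀ c, ∑ v : ι → ZMod p, φ (F c + v) * h c = (∑ v, φ v) * h c := by
      intro c
      rw [← Finset.sum_mul]
      congr 1
      exact Fintype.sum_equiv (Equiv.addLeft (F c)) _ _ fun t => rfl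
    simp only [h3]
    rw [EM_mul']
  simp only [← h1, Finset.sum_const, Finset.card_univ, Fintype.card_fun, ZMod.card,
    nsmul_eq_mul] at h2
  push_cast at h2
  have h4 : EM p φ = (∑ v, φ v) / (p : ℝ) ^ Fintype.card ι := rfl
  rw [h4, div_mul_eq_mul_div, eq_div_iff (by positivity), ← h2]
  ring

theorem evI_dir (d : ℕ) (L : (ZMod p)[X]) (hL : L.natDegree ≤ d) (t : ZMod p)
    (c : ι × Fin (d + 1) → ZMod p) (v : ι → ZMod p) :
    evI d t (c + fun q => v q.1 * L.coeff q.2) = fun i => evI d t c i + v i * L.eval t := by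
  funext i
  unfold evI
  simp only [Pi.add_apply]
  rw [← eval_fin L d hL, Finset.mul_sum, ← Finset.sum_add_distrib]
  refine Finset.sum_congr rfl fun j _ => ?_
  ring

theorem EM_one_point {d : ℕ} (t : ZMod p) (φ : (ι → ZMod p) → ℝ) :
    EM p (fun c : ι × Fin (d + 1) → ZMod p => φ (evI d t c)) = EM p φ := by
  have h := EM_splitV φ (evI d t) (fun _ => (1 : ℝ))
    (fun v q => v q.1 * (1 : (ZMod p)[X]).coeff q.2) (fun c v => by
      have := evI_dir d 1 (by simp) t c v
      simp only [eval_one, mul_one] at this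
      exact this) (fun _ _ => rfl)
  simp only [mul_one] at h
  rw [h, EM_const', mul_one]

theorem EM_two_points {d : ℕ} (hd : 1 ≤ d) {t t' : ZMod p} (ht : t' ≠ t)
    (φ ψ : (ι → ZMod p) → ℝ) :
    EM p (fun c : ι × Fin (d + 1) → ZMod p => φ (evI d t c) * ψ (evI d t' c)) =
      EM p φ * EM p ψ := by
  obtain ⟨L, hL, hx, hy⟩ := interp 1 t (fun _ => t') (fun _ => ht)
  have h := EM_splitV φ (evI d t) (fun c : ι × Fin (d + 1) → ZMod p => ψ (evI d t' c))
    (fun v q => v q.1 * L.coeff q.2) (fun c v => by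
      have := evI_dir d L (by omega) t c v
      rw [hx] at this
      simp only [mul_one] at this
      exact this) (fun c v => by
      have := evI_dir d L (by omega) t' c v
      rw [hy 0] at this
      simp only [mul_zero, add_zero] at this
      show ψ (evI d t' (c + fun q => v q.1 * L.coeff q.2)) = ψ (evI d t' c)
      rw [this])
  rw [h, EM_one_point]

end

section
variable {ι : Type} [Fintype ι] [DecidableEq ι]
variable {a : ∀ p : ℕ, (ι → ZMod p) → ℝ} {G : ∀ p : ℕ, (ι → ZMod p) → Prop} {r C : ℝ}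

/-- The centred fibral average (`0` at the primes `2, 3`). -/
noncomputable def UU (a : ∀ p : ℕ, (ι → ZMod p) → ℝ) (r : ℝ) (d p : ℕ)
    (c : ι × Fin (d + 1) → ZMod p) : ℝ :=
  if 5 ≤ p then (∑ t ∈ range p, a p (evI d (t : ZMod p) c)) / p + r else 0

theorem UU_mean (D : Dat a G r C) {d p : ℕ} (hp : p.Prime) [NeZero p] :
    |EM p (fun c : ι × Fin (d + 1) → ZMod p => UU a r d p c)| ≤ C / √p := by
  have hC := D.C1
  have : Fact p.Prime := ⟨hp⟩
  have hp0 : (0 : ℝ) < p := p_pos'
  unfold UU
  split_ifs with h5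
  · have e1 : (fun c : ι × Fin (d + 1) → ZMod p =>
        (∑ t ∈ range p, a p (evI d (t : ZMod p) c)) / p + r) = fun c =>
        (1 / (p : ℝ)) * (∑ t ∈ range p, a p (evI d (t : ZMod p) c)) + r := by
      funext c
      ring
    rw [e1, EM_add', EM_mul', EM_const', EM_sum']
    simp only [EM_one_point]
    rw [Finset.sum_const, Finset.card_range, nsmul_eq_mul]
    have e2 : 1 / (p : ℝ) * (p * EM p (a p)) + r = EM p (a p) + r := by
      field_simp
    rw [e2]
    exact D.mean p hp h5
  · rw [EM_const', abs_zero]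
    positivity

theorem UU_sq (D : Dat a G r C) {d p : ℕ} (hd : 1 ≤ d) (hp : p.Prime) [NeZero p] :
    EM p (fun c : ι × Fin (d + 1) → ZMod p => UU a r d p c ^ 2) ≤
      1 + C + 2 * |r| * (|r| + C) + r ^ 2 + C ^ 2 := by
  have hC := D.C1
  have : Fact p.Prime := ⟨hp⟩
  have hp0 : (0 : ℝ) < p := p_pos'
  have hp1 : (1 : ℝ) ≤ p := by exact_mod_cast hp.one_lt.le
  have hr0 := abs_nonneg r
  unfold UU
  split_ifs with h5
  · obtain ⟨b, hb⟩ : ∃ b : (ι → ZMod p) → ℝ, b = fun x => a p x + r := ⟨_, rfl⟩
    have hs1 : (1 : ℝ) ≤ √p := Real.one_le_sqrt.2 hp1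
    have hsp : √(p : ℝ) ≤ p := by
      have := Real.sq_sqrt hp0.le
      nlinarith
    have hb1 : |EM p b| ≤ C := by
      rw [hb, EM_add', EM_const']
      refine (D.mean p hp h5).trans ?_
      exact div_le_self (by linarith) hs1
    have hma : |EM p (a p)| ≤ |r| + C := by
      have h1 : |EM p (a p) + r| ≤ C := (D.mean p hp h5).trans (div_le_self (by linarith) hs1)
      have e : EM p (a p) = (EM p (a p) + r) - r := by ring
      rw [e]
      refine (abs_sub _ _).trans ?_
      linarith
    have hb2 : EM p (fun x => b x ^ 2) ≤ p * (1 + C + 2 * |r| * (|r| + C) + r ^ 2) := by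
      have e : (fun x : ι → ZMod p => b x ^ 2) = fun x => (a p x ^ 2 + (2 * r) * a p x) + r ^ 2 := by
        funext x
        rw [hb]
        ring
      rw [e, EM_add', EM_add', EM_mul', EM_const']
      have h1 := (abs_le.1 (D.sq p hp h5)).2
      have h2 : 2 * r * EM p (a p) ≤ 2 * |r| * (|r| + C) := by
        calc 2 * r * EM p (a p) ≤ |2 * r * EM p (a p)| := le_abs_self _
          _ = 2 * |r| * |EM p (a p)| := by rw [abs_mul, abs_mul, abs_two]
          _ ≤ _ := by gcongr
      have h3 : 0 ≤ 2 * |r| * (|r| + C) + r ^ 2 := by positivity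
      have h4 : C * √(p : ℝ) ≤ C * p := by gcongr
      have h5' : 2 * |r| * (|r| + C) + r ^ 2 ≤ p * (2 * |r| * (|r| + C) + r ^ 2) :=
        le_mul_of_one_le_left h3 hp1
      nlinarith
    have e1 : (fun c : ι × Fin (d + 1) → ZMod p =>
        ((∑ t ∈ range p, a p (evI d (t : ZMod p) c)) / p + r) ^ 2) = fun c =>
        (1 / (p : ℝ) ^ 2) * ∑ t : ZMod p, ∑ t' : ZMod p, b (evI d t c) * b (evI d t' c) := by
      funext c
      rw [sum_range_cast (fun t => a p (evI d t c)), ← Finset.sum_mul_sum, hb,
        Finset.sum_add_distrib, Finset.sum_const, Finset.card_univ, ZMod.card, nsmul_eq_mul]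
      field_simp
    rw [e1, EM_mul', EM_sum']
    have h6 : ∀ t : ZMod p, EM p (fun c : ι × Fin (d + 1) → ZMod p =>
        ∑ t' : ZMod p, b (evI d t c) * b (evI d t' c)) ≤
        p * (1 + C + 2 * |r| * (|r| + C) + r ^ 2) + p * C ^ 2 := by
      intro t
      rw [EM_sum', ← Finset.add_sum_erase _ _ (Finset.mem_univ t)]
      refine add_le_add ?_ ?_
      · have e2 : (fun c : ι × Fin (d + 1) → ZMod p => b (evI d t c) * b (evI d t c)) =
            fun c => (fun x => b x ^ 2) (evI d t c) := by
          funext c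
          ring
        rw [e2, EM_one_point t (fun x => b x ^ 2)]
        exact hb2
      · calc _ = ∑ _t' ∈ univ.erase t, EM p b * EM p b := by
              refine Finset.sum_congr rfl fun t' ht' => ?_
              exact EM_two_points hd (Finset.ne_of_mem_erase ht') b b
          _ ≤ ∑ _t' ∈ univ.erase t, C ^ 2 := by
              refine Finset.sum_le_sum fun t' _ => ?_
              rw [← pow_two, ← sq_abs]
              exact pow_le_pow_left₀ (abs_nonneg _) hb1 2
          _ ≤ ∑ _t' : ZMod p, C ^ 2 :=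
              Finset.sum_le_sum_of_subset_of_nonneg (Finset.erase_subset _ _)
                fun _ _ _ => sq_nonneg C
          _ = p * C ^ 2 := by
              rw [Finset.sum_const, Finset.card_univ, ZMod.card, nsmul_eq_mul]
    calc _ ≤ 1 / (p : ℝ) ^ 2 * ∑ _t : ZMod p,
          (p * (1 + C + 2 * |r| * (|r| + C) + r ^ 2) + p * C ^ 2) := by
            gcongr with t
            exact h6 t
      _ = _ := by
          rw [Finset.sum_const, Finset.card_univ, ZMod.card, nsmul_eq_mul]
          field_simp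
          try ring
  · simp only [ne_eq, OfNat.ofNat_ne_zero, not_false_eq_true, zero_pow]
    rw [EM_const']
    positivity

end

end Pool.Agent.X280.HP
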