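import Pool.Agent.X280.HP.Sec

/-!
# Pencils in families with marked points: uniform bounds
-/

set_option autoImplicit false
set_option linter.unusedSectionVars false

namespace Pool.Agent.X280.HP

open Finset hiding val
open Filter Topology Polynomial Pool.Agent.Y722.HS Pool.Agent.X280.BP Pool.Agent.X280.UC
  Pool.Agent.X280.HG

/-- The partial sums of `∑_p u_p log p / p^s`. -/
noncomputable def dirU (u : ℕ → ℝ) (T : ℕ) (s : ℂ) : ℂ :=
  ∑ p ∈ primesUpTo T, ((Real.log p : ℝ) : ℂ) / (p : ℂ) ^ s * (u p : ℂ)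

theorem dirU_shift (u : ℕ → ℝ) (T : ℕ) (σ : ℝ) (w : ℂ) :
    dirU u T ((σ : ℂ) + w) =
      dirU u T σ * ((T + 1 : ℕ) : ℂ) ^ (-w) +
      ∑ n ∈ range T, dirU u (n + 1) σ *
        (((n + 1 : ℕ) : ℂ) ^ (-w) - ((n + 1 + 1 : ℕ) : ℂ) ^ (-w)) := by
  unfold dirU
  rw [← abel]
  refine Finset.sum_congr rfl fun p hp => ?_
  have hp0 : (p : ℂ) ≠ 0 := by exact_mod_cast (mem_primesUpTo.1 hp).2.ne_zero
  rw [Complex.cpow_add _ _ hp0, Complex.cpow_neg]
  field_simp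

/-- The majorant. -/
noncomputable def gmajU (u : ℕ → ℝ) (T : ℕ) (σ η R : ℝ) : ℝ :=
  ‖dirU u T σ‖ + R * ∑ n ∈ range T, 1 / ((n + 1 : ℕ) : ℝ) ^ (1 + η) *
    ‖dirU u (n + 1) σ‖

theorem dirU_le_gmaj (u : ℕ → ℝ) (T : ℕ) (σ : ℝ) {η R : ℝ} (hη : 0 < η) {w : ℂ} (hw : η ≤ w.re)
    (hR : ‖w‖ ≤ R) : ‖dirU u T ((σ : ℂ) + w)‖ ≤ gmajU u T σ η R := by
  have hR0 : 0 ≤ R := (norm_nonneg _).trans hR
  rw [dirU_shift]
  unfold gmajU
  refine (norm_add_le _ _).trans (add_le_add ?_ ?_)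
  · rw [norm_mul]
    refine mul_le_of_le_one_right (norm_nonneg _) ?_
    rw [Complex.norm_natCast_cpow_of_pos (Nat.succ_pos T), Complex.neg_re]
    exact Real.rpow_le_one_of_one_le_of_nonpos (by exact_mod_cast Nat.succ_pos T) (by linarith)
  · refine (norm_sum_le _ _).trans ?_
    rw [Finset.mul_sum]
    refine Finset.sum_le_sum fun n _ => ?_
    rw [norm_mul]
    have h1 := cpow_diff hη hw (n := n + 1) (by omega)
    have h2 : (0 : ℝ) ≤ 1 / ((n + 1 : ℕ) : ℝ) ^ (1 + η) := by positivity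
    calc ‖dirU u (n + 1) σ‖ * _ ≤ ‖dirU u (n + 1) σ‖ *
          (‖w‖ * (1 / ((n + 1 : ℕ) : ℝ) ^ (1 + η))) := by gcongr
      _ ≤ ‖dirU u (n + 1) σ‖ * (R * (1 / ((n + 1 : ℕ) : ℝ) ^ (1 + η))) := by gcongr
      _ = _ := by ring

theorem gmajU_sq (u : ℕ → ℝ) (T : ℕ) (σ η R Z : ℝ)
    (hZ : ∑ n ∈ range T, 1 / ((n + 1 : ℕ) : ℝ) ^ (1 + η) ≤ Z) :
    gmajU u T σ η R ^ 2 ≤ 2 * ‖dirU u T σ‖ ^ 2 + 2 * R ^ 2 * Z *
      ∑ n ∈ range T, 1 / ((n + 1 : ℕ) : ℝ) ^ (1 + η) * ‖dirU u (n + 1) σ‖ ^ 2 := by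
  unfold gmajU
  obtain ⟨Y, hY⟩ : ∃ Y : ℝ, Y = ∑ n ∈ range T, 1 / ((n + 1 : ℕ) : ℝ) ^ (1 + η) *
    ‖dirU u (n + 1) σ‖ := ⟨_, rfl⟩
  obtain ⟨Y2, hY2⟩ : ∃ Y2 : ℝ, Y2 = ∑ n ∈ range T, 1 / ((n + 1 : ℕ) : ℝ) ^ (1 + η) *
    ‖dirU u (n + 1) σ‖ ^ 2 := ⟨_, rfl⟩
  have h1 : Y ^ 2 ≤ (∑ n ∈ range T, 1 / ((n + 1 : ℕ) : ℝ) ^ (1 + η)) * Y2 := by
    rw [hY, hY2]
    refine Finset.sum_sq_le_sum_mul_sum_of_sq_le_mul _ (fun n _ => by positivity)
      (fun n _ => by positivity) fun n _ => le_of_eq ?_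
    ring
  have h2 : 0 ≤ Y2 := by
    rw [hY2]
    exact Finset.sum_nonneg fun n _ => by positivity
  have h3 : Y ^ 2 ≤ Z * Y2 := h1.trans (mul_le_mul_of_nonneg_right hZ h2)
  rw [← hY, ← hY2]
  have h4 : R ^ 2 * Y ^ 2 ≤ R ^ 2 * (Z * Y2) := mul_le_mul_of_nonneg_left h3 (sq_nonneg R)
  nlinarith [sq_nonneg (‖dirU u T σ‖ - R * Y)]

section
variable {ι : Type} [Fintype ι] [DecidableEq ι]
variable {a : ∀ p : ℕ, (ι → ZMod p) → ℝ} {G : ∀ p : ℕ, (ι → ZMod p) → Prop} {r C : ℝ}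

/-- The constant. -/
noncomputable def KK (r C : ℝ) : ℝ := 1 + C + 2 * |r| * (|r| + C) + r ^ 2 + C ^ 2

theorem KK_one {r C : ℝ} (hC : 1 ≤ C) : 1 ≤ KK r C := by
  unfold KK
  have h1 : 0 ≤ 2 * |r| * (|r| + C) := by
    have := abs_nonneg r
    positivity
  nlinarith [sq_nonneg r, sq_nonneg C]

theorem UU_abs (D : Dat a G r C) {d p : ℕ} (hd : 1 ≤ d) (hp : p.Prime) [NeZero p] :
    EM p (fun c : ι × Fin (d + 1) → ZMod p => |UU a r d p c|) ≤ KK r C := by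
  have h2 : EM p (fun c : ι × Fin (d + 1) → ZMod p => UU a r d p c ^ 2) ≤ KK r C := UU_sq D hd hp
  have h3 := EM_monoV p (fun c : ι × Fin (d + 1) → ZMod p => |UU a r d p c|)
    (fun c => (1 / 2 : ℝ) * UU a r d p c ^ 2 + 1 / 2) fun c => by
      have := sq_nonneg (|UU a r d p c| - 1)
      have h4 := sq_abs (UU a r d p c)
      nlinarith
  rw [EM_add', EM_mul', EM_const'] at h3
  have h4 := KK_one (r := r) D.C1
  linarith

/-- **The covariances.** -/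
theorem cov2 (D : Dat a G r C) {d p q : ℕ} (hd : 1 ≤ d) (hp : p.Prime) (hq : q.Prime) (H : ℕ)
    (hH : p * q ≤ 2 * H + 1) :
    |EB H (fun c : ι × Fin (d + 1) → ℤ => UU a r d p (red p c) * UU a r d q (red q c))| ≤
      (if p = q then KK r C else 0) + C ^ 2 / (√p * √q) +
        2 ^ Fintype.card (ι × Fin (d + 1)) * KK r C ^ 2 * ((p : ℝ) * q / (2 * H + 1)) := by
  have hC := D.C1
  have hK := KK_one (r := r) D.C1
  have : NeZero p := ⟨hp.ne_zero⟩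
  have : NeZero q := ⟨hq.ne_zero⟩
  have hp0 : (0 : ℝ) < p := by exact_mod_cast hp.pos
  have hp1 : (1 : ℝ) ≤ p := by exact_mod_cast hp.one_lt.le
  have hq0 : (0 : ℝ) < q := by exact_mod_cast hq.pos
  have hH0 : (0 : ℝ) < 2 * H + 1 := by positivity
  split_ifs with h
  · subst h
    have h1 : p ≤ 2 * H + 1 := (Nat.le_mul_self p).trans hH
    have h2 := EB_one_mod H p h1 (fun c : ι × Fin (d + 1) → ZMod p =>
      UU a r d p c * UU a r d p c)
    have e1 : (fun c : ι × Fin (d + 1) → ZMod p => |UU a r d p c * UU a r d p c|) =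
        fun c => UU a r d p c ^ 2 := by
      funext c
      rw [abs_mul_self]; ring
    have e2 : (fun c : ι × Fin (d + 1) → ZMod p => UU a r d p c * UU a r d p c) =
        fun c => UU a r d p c ^ 2 := by
      funext c
      ring
    rw [e1, e2] at h2
    have h3 : EM p (fun c : ι × Fin (d + 1) → ZMod p => UU a r d p c ^ 2) ≤ KK r C :=
      UU_sq D hd hp
    have h4 : 0 ≤ EM p (fun c : ι × Fin (d + 1) → ZMod p => UU a r d p c ^ 2) := by
      unfold EM; positivity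
    have h5 : |EM p (fun c : ι × Fin (d + 1) → ZMod p => UU a r d p c ^ 2)| ≤ KK r C := by
      rw [abs_of_nonneg h4]; exact h3
    have h6 : 2 ^ Fintype.card (ι × Fin (d + 1)) * ((p : ℝ) / (2 * H + 1)) *
        EM p (fun c : ι × Fin (d + 1) → ZMod p => UU a r d p c ^ 2) ≤
        2 ^ Fintype.card (ι × Fin (d + 1)) * KK r C ^ 2 * ((p : ℝ) * p / (2 * H + 1)) := by
      calc _ ≤ 2 ^ Fintype.card (ι × Fin (d + 1)) * ((p : ℝ) / (2 * H + 1)) * KK r C := by gcongr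
        _ ≤ 2 ^ Fintype.card (ι × Fin (d + 1)) * ((p : ℝ) * p / (2 * H + 1)) * KK r C ^ 2 := by
            gcongr
            · nlinarith
            · nlinarith
        _ = _ := by ring
    have h7 : 0 ≤ C ^ 2 / (√(p : ℝ) * √(p : ℝ)) := by positivity
    have h8 := abs_le.1 h2
    have h9 := abs_le.1 h5
    rw [abs_le]
    constructor <;> linarith [h8.1, h8.2, h9.1, h9.2]
  · have h2 := EB_two H p q ((Nat.coprime_primes hp hq).2 h) hH
      (fun c : ι × Fin (d + 1) → ZMod p => UU a r d p c)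
      (fun c : ι × Fin (d + 1) → ZMod q => UU a r d q c)
    have h3 := UU_abs D hd hp
    have h4 := UU_abs D hd hq
    have h5 : 0 ≤ EM p (fun c : ι × Fin (d + 1) → ZMod p => |UU a r d p c|) := by
      unfold EM; positivity
    have h6 : 0 ≤ EM q (fun c : ι × Fin (d + 1) → ZMod q => |UU a r d q c|) := by
      unfold EM; positivity
    have h7 : 2 ^ Fintype.card (ι × Fin (d + 1)) * ((p : ℝ) * q / (2 * H + 1)) *
        (EM p (fun c : ι × Fin (d + 1) → ZMod p => |UU a r d p c|) *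
        EM q (fun c : ι × Fin (d + 1) → ZMod q => |UU a r d q c|)) ≤
        2 ^ Fintype.card (ι × Fin (d + 1)) * KK r C ^ 2 * ((p : ℝ) * q / (2 * H + 1)) := by
      calc _ ≤ 2 ^ Fintype.card (ι × Fin (d + 1)) * ((p : ℝ) * q / (2 * H + 1)) *
            (KK r C * KK r C) := by gcongr
        _ = _ := by ring
    have h8 : |EM p (fun c : ι × Fin (d + 1) → ZMod p => UU a r d p c) *
        EM q (fun c : ι × Fin (d + 1) → ZMod q => UU a r d q c)| ≤ C ^ 2 / (√p * √q) := by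
      rw [abs_mul]
      have h9 := UU_mean (d := d) D hp
      have h10 := UU_mean (d := d) D hq
      calc _ ≤ (C / √p) * (C / √q) := by gcongr
        _ = _ := by field_simp
    have h9 := abs_le.1 (h2.trans h7)
    have h10 := abs_le.1 h8
    rw [zero_add, abs_le]
    constructor <;> linarith [h9.1, h9.2, h10.1, h10.2]

/-- **The mean squares.** -/
theorem mean_sq2 (D : Dat a G r C) {d : ℕ} (hd : 1 ≤ d) (P : Finset ℕ) (hP : ∀ p ∈ P, p.Prime)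
    (z : ℕ → ℂ) (H : ℕ) (hH : ∀ p ∈ P, ∀ q ∈ P, p * q ≤ 2 * H + 1) :
    EB H (fun c : ι × Fin (d + 1) → ℤ => ‖∑ p ∈ P, z p * (UU a r d p (red p c) : ℂ)‖ ^ 2) ≤
      KK r C * ∑ p ∈ P, ‖z p‖ ^ 2 + C ^ 2 * (∑ p ∈ P, ‖z p‖ / √p) ^ 2 +
      2 ^ Fintype.card (ι × Fin (d + 1)) * KK r C ^ 2 * (∑ p ∈ P, ‖z p‖ * p) ^ 2 /
        (2 * H + 1) := by
  have hH0 : (0 : ℝ) < 2 * H + 1 := by positivity
  have e1 : EB H (fun c : ι × Fin (d + 1) → ℤ =>
      ‖∑ p ∈ P, z p * (UU a r d p (red p c) : ℂ)‖ ^ 2) =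
      ∑ p ∈ P, ∑ q ∈ P, (z p * (starRingEnd ℂ) (z q)).re *
        EB H (fun c : ι × Fin (d + 1) → ℤ => UU a r d p (red p c) * UU a r d q (red q c)) := by
    have e2 : (fun c : ι × Fin (d + 1) → ℤ =>
        ‖∑ p ∈ P, z p * (UU a r d p (red p c) : ℂ)‖ ^ 2) = fun c =>
        ∑ p ∈ P, ∑ q ∈ P, (z p * (starRingEnd ℂ) (z q)).re *
          (UU a r d p (red p c) * UU a r d q (red q c)) := by
      funext c
      exact norm_sq_sum P z fun p => UU a r d p (red p c)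
    rw [e2, EB_sum]
    refine Finset.sum_congr rfl fun p _ => ?_
    rw [EB_sum]
    refine Finset.sum_congr rfl fun q _ => ?_
    rw [EB_mul_left]
  have e3 : KK r C * ∑ p ∈ P, ‖z p‖ ^ 2 = ∑ p ∈ P, ∑ q ∈ P, (‖z p‖ * ‖z q‖) *
      (if p = q then KK r C else 0) := by
    rw [Finset.mul_sum]
    refine Finset.sum_congr rfl fun p hp => ?_
    simp only [mul_ite, mul_zero]
    rw [Finset.sum_ite_eq P p, if_pos hp]
    ring
  have e4 : C ^ 2 * (∑ p ∈ P, ‖z p‖ / √p) ^ 2 = ∑ p ∈ P, ∑ q ∈ P, (‖z p‖ * ‖z q‖) *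
      (C ^ 2 / (√p * √q)) := by
    rw [pow_two (∑ p ∈ P, ‖z p‖ / √p), Finset.sum_mul_sum, Finset.mul_sum]
    refine Finset.sum_congr rfl fun p _ => ?_
    rw [Finset.mul_sum]
    refine Finset.sum_congr rfl fun q _ => ?_
    rw [div_mul_div_comm]
    ring
  have e5 : 2 ^ Fintype.card (ι × Fin (d + 1)) * KK r C ^ 2 * (∑ p ∈ P, ‖z p‖ * p) ^ 2 /
      (2 * (H : ℝ) + 1) =
      ∑ p ∈ P, ∑ q ∈ P, (‖z p‖ * ‖z q‖) * (2 ^ Fintype.card (ι × Fin (d + 1)) * KK r C ^ 2 *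
        ((p : ℝ) * q / (2 * H + 1))) := by
    rw [pow_two (∑ p ∈ P, ‖z p‖ * p), Finset.sum_mul_sum, Finset.mul_sum, Finset.sum_div]
    refine Finset.sum_congr rfl fun p _ => ?_
    rw [Finset.mul_sum, Finset.sum_div]
    refine Finset.sum_congr rfl fun q _ => ?_
    ring
  rw [e1, e3, e4, e5, ← Finset.sum_add_distrib, ← Finset.sum_add_distrib]
  refine Finset.sum_le_sum fun p hp => ?_
  rw [← Finset.sum_add_distrib, ← Finset.sum_add_distrib]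
  refine Finset.sum_le_sum fun q hq => ?_
  rw [← mul_add, ← mul_add]
  refine (le_abs_self _).trans ?_
  rw [abs_mul]
  have h1 : |(z p * (starRingEnd ℂ) (z q)).re| ≤ ‖z p‖ * ‖z q‖ := by
    refine (Complex.abs_re_le_norm _).trans ?_
    rw [norm_mul, Complex.norm_conj]
  exact mul_le_mul h1 (cov2 D hd (hP p hp) (hP q hq) H (hH p hp q hq)) (abs_nonneg _)
    (by positivity)

end

end Pool.Agent.X280.HP
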