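import Pool.Agent.X280.HP.Sec2

/-!
# Pencils in families with marked points: Nagao's averages and the truncated series
-/

set_option autoImplicit false
set_option linter.unusedSectionVars false

namespace Pool.Agent.X280.HP

open Finset hiding val
open Filter Topology Polynomial Pool.Agent.Y722.HS Pool.Agent.X280.BP Pool.Agent.X280.UC
  Pool.Agent.X280.HG

section
variable {ι : Type} [Fintype ι] [DecidableEq ι]
variable {a : ∀ p : ℕ, (ι → ZMod p) → ℝ} {G : ∀ p : ℕ, (ι → ZMod p) → Prop} {r C : ℝ}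

theorem card_primes_le (T : ℕ) : ((primesUpTo T).card : ℝ) ≤ T := by
  have h6 : primesUpTo T ⊆ Finset.Icc 1 T := by
    intro p hp
    have h7 := mem_primesUpTo.1 hp
    rw [Finset.mem_Icc]
    exact ⟨h7.2.one_lt.le, h7.1⟩
  have h7 := Finset.card_le_card h6
  rw [Nat.card_Icc, Nat.add_sub_cancel] at h7
  exact_mod_cast h7

theorem mul_le_box {T H : ℕ} (hTH : T ^ 4 ≤ H) : ∀ p ∈ primesUpTo T, ∀ q ∈ primesUpTo T,
    p * q ≤ 2 * H + 1 := by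
  intro p hp q hq
  have h1 := mem_primesUpTo.1 hp
  have h2 := mem_primesUpTo.1 hq
  have hT1 : 1 ≤ T := h1.2.one_lt.le.trans h1.1
  calc p * q ≤ T * T := Nat.mul_le_mul h1.1 h2.1
    _ = T ^ 2 := by ring
    _ ≤ T ^ 4 := Nat.pow_le_pow_right hT1 (by norm_num)
    _ ≤ 2 * H + 1 := by omega

/-- **The boundedness of the mean squares of the partial sums.** -/
theorem dirU_bounded (D : Dat a G r C) {d : ℕ} (hd : 1 ≤ d) (σ : ℝ) (hσ : 1 / 2 < σ) :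
    ∃ M : ℝ, ∀ s : ℂ, σ ≤ s.re → ∀ T H : ℕ, T ^ 4 ≤ H →
      EB H (fun c : ι × Fin (d + 1) → ℤ => ‖dirU (fun p => UU a r d p (red p c)) T s‖ ^ 2) ≤
      M := by
  have hC := D.C1
  have hK := KK_one (r := r) D.C1
  obtain ⟨η, hη⟩ : ∃ η : ℝ, η = (2 * σ - 1) / 4 := ⟨_, rfl⟩
  have hη0 : 0 < η := by rw [hη]; linarith
  have hsum : Summable fun n : ℕ => 1 / (n : ℝ) ^ (σ + 1 / 2) :=
    Real.summable_one_div_nat_rpow.2 (by linarith)
  have hsum2 : Summable fun n : ℕ => 1 / (n : ℝ) ^ (σ / 2 + 3 / 4) :=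
    Real.summable_one_div_nat_rpow.2 (by linarith)
  refine ⟨KK r C * ((1 / η ^ 2) * ∑' n : ℕ, 1 / (n : ℝ) ^ (σ + 1 / 2)) +
    C ^ 2 * ((1 / η) * ∑' n : ℕ, 1 / (n : ℝ) ^ (σ / 2 + 3 / 4)) ^ 2 +
    2 ^ Fintype.card (ι × Fin (d + 1)) * KK r C ^ 2 * 2, fun s hs T H hTH => ?_⟩
  have hH0 : (0 : ℝ) < 2 * H + 1 := by positivity
  have h1 := mean_sq2 D hd (primesUpTo T) (fun p hp => (mem_primesUpTo.1 hp).2)
    (fun p => ((Real.log p : ℝ) : ℂ) / (p : ℂ) ^ s) H (mul_le_box hTH)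
  have h0 : ∀ p ∈ primesUpTo T, 0 ≤ ‖((Real.log p : ℝ) : ℂ) / (p : ℂ) ^ s‖ ∧
      ‖((Real.log p : ℝ) : ℂ) / (p : ℂ) ^ s‖ ≤ (p : ℝ) ^ η / η / (p : ℝ) ^ σ := by
    intro p hp
    have hpp := (mem_primesUpTo.1 hp).2
    have hp0 : (0 : ℝ) < p := by exact_mod_cast hpp.pos
    have hp1 : (1 : ℝ) ≤ p := by exact_mod_cast hpp.one_lt.le
    refine ⟨norm_nonneg _, ?_⟩
    rw [norm_wt hpp]
    have h4 : Real.log p / (p : ℝ) ^ s.re ≤ Real.log p / (p : ℝ) ^ σ :=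
      div_le_div_of_nonneg_left (Real.log_nonneg hp1) (by positivity)
        (Real.rpow_le_rpow_of_exponent_le hp1 hs)
    have h5 : Real.log p ≤ (p : ℝ) ^ η / η := Real.log_le_rpow_div hp0.le hη0
    exact h4.trans (by gcongr)
  have h2 : ∑ p ∈ primesUpTo T, ‖((Real.log p : ℝ) : ℂ) / (p : ℂ) ^ s‖ ^ 2 ≤
      (1 / η ^ 2) * ∑' n : ℕ, 1 / (n : ℝ) ^ (σ + 1 / 2) := by
    have h3 : ∀ p ∈ primesUpTo T, ‖((Real.log p : ℝ) : ℂ) / (p : ℂ) ^ s‖ ^ 2 ≤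
        (1 / η ^ 2) * (1 / (p : ℝ) ^ (σ + 1 / 2)) := by
      intro p hp
      have hpp := (mem_primesUpTo.1 hp).2
      have hp0 : (0 : ℝ) < p := by exact_mod_cast hpp.pos
      have hp1 : (1 : ℝ) ≤ p := by exact_mod_cast hpp.one_lt.le
      obtain ⟨h7, h6⟩ := h0 p hp
      calc ‖((Real.log p : ℝ) : ℂ) / (p : ℂ) ^ s‖ ^ 2 ≤ ((p : ℝ) ^ η / η / (p : ℝ) ^ σ) ^ 2 :=
            pow_le_pow_left₀ h7 h6 2
        _ = (1 / η ^ 2) * (((p : ℝ) ^ η) ^ 2 / ((p : ℝ) ^ σ) ^ 2) := by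
            field_simp
        _ = (1 / η ^ 2) * (1 / (p : ℝ) ^ (σ + 1 / 2)) := by
            congr 1
            rw [← Real.rpow_natCast ((p : ℝ) ^ η) 2, ← Real.rpow_natCast ((p : ℝ) ^ σ) 2,
              ← Real.rpow_mul hp0.le, ← Real.rpow_mul hp0.le, ← Real.rpow_sub hp0, one_div,
              ← Real.rpow_neg hp0.le]
            congr 1
            rw [hη]
            push_cast
            ring
    calc _ ≤ ∑ p ∈ primesUpTo T, (1 / η ^ 2) * (1 / (p : ℝ) ^ (σ + 1 / 2)) :=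
          Finset.sum_le_sum h3
      _ = (1 / η ^ 2) * ∑ p ∈ primesUpTo T, 1 / (p : ℝ) ^ (σ + 1 / 2) := by
          rw [Finset.mul_sum]
      _ ≤ _ := by
          refine mul_le_mul_of_nonneg_left ?_ (by positivity)
          exact hsum.sum_le_tsum _ fun n _ => by positivity
  have h2b : ∑ p ∈ primesUpTo T, ‖((Real.log p : ℝ) : ℂ) / (p : ℂ) ^ s‖ / √p ≤
      (1 / η) * ∑' n : ℕ, 1 / (n : ℝ) ^ (σ / 2 + 3 / 4) := by
    have h3 : ∀ p ∈ primesUpTo T, ‖((Real.log p : ℝ) : ℂ) / (p : ℂ) ^ s‖ / √p ≤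
        (1 / η) * (1 / (p : ℝ) ^ (σ / 2 + 3 / 4)) := by
      intro p hp
      have hpp := (mem_primesUpTo.1 hp).2
      have hp0 : (0 : ℝ) < p := by exact_mod_cast hpp.pos
      obtain ⟨h7, h6⟩ := h0 p hp
      calc ‖((Real.log p : ℝ) : ℂ) / (p : ℂ) ^ s‖ / √p ≤
            ((p : ℝ) ^ η / η / (p : ℝ) ^ σ) / √p := by gcongr
        _ = (1 / η) * (((p : ℝ) ^ η) / ((p : ℝ) ^ σ) / √p) := by
            field_simp
        _ = (1 / η) * (1 / (p : ℝ) ^ (σ / 2 + 3 / 4)) := by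
            congr 1
            rw [Real.sqrt_eq_rpow, ← Real.rpow_sub hp0, ← Real.rpow_sub hp0,
              show (1 : ℝ) / (p : ℝ) ^ (σ / 2 + 3 / 4) = (p : ℝ) ^ (-(σ / 2 + 3 / 4)) by
                rw [Real.rpow_neg hp0.le, one_div]]
            congr 1
            rw [hη]
            ring
    calc _ ≤ ∑ p ∈ primesUpTo T, (1 / η) * (1 / (p : ℝ) ^ (σ / 2 + 3 / 4)) :=
          Finset.sum_le_sum h3
      _ = (1 / η) * ∑ p ∈ primesUpTo T, 1 / (p : ℝ) ^ (σ / 2 + 3 / 4) := by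
          rw [Finset.mul_sum]
      _ ≤ _ := by
          refine mul_le_mul_of_nonneg_left ?_ (by positivity)
          exact hsum2.sum_le_tsum _ fun n _ => by positivity
  have h3 : ∑ p ∈ primesUpTo T, ‖((Real.log p : ℝ) : ℂ) / (p : ℂ) ^ s‖ * p ≤ 2 * (T : ℝ) ^ 2 := by
    have h4 : ∀ p ∈ primesUpTo T, ‖((Real.log p : ℝ) : ℂ) / (p : ℂ) ^ s‖ * p ≤ 2 * (T : ℝ) := by
      intro p hp
      have hpp := (mem_primesUpTo.1 hp).2
      have hpT : (p : ℝ) ≤ T := by exact_mod_cast (mem_primesUpTo.1 hp).1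
      have hp0 : (0 : ℝ) < p := by exact_mod_cast hpp.pos
      have hp1 : (1 : ℝ) ≤ p := by exact_mod_cast hpp.one_lt.le
      rw [norm_wt hpp]
      have h5 : Real.log p ≤ (p : ℝ) ^ (1 / 2 : ℝ) / (1 / 2) :=
        Real.log_le_rpow_div hp0.le (by norm_num)
      have h6 : (p : ℝ) ^ (1 / 2 : ℝ) ≤ (p : ℝ) ^ s.re :=
        Real.rpow_le_rpow_of_exponent_le hp1 (by linarith)
      have h7 : Real.log p / (p : ℝ) ^ s.re ≤ 2 := by
        rw [div_le_iff₀ (by positivity)]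
        linarith
      calc Real.log p / (p : ℝ) ^ s.re * p ≤ 2 * p := by gcongr
        _ ≤ 2 * T := by linarith
    calc _ ≤ ∑ _p ∈ primesUpTo T, 2 * (T : ℝ) := Finset.sum_le_sum h4
      _ = (primesUpTo T).card * (2 * (T : ℝ)) := by rw [Finset.sum_const, nsmul_eq_mul]
      _ ≤ T * (2 * (T : ℝ)) := by
          gcongr
          exact_mod_cast card_primes_le T
      _ = _ := by ring
  have h4 : (0 : ℝ) ≤ ∑ p ∈ primesUpTo T, ‖((Real.log p : ℝ) : ℂ) / (p : ℂ) ^ s‖ * p :=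
    Finset.sum_nonneg fun p _ => by positivity
  have h4b : (0 : ℝ) ≤ ∑ p ∈ primesUpTo T, ‖((Real.log p : ℝ) : ℂ) / (p : ℂ) ^ s‖ / √p :=
    Finset.sum_nonneg fun p _ => by positivity
  have h5 : 2 ^ Fintype.card (ι × Fin (d + 1)) * KK r C ^ 2 *
      (∑ p ∈ primesUpTo T, ‖((Real.log p : ℝ) : ℂ) / (p : ℂ) ^ s‖ * p) ^ 2 /
      (2 * (H : ℝ) + 1) ≤ 2 ^ Fintype.card (ι × Fin (d + 1)) * KK r C ^ 2 * 2 := by
    rw [mul_div_assoc]
    refine mul_le_mul_of_nonneg_left ?_ (by positivity)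
    rw [div_le_iff₀ hH0]
    have h6 : (∑ p ∈ primesUpTo T, ‖((Real.log p : ℝ) : ℂ) / (p : ℂ) ^ s‖ * p) ^ 2 ≤
        (2 * (T : ℝ) ^ 2) ^ 2 := pow_le_pow_left₀ h4 h3 2
    have h7 : (T : ℝ) ^ 4 ≤ H := by exact_mod_cast hTH
    nlinarith
  refine h1.trans (add_le_add (add_le_add ?_ ?_) h5)
  · exact mul_le_mul_of_nonneg_left h2 (by linarith)
  · exact mul_le_mul_of_nonneg_left (pow_le_pow_left₀ h4b h2b 2) (by positivity)

/-- The inequality of Chebyshev. -/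
theorem cheb2 {κ : Type} [Fintype κ] [DecidableEq κ] (H : ℕ) (f : (κ → ℤ) → ℂ) (M l : ℝ)
    (hl : 0 < l) (h : EB H (fun c => ‖f c‖ ^ 2) ≤ M) (P : (κ → ℤ) → Prop)
    (hP : ∀ c, P c → l ≤ ‖f c‖) :
    ({c : κ → ℤ | (∀ q, |c q| ≤ H) ∧ P c}.ncard : ℝ) /
      (2 * H + 1 : ℝ) ^ Fintype.card κ ≤ M / l ^ 2 := by
  classical
  have hpos : (0 : ℝ) < (2 * H + 1 : ℝ) ^ Fintype.card κ := by positivity
  rw [ncard_box]
  unfold EB at h
  rw [div_le_iff₀ hpos] at h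
  rw [div_le_div_iff₀ hpos (by positivity)]
  refine le_trans ?_ h
  have h1 : (((Pool.Agent.Y722.HS.box κ H).filter P).card : ℝ) * l ^ 2 =
      ∑ c ∈ (Pool.Agent.Y722.HS.box κ H).filter P, l ^ 2 := by
    rw [Finset.sum_const, nsmul_eq_mul]
  rw [h1]
  calc _ ≤ ∑ c ∈ (Pool.Agent.Y722.HS.box κ H).filter P, ‖f c‖ ^ 2 := by
        refine Finset.sum_le_sum fun c hc => ?_
        exact pow_le_pow_left₀ hl.le (hP c (Finset.mem_filter.1 hc).2) 2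
    _ ≤ _ := Finset.sum_le_sum_of_subset_of_nonneg (Finset.filter_subset _ _)
        fun c _ _ => by positivity

/-- **Uniform bounds.** -/
theorem unif_bound2 (D : Dat a G r C) {d : ℕ} (hd : 1 ≤ d) (σ : ℝ) (hσ : 1 / 2 < σ) (R : ℝ) :
    ∃ M : ℝ, ∀ T H : ℕ, T ^ 4 ≤ H → ∀ l : ℝ, 0 < l →
      ({c : ι × Fin (d + 1) → ℤ | (∀ q, |c q| ≤ H) ∧ ∃ s : ℂ, σ ≤ s.re ∧ ‖s‖ ≤ R ∧
        l ≤ ‖dirU (fun p => UU a r d p (red p c)) T s‖}.ncard : ℝ) /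
          (2 * H + 1 : ℝ) ^ Fintype.card (ι × Fin (d + 1)) ≤ M / l ^ 2 := by
  classical
  obtain ⟨η, hη⟩ : ∃ η : ℝ, η = (σ - 1 / 2) / 2 := ⟨_, rfl⟩
  have hη0 : 0 < η := by rw [hη]; linarith
  obtain ⟨σ1, hσ1⟩ : ∃ σ1 : ℝ, σ1 = 1 / 2 + η := ⟨_, rfl⟩
  have hσ12 : 1 / 2 < σ1 := by rw [hσ1]; linarith
  obtain ⟨M1, hM1⟩ := dirU_bounded D hd σ1 hσ12
  have hsum : Summable fun n : ℕ => 1 / ((n + 1 : ℕ) : ℝ) ^ (1 + η) :=
    (summable_nat_add_iff 1).2 (Real.summable_one_div_nat_rpow.2 (by linarith))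
  obtain ⟨Z, hZd⟩ : ∃ Z : ℝ, Z = ∑' n : ℕ, 1 / ((n + 1 : ℕ) : ℝ) ^ (1 + η) := ⟨_, rfl⟩
  have hZ : ∀ T : ℕ, ∑ n ∈ range T, 1 / ((n + 1 : ℕ) : ℝ) ^ (1 + η) ≤ Z := by
    intro T
    rw [hZd]
    exact hsum.sum_le_tsum _ fun n _ => by positivity
  have hZ0 : 0 ≤ Z := by simpa using hZ 0
  have hM10 : 0 ≤ M1 := by
    refine le_trans ?_ (hM1 (σ1 : ℂ) (by simp) 0 0 (by norm_num))
    exact EB_nonneg _ _ fun c => by positivity
  obtain ⟨R1, hR1⟩ : ∃ R1 : ℝ, R1 = R + |σ1| := ⟨_, rfl⟩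
  refine ⟨2 * M1 + 2 * R1 ^ 2 * Z * (Z * M1), fun T H hTH l hl => ?_⟩
  obtain ⟨g, hg⟩ : ∃ g : (ι × Fin (d + 1) → ℤ) → ℝ, g = fun c =>
    gmajU (fun p => UU a r d p (red p c)) T σ1 η R1 := ⟨_, rfl⟩
  have h1 : EB H (fun c => ‖(g c : ℂ)‖ ^ 2) ≤ 2 * M1 + 2 * R1 ^ 2 * Z * (Z * M1) := by
    have h2 : EB H (fun c => ‖(g c : ℂ)‖ ^ 2) ≤ EB H (fun c : ι × Fin (d + 1) → ℤ =>
        2 * ‖dirU (fun p => UU a r d p (red p c)) T σ1‖ ^ 2 +
        2 * R1 ^ 2 * Z * ∑ n ∈ range T, 1 / ((n + 1 : ℕ) : ℝ) ^ (1 + η) *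
          ‖dirU (fun p => UU a r d p (red p c)) (n + 1) σ1‖ ^ 2) := by
      refine EB_mono H _ _ fun c => ?_
      rw [Complex.norm_real, Real.norm_eq_abs, sq_abs, hg]
      exact gmajU_sq _ T σ1 η R1 Z (hZ T)
    have e : EB H (fun c : ι × Fin (d + 1) → ℤ =>
        2 * ‖dirU (fun p => UU a r d p (red p c)) T σ1‖ ^ 2 +
        2 * R1 ^ 2 * Z * ∑ n ∈ range T, 1 / ((n + 1 : ℕ) : ℝ) ^ (1 + η) *
          ‖dirU (fun p => UU a r d p (red p c)) (n + 1) σ1‖ ^ 2) =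
        2 * EB H (fun c : ι × Fin (d + 1) → ℤ =>
          ‖dirU (fun p => UU a r d p (red p c)) T σ1‖ ^ 2) +
        2 * R1 ^ 2 * Z * ∑ n ∈ range T, 1 / ((n + 1 : ℕ) : ℝ) ^ (1 + η) *
          EB H (fun c : ι × Fin (d + 1) → ℤ =>
            ‖dirU (fun p => UU a r d p (red p c)) (n + 1) σ1‖ ^ 2) := by
      have e1 : ∀ f1 f2 : (ι × Fin (d + 1) → ℤ) → ℝ, EB H (fun c => f1 c + f2 c) =
          EB H f1 + EB H f2 := by
        intro f1 f2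
        unfold EB
        rw [Finset.sum_add_distrib, add_div]
      rw [e1, EB_mul_left, EB_mul_left, EB_sum]
      congr 2
      refine Finset.sum_congr rfl fun n _ => ?_
      rw [EB_mul_left]
    rw [e] at h2
    refine h2.trans (add_le_add ?_ ?_)
    · exact mul_le_mul_of_nonneg_left (hM1 (σ1 : ℂ) (by simp) T H hTH) (by norm_num)
    · refine mul_le_mul_of_nonneg_left ?_ (by positivity)
      calc _ ≤ ∑ n ∈ range T, 1 / ((n + 1 : ℕ) : ℝ) ^ (1 + η) * M1 := by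
            refine Finset.sum_le_sum fun n hn => ?_
            refine mul_le_mul_of_nonneg_left (hM1 (σ1 : ℂ) (by simp) (n + 1) H ?_) (by positivity)
            exact (Nat.pow_le_pow_left (Finset.mem_range.1 hn) 4).trans hTH
        _ = (∑ n ∈ range T, 1 / ((n + 1 : ℕ) : ℝ) ^ (1 + η)) * M1 := by rw [Finset.sum_mul]
        _ ≤ Z * M1 := mul_le_mul_of_nonneg_right (hZ T) hM10
  refine cheb2 H (fun c => (g c : ℂ)) _ l hl h1 _ ?_
  rintro c ⟨s, hs1, hs2, hs3⟩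
  refine hs3.trans ?_
  have h2 := dirU_le_gmaj (fun p => UU a r d p (red p c)) T σ1
    hη0 (w := s - σ1) (R := R1) (by
      rw [Complex.sub_re, Complex.ofReal_re, hσ1, hη]
      linarith) (by
      refine (norm_sub_le _ _).trans ?_
      rw [Complex.norm_real, Real.norm_eq_abs, hR1]
      linarith)
  rw [add_sub_cancel] at h2
  rw [Complex.norm_real, Real.norm_eq_abs, hg]
  exact h2.trans (le_abs_self _)

end

end Pool.Agent.X280.HP
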