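import Pool.Agent.X280.HP.Sec3

/-!
# Pencils in families with marked points: the theorems
-/

set_option autoImplicit false
set_option linter.unusedSectionVars false

namespace Pool.Agent.X280.HP

open Finset hiding val
open Filter Topology Polynomial Pool.Agent.Y722.HS Pool.Agent.X280.BP Pool.Agent.X280.UC
  Pool.Agent.X280.HG

theorem sum_inv_sqrt (T : ℕ) : ∑ p ∈ primesUpTo T, 1 / √(p : ℝ) ≤ 2 * √(T : ℝ) := by
  induction T with
  | zero =>
    have : primesUpTo 0 = ∅ := rfl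
    simp [this]
  | succ T ih =>
    have e : ∑ p ∈ primesUpTo (T + 1), 1 / √(p : ℝ) = ∑ p ∈ primesUpTo T, 1 / √(p : ℝ) +
        if (T + 1).Prime then 1 / √((T + 1 : ℕ) : ℝ) else 0 := by
      unfold primesUpTo
      rw [Finset.sum_filter, Finset.sum_filter, Finset.sum_range_succ]
    rw [e]
    have hx : √(T : ℝ) ^ 2 = T := Real.sq_sqrt (by positivity)
    have hy : √((T + 1 : ℕ) : ℝ) ^ 2 = T + 1 := by
      rw [Real.sq_sqrt (by positivity)]
      push_cast
      ring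
    have hy0 : 0 < √((T + 1 : ℕ) : ℝ) := Real.sqrt_pos.2 (by positivity)
    have h1 : 2 * √(T : ℝ) + 1 / √((T + 1 : ℕ) : ℝ) ≤ 2 * √((T + 1 : ℕ) : ℝ) := by
      have h2 : 1 / √((T + 1 : ℕ) : ℝ) ≤ 2 * √((T + 1 : ℕ) : ℝ) - 2 * √(T : ℝ) := by
        rw [div_le_iff₀ hy0]
        nlinarith [sq_nonneg (√((T + 1 : ℕ) : ℝ) - √(T : ℝ))]
      linarith
    have h3 : 0 ≤ 1 / √((T + 1 : ℕ) : ℝ) := by positivity
    split_ifs <;> linarith

section
variable {ι : Type} [Fintype ι] [DecidableEq ι]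
variable {a : ∀ p : ℕ, (ι → ZMod p) → ℝ} {G : ∀ p : ℕ, (ι → ZMod p) → Prop} {r C : ℝ}

/-- **The mean squares of Nagao's averages.** -/
theorem nag_bounded (D : Dat a G r C) {d : ℕ} (hd : 1 ≤ d) :
    ∃ K : ℝ, ∀ X H : ℕ, 1 ≤ X → X ^ 4 ≤ H →
      EB H (fun c : ι × Fin (d + 1) → ℤ => ‖∑ p ∈ primesUpTo X,
        ((Real.log p / X : ℝ) : ℂ) * (UU a r d p (red p c) : ℂ)‖ ^ 2) ≤
      K * (Real.log X ^ 2 / X) := by
  have hC := D.C1
  have hK := KK_one (r := r) D.C1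
  refine ⟨KK r C + C ^ 2 * 4 + 2 ^ Fintype.card (ι × Fin (d + 1)) * KK r C ^ 2,
    fun X H hX hXH => ?_⟩
  have hX0 : (0 : ℝ) < X := by exact_mod_cast hX
  have hX1 : (1 : ℝ) ≤ X := by exact_mod_cast hX
  have hH0 : (0 : ℝ) < 2 * H + 1 := by positivity
  have hL : 0 ≤ Real.log X := Real.log_nonneg hX1
  have h1 := mean_sq2 D hd (primesUpTo X) (fun p hp => (mem_primesUpTo.1 hp).2)
    (fun p => ((Real.log p / X : ℝ) : ℂ)) H (mul_le_box hXH)
  have h0 : ∀ p ∈ primesUpTo X, ‖((Real.log p / X : ℝ) : ℂ)‖ ≤ Real.log X / X := by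
    intro p hp
    have hpp := (mem_primesUpTo.1 hp).2
    have hpX : (p : ℝ) ≤ X := by exact_mod_cast (mem_primesUpTo.1 hp).1
    have hp1 : (1 : ℝ) ≤ p := by exact_mod_cast hpp.one_lt.le
    rw [Complex.norm_real, Real.norm_eq_abs, abs_of_nonneg (div_nonneg (Real.log_nonneg hp1) hX0.le)]
    have := Real.log_le_log (by linarith) hpX
    gcongr
  have hcard := card_primes_le X
  have h2 : ∑ p ∈ primesUpTo X, ‖((Real.log p / X : ℝ) : ℂ)‖ ^ 2 ≤ Real.log X ^ 2 / X := by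
    calc _ ≤ ∑ _p ∈ primesUpTo X, (Real.log X / X) ^ 2 :=
          Finset.sum_le_sum fun p hp => pow_le_pow_left₀ (norm_nonneg _) (h0 p hp) 2
      _ = (primesUpTo X).card * (Real.log X / X) ^ 2 := by rw [Finset.sum_const, nsmul_eq_mul]
      _ ≤ X * (Real.log X / X) ^ 2 := mul_le_mul_of_nonneg_right hcard (sq_nonneg _)
      _ = _ := by field_simp
  have h3 : (∑ p ∈ primesUpTo X, ‖((Real.log p / X : ℝ) : ℂ)‖ / √p) ^ 2 ≤
      4 * (Real.log X ^ 2 / X) := by
    have h4 : ∑ p ∈ primesUpTo X, ‖((Real.log p / X : ℝ) : ℂ)‖ / √p ≤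
        Real.log X / X * (2 * √(X : ℝ)) := by
      calc _ ≤ ∑ p ∈ primesUpTo X, Real.log X / X * (1 / √(p : ℝ)) := by
            refine Finset.sum_le_sum fun p hp => ?_
            rw [mul_one_div]
            exact div_le_div_of_nonneg_right (h0 p hp) (Real.sqrt_nonneg _)
        _ = Real.log X / X * ∑ p ∈ primesUpTo X, 1 / √(p : ℝ) := by rw [Finset.mul_sum]
        _ ≤ _ := mul_le_mul_of_nonneg_left (sum_inv_sqrt X) (by positivity)
    have h5 : 0 ≤ ∑ p ∈ primesUpTo X, ‖((Real.log p / X : ℝ) : ℂ)‖ / √p :=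
      Finset.sum_nonneg fun p _ => by positivity
    refine (pow_le_pow_left₀ h5 h4 2).trans (le_of_eq ?_)
    rw [mul_pow, mul_pow, Real.sq_sqrt hX0.le]
    field_simp
    try norm_num
  have h4 : (∑ p ∈ primesUpTo X, ‖((Real.log p / X : ℝ) : ℂ)‖ * p) ^ 2 / (2 * H + 1) ≤
      Real.log X ^ 2 / X := by
    have h5 : ∑ p ∈ primesUpTo X, ‖((Real.log p / X : ℝ) : ℂ)‖ * p ≤ X * Real.log X := by
      calc _ ≤ ∑ _p ∈ primesUpTo X, Real.log X := by
            refine Finset.sum_le_sum fun p hp => ?_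
            have hpX : (p : ℝ) ≤ X := by exact_mod_cast (mem_primesUpTo.1 hp).1
            calc ‖((Real.log p / X : ℝ) : ℂ)‖ * p ≤ Real.log X / X * X := by
                  gcongr
                  exact h0 p hp
              _ = Real.log X := by field_simp
        _ = (primesUpTo X).card * Real.log X := by rw [Finset.sum_const, nsmul_eq_mul]
        _ ≤ X * Real.log X := mul_le_mul_of_nonneg_right hcard hL
    have h6 : 0 ≤ ∑ p ∈ primesUpTo X, ‖((Real.log p / X : ℝ) : ℂ)‖ * p :=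
      Finset.sum_nonneg fun p _ => by positivity
    have h7 : (X : ℝ) ^ 4 ≤ H := by exact_mod_cast hXH
    rw [div_le_div_iff₀ hH0 hX0]
    calc (∑ p ∈ primesUpTo X, ‖((Real.log p / X : ℝ) : ℂ)‖ * p) ^ 2 * X ≤
        (X * Real.log X) ^ 2 * X := by gcongr
      _ = Real.log X ^ 2 * (X : ℝ) ^ 3 := by ring
      _ ≤ Real.log X ^ 2 * (2 * H + 1) := by
          refine mul_le_mul_of_nonneg_left ?_ (sq_nonneg _)
          have h8 : (X : ℝ) ^ 3 ≤ (X : ℝ) ^ 4 := pow_le_pow_right₀ hX1 (by norm_num)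
          linarith
  refine h1.trans ?_
  rw [add_mul, add_mul]
  refine add_le_add (add_le_add ?_ ?_) ?_
  · exact mul_le_mul_of_nonneg_left h2 (by linarith)
  · rw [mul_assoc]
    exact mul_le_mul_of_nonneg_left h3 (by positivity)
  · rw [mul_div_assoc]
    exact mul_le_mul_of_nonneg_left h4 (by positivity)

/-- The fibre at `t` of the pencil in the family `W`. -/
noncomputable def fibre {d : ℕ} (W : (ι → ℤ) → WeierstrassCurve ℤ) (c : ι × Fin (d + 1) → ℤ)
    (t : ℕ) : WeierstrassCurve ℤ :=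
  W fun i => (polyOf fun j => c (i, j)).eval (t : ℤ)

/-- The fibral average of the pencil. -/
noncomputable def pencilAverage {d : ℕ} (W : (ι → ℤ) → WeierstrassCurve ℤ)
    (c : ι × Fin (d + 1) → ℤ) (p : ℕ) : ℝ :=
  (∑ t ∈ range p, ((p : ℝ) + 1 - np (fibre W c t) p)) / p

variable {W : (ι → ℤ) → WeierstrassCurve ℤ}
  {V : ∀ p : ℕ, (ι → ZMod p) → WeierstrassCurve (ZMod p)}

theorem pencil_eq (h : Red W V) {d : ℕ} (c : ι × Fin (d + 1) → ℤ) (p : ℕ) :
    UU (trc V) r d p (red p c) = if 5 ≤ p then pencilAverage W c p + r else 0 := by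
  unfold UU pencilAverage
  split_ifs
  · congr 2
    refine Finset.sum_congr rfl fun t _ => ?_
    have hnp : (np (fibre W c t) p : ℝ) = p + 1 - trc V p (red p fun i =>
        (polyOf fun j => c (i, j)).eval (t : ℤ)) := by
      unfold fibre
      rw [np_map, h.map]
      unfold trc
      push_cast
      ring
    have e : (red p fun i => (polyOf fun j => c (i, j)).eval (t : ℤ)) =
        evI d (t : ZMod p) (red p c) := by
      funext i
      unfold evI
      exact eval_polyOf (fun j => c (i, j)) p t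
    rw [hnp, e]
    ring
  · rfl

/-- **Nagao's averages of pencils.** -/
theorem nagao_pencils (h : Red W V) (D : Dat (trc V) G r C) {d : ℕ} (hd : 1 ≤ d) :
    ∃ K : ℝ, ∀ X H : ℕ, 1 ≤ X → X ^ 4 ≤ H → ∀ l : ℝ, 0 < l →
      ({c : ι × Fin (d + 1) → ℤ | (∀ q, |c q| ≤ H) ∧
        l ≤ |(∑ p ∈ (primesUpTo X).filter (5 ≤ ·), Real.log p * (pencilAverage W c p + r)) / X|}.ncard
          : ℝ) / (2 * H + 1 : ℝ) ^ Fintype.card (ι × Fin (d + 1)) ≤
        K * (Real.log X ^ 2 / X) / l ^ 2 := by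
  obtain ⟨K, hK⟩ := nag_bounded D hd
  refine ⟨K, fun X H hX hXH l hl => ?_⟩
  refine cheb2 H _ _ l hl (hK X H hX hXH) _ fun c hc => ?_
  refine hc.trans (le_of_eq ?_)
  have e : ∑ p ∈ primesUpTo X, ((Real.log p / X : ℝ) : ℂ) * (UU (trc V) r d p (red p c) : ℂ) =
      (((∑ p ∈ (primesUpTo X).filter (5 ≤ ·), Real.log p * (pencilAverage W c p + r)) / X : ℝ) :
        ℂ) := by
    rw [Finset.sum_filter, Finset.sum_div]
    push_cast
    refine Finset.sum_congr rfl fun p _ => ?_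
    rw [pencil_eq h]
    split_ifs
    · push_cast
      ring
    · simp
  rw [e, Complex.norm_real, Real.norm_eq_abs]

/-- **The truncated series of pencils.** -/
theorem series_pencils (h : Red W V) (D : Dat (trc V) G r C) {d : ℕ} (hd : 1 ≤ d) (σ : ℝ)
    (hσ : 1 / 2 < σ) (R : ℝ) :
    ∃ M : ℝ, ∀ T H : ℕ, T ^ 4 ≤ H → ∀ l : ℝ, 0 < l →
      ({c : ι × Fin (d + 1) → ℤ | (∀ q, |c q| ≤ H) ∧ ∃ s : ℂ, σ ≤ s.re ∧ ‖s‖ ≤ R ∧
        l ≤ ‖∑ p ∈ (primesUpTo T).filter (5 ≤ ·), ((Real.log p : ℝ) : ℂ) / (p : ℂ) ^ s *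
          ((pencilAverage W c p + r : ℝ) : ℂ)‖}.ncard : ℝ) /
        (2 * H + 1 : ℝ) ^ Fintype.card (ι × Fin (d + 1)) ≤ M / l ^ 2 := by
  obtain ⟨M, hM⟩ := unif_bound2 D hd σ hσ R
  refine ⟨M, fun T H hTH l hl => ?_⟩
  refine le_trans (le_of_eq ?_) (hM T H hTH l hl)
  congr 3
  ext c
  simp only [Set.mem_ofPred_eq]
  refine and_congr_right fun _ => exists_congr fun s => ?_
  have e : dirU (fun p => UU (trc V) r d p (red p c)) T s =
      ∑ p ∈ (primesUpTo T).filter (5 ≤ ·), ((Real.log p : ℝ) : ℂ) / (p : ℂ) ^ s *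
          ((pencilAverage W c p + r : ℝ) : ℂ) := by
    unfold dirU
    rw [Finset.sum_filter]
    refine Finset.sum_congr rfl fun p _ => ?_
    simp only [pencil_eq h]
    split_ifs
    · rfl
    · simp
  rw [e]

end

end Pool.Agent.X280.HP
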