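import Pool.Agent.X280.HP.Sec4

/-!
# The families with marked sections
-/

set_option autoImplicit false

namespace Pool.Agent.X280.HP

open Pool.Agent.Y722.HS Pool.Agent.X280.BP

/-- `q` is a point of the Weierstrass equation `E`. -/
def OnE {R : Type*} [CommRing R] (E : WeierstrassCurve R) (q : R × R) : Prop :=
  q.2 ^ 2 + E.a₁ * q.1 * q.2 + E.a₃ * q.2 = q.1 ^ 3 + E.a₂ * q.1 ^ 2 + E.a₄ * q.1 + E.a₆

/-- The first coordinate of the marked point over `X = i²`. -/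
def xi6 {R : Type*} [CommRing R] (c : Fin 2 → R) (i : R) : R :=
  8 * i * (c 0 * i ^ 2 + c 1) + 8 * i ^ 4 + 4 * w6 c * i ^ 2 + G6 c

/-- The six marked points of `V6 c`: `(0, 0)`, `(G + 192, 0)` and `(x_i, 4 i² x_i)`, `i = 1, 2, 3, 4`. -/
def marks6 {R : Type*} [CommRing R] (c : Fin 2 → R) : Fin 6 → R × R :=
  ![(0, 0), (G6 c + 192, 0), (xi6 c 1, 4 * xi6 c 1), (xi6 c 2, 16 * xi6 c 2),
    (xi6 c 3, 36 * xi6 c 3), (xi6 c 4, 64 * xi6 c 4)]

theorem on1 {R : Type*} [CommRing R] (c : Fin 4 → R) : OnE (V1 c) (0, 0) := by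
  simp [OnE, V1]

theorem on2 {R : Type*} [CommRing R] (c : Fin 3 → R) : OnE (V2 c) (0, 0) ∧ OnE (V2 c) (1, 0) := by
  constructor <;> simp [OnE, V2]

theorem on6 {R : Type*} [CommRing R] (c : Fin 2 → R) (i : Fin 6) : OnE (V6 c) (marks6 c i) := by
  fin_cases i <;> simp [OnE, marks6, V6, xi6, G6, w6] <;> ring

theorem redV0 : Red (fun c : Fin 2 → ℤ => V0 c) (fun p (c : Fin 2 → ZMod p) => V0 c) :=
  ⟨fun c p => by unfold V0 red WeierstrassCurve.map; simp⟩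

theorem redV1 : Red (fun c : Fin 4 → ℤ => V1 c) (fun p (c : Fin 4 → ZMod p) => V1 c) :=
  ⟨fun c p => by unfold V1 red WeierstrassCurve.map; simp⟩

theorem redV2 : Red (fun c : Fin 3 → ℤ => V2 c) (fun p (c : Fin 3 → ZMod p) => V2 c) :=
  ⟨fun c p => by unfold V2 red WeierstrassCurve.map; simp⟩

theorem redV6 : Red (fun c : Fin 2 → ℤ => V6 c) (fun p (c : Fin 2 → ZMod p) => V6 c) :=
  ⟨fun c p => by unfold V6 G6 w6 red WeierstrassCurve.map; simp⟩

end Pool.Agent.X280.HP
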