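import Pool.Agent.X280.HP.Pts

/-!
# Pencils of Weierstrass cubics: the first moments of the average trace of the fibres
-/

set_option autoImplicit false
set_option linter.unusedSectionVars false

namespace Pool.Agent.X280.HP

open Finset hiding val
open Pool.Agent.Y722.HS Pool.Agent.X280.BP Pool.Agent.X280.UC Pool.Agent.X280.HG

section
variable {p : ℕ} [hp : Fact p.Prime] {ι : Type} [Fintype ι] [DecidableEq ι]
  {V : Type} [DecidableEq V]

/-- A system of pairs of linear evaluations for which any `d + 1` different points are independent. -/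
structure Ev2 (ev : V → (ι → ZMod p) → ZMod p × ZMod p) (d : ℕ) : Prop where
  add : ∀ v c (t : ZMod p) b, ev v (c + t • b) = ev v c + t • ev v b
  sep : ∀ m : ℕ, m ≤ d → ∀ (x : V) (t : Fin m → V), (∀ i, t i ≠ x) →
    ∃ b b', ev x b = (1, 0) ∧ ev x b' = (0, 1) ∧ ∀ i, ev (t i) b = 0 ∧ ev (t i) b' = 0

theorem EM_split2 (φ : ZMod p × ZMod p → ℝ) (F : (ι → ZMod p) → ZMod p × ZMod p)
    (h : (ι → ZMod p) → ℝ) (b b' : ι → ZMod p)
    (hF : ∀ c (s t : ZMod p), F (c + s • b + t • b') = F c + (s, t))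
    (hh : ∀ c (s t : ZMod p), h (c + s • b + t • b') = h c) :
    EM p (fun c => φ (F c) * h c) = (∑ v, φ v) / (p : ℝ) ^ 2 * EM p h := by
  have h1 := EM_dir b' (fun c => φ (F c) * h c)
  have h2 := EM_dir b (fun c => ∑ t : ZMod p, φ (F (c + t • b')) * h (c + t • b'))
  have h4 : ∀ c, ∑ s : ZMod p, ∑ t : ZMod p, φ (F (c + s • b + t • b')) * h (c + s • b + t • b') =
      (∑ v, φ v) * h c := by
    intro c
    simp only [hF, hh]
    rw [← Fintype.sum_prod_type' (f := fun s t => φ (F c + (s, t)) * h c), ← Finset.sum_mul]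
    congr 1
    exact Fintype.sum_equiv (Equiv.addLeft (F c)) _ _ fun t => rfl
  simp only [h4] at h2
  rw [EM_mul', ← h1] at h2
  have hp0 : (0 : ℝ) < p := p_pos'
  rw [div_mul_eq_mul_div, eq_div_iff (by positivity)]
  linarith

/-- The sum over the points of `A`. -/
noncomputable def SV2 (ev : V → (ι → ZMod p) → ZMod p × ZMod p) (ψ : ZMod p × ZMod p → ℝ)
    (A : Finset V) (c : ι → ZMod p) : ℝ := ∑ x ∈ A, ψ (ev x c)

variable {ev : V → (ι → ZMod p) → ZMod p × ZMod p} {d : ℕ} {ψ : ZMod p × ZMod p → ℝ}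

theorem EM_zi_SV2 (h : Ev2 ev d) (A : Finset V) (x : V) (hx : x ∉ A) (φ : ZMod p × ZMod p → ℝ)
    (m : ℕ) (hm : m ≤ d) :
    EM p (fun c : ι → ZMod p => φ (ev x c) * SV2 ev ψ A c ^ m) =
      (∑ u, φ u) / (p : ℝ) ^ 2 * EM p (fun c : ι → ZMod p => SV2 ev ψ A c ^ m) := by
  classical
  have e : ∀ c : ι → ZMod p, SV2 ev ψ A c ^ m =
      ∑ t ∈ Fintype.piFinset fun _ : Fin m => A, ∏ i, ψ (ev (t i) c) := by
    intro c
    unfold SV2
    rw [Finset.sum_pow']
  simp only [e]
  have e1 : ∀ c : ι → ZMod p, φ (ev x c) * ∑ t ∈ Fintype.piFinset fun _ : Fin m => A,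
      ∏ i, ψ (ev (t i) c) = ∑ t ∈ Fintype.piFinset fun _ : Fin m => A,
        φ (ev x c) * ∏ i, ψ (ev (t i) c) := fun c => Finset.mul_sum _ _ _
  simp only [e1]
  rw [EM_sum', EM_sum', Finset.mul_sum]
  refine Finset.sum_congr rfl fun t ht => ?_
  rw [Fintype.mem_piFinset] at ht
  obtain ⟨b, b', hb1, hb2, hb3⟩ := h.sep m hm x t (fun i h => hx (h ▸ ht i))
  refine EM_split2 φ (fun c => ev x c) (fun c => ∏ i, ψ (ev (t i) c)) b b' ?_ ?_
  · intro c s t'
    show ev x (c + s • b + t' • b') = ev x c + (s, t')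
    rw [h.add, h.add, hb1, hb2, add_assoc]
    congr 1
    ext <;> simp
  · intro c s t'
    show ∏ i, ψ (ev (t i) (c + s • b + t' • b')) = ∏ i, ψ (ev (t i) c)
    refine Finset.prod_congr rfl fun i _ => ?_
    rw [h.add, h.add, (hb3 i).1, (hb3 i).2, smul_zero, smul_zero, add_zero, add_zero]

/-- **The moments of the sums.** -/
theorem EM_SV2 (h : Ev2 ev d) (A : Finset V) : ∀ j : ℕ, j ≤ d + 1 →
    EM p (fun c : ι → ZMod p => SV2 ev ψ A c ^ j) =
      ME (fun k => (∑ v, ψ v ^ k) / (p : ℝ) ^ 2) A.card j := by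
  classical
  have hp0 : (0 : ℝ) < p := p_pos'
  have h00 : (∑ v : ZMod p × ZMod p, ψ v ^ 0) / (p : ℝ) ^ 2 = 1 := by
    simp only [pow_zero, Finset.sum_const, Finset.card_univ, Fintype.card_prod, ZMod.card,
      nsmul_eq_mul, mul_one, Nat.cast_mul]
    field_simp
  induction A using Finset.induction_on with
  | empty =>
    intro j _
    have e : (fun c : ι → ZMod p => SV2 ev ψ (∅ : Finset V) c ^ j) =
        fun _ => (if j = 0 then (1 : ℝ) else 0) := by
      funext c
      unfold SV2
      rw [Finset.sum_empty]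
      split_ifs with h
      · rw [h, pow_zero]
      · rw [zero_pow h]
    rw [e, EM_const', Finset.card_empty, ME]
  | insert x A hx ih =>
    intro j hj
    have e : (fun c : ι → ZMod p => SV2 ev ψ (insert x A) c ^ j) = fun c =>
        ∑ k ∈ range (j + 1), (j.choose k : ℝ) * (ψ (ev x c) ^ k * SV2 ev ψ A c ^ (j - k)) := by
      funext c
      have e1 : SV2 ev ψ (insert x A) c = ψ (ev x c) + SV2 ev ψ A c := by
        unfold SV2
        rw [Finset.sum_insert hx]
      rw [e1, add_pow]
      refine Finset.sum_congr rfl fun k _ => ?_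
      ring
    rw [e, EM_sum', Finset.card_insert_of_notMem hx, ME]
    refine Finset.sum_congr rfl fun k hk => ?_
    rw [Finset.mem_range] at hk
    rw [EM_mul']
    rcases Nat.eq_zero_or_pos k with rfl | hk0
    · simp only [pow_zero, one_mul, Nat.sub_zero] at h00 ⊢
      rw [ih j hj, h00, mul_one]
    · rw [EM_zi_SV2 h A x hx (fun u => ψ u ^ k) (j - k) (by omega), ih _ (by omega)]
      ring

theorem ME_two {e : ℕ → ℝ} {q : ℝ} (h : Adm e q) (n : ℕ) : ME e n 2 = n * q := by
  induction n with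
  | zero => simp [ME]
  | succ n ih =>
    have h1 := ME_succ h n 0
    simp only [Nat.zero_add, Finset.range_zero, Finset.sum_empty, add_zero] at h1
    rw [h1, ih, (ME_one h n).1]
    norm_num
    ring

end

section
variable {p : ℕ} [hp : Fact p.Prime]

/-- The number of the affine points of `y² = x³ + α x + β`. -/
noncomputable def affinePts (p : ℕ) (α β : ZMod p) : ℝ :=
  Nat.card {z : ZMod p × ZMod p // z.2 ^ 2 = z.1 ^ 3 + α * z.1 + β}

/-- The trace divided by `p`. -/
noncomputable def tr1 (p : ℕ) (v : ZMod p × ZMod p) : ℝ := ((p : ℝ) - affinePts p v.1 v.2) / p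

theorem affinePts_eq (α β : ZMod p) : affinePts p α β =
    ∑ x : ZMod p, ∑ y : ZMod p, if y ^ 2 = x ^ 3 + α * x + β then (1 : ℝ) else 0 := by
  classical
  unfold affinePts
  rw [Nat.card_eq_fintype_card, Fintype.card_subtype,
    ← Fintype.sum_prod_type' (f := fun x y => if y ^ 2 = x ^ 3 + α * x + β then (1 : ℝ) else 0),
    Finset.sum_ite, Finset.sum_const_zero, add_zero, Finset.sum_const, nsmul_eq_mul, mul_one]

/-- The number of the pairs with equal squares. -/
noncomputable def sqPairs (p : ℕ) [Fact p.Prime] : ℝ :=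
  ∑ y : ZMod p, ∑ y' : ZMod p, if y' ^ 2 = y ^ 2 then (1 : ℝ) else 0

theorem sqPairs_near : |sqPairs p - 2 * p| ≤ 2 := by
  classical
  have h1 : ∀ y : ZMod p, ∑ y' : ZMod p, (if y' ^ 2 = y ^ 2 then (1 : ℝ) else 0) =
      (({y, -y} : Finset (ZMod p)).card : ℝ) := by
    intro y
    rw [Finset.sum_ite, Finset.sum_const_zero, add_zero, Finset.sum_const, nsmul_eq_mul, mul_one]
    congr 2
    ext y'
    simp only [Finset.mem_filter, Finset.mem_univ, true_and, Finset.mem_insert,
      Finset.mem_singleton]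
    exact sq_eq_sq_iff_eq_or_eq_neg
  unfold sqPairs
  simp only [h1]
  rcases hp.out.eq_two_or_odd' with h2 | h2
  · subst h2
    have h3 : ∀ y : ZMod 2, (({y, -y} : Finset (ZMod 2)).card : ℝ) = 1 := by
      intro y
      have : (-y : ZMod 2) = y := ZMod.neg_eq_self_mod_two y
      rw [this]
      simp
    simp only [h3]
    rw [Finset.sum_const, Finset.card_univ, ZMod.card]
    norm_num
  · have h3 : ∀ y : ZMod p, (({y, -y} : Finset (ZMod p)).card : ℝ) =
        2 - if y = 0 then (1 : ℝ) else 0 := by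
      intro y
      split_ifs with hy
      · rw [hy]; norm_num
      · have hne : y ≠ -y := by
          intro h
          have h4 : (2 : ZMod p) * y = 0 := by linear_combination h
          rcases mul_eq_zero.1 h4 with h5 | h5
          · have h6 : p ∣ 2 := (ZMod.natCast_eq_zero_iff 2 p).1 (by exact_mod_cast h5)
            have h7 := Nat.le_of_dvd (by norm_num) h6
            have h8 := hp.out.two_le
            have h9 : p = 2 := by omega
            rw [h9] at h2
            exact absurd h2 (by decide)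
          · exact hy h5
        rw [Finset.card_pair hne]
        norm_num
    simp only [h3]
    rw [Finset.sum_sub_distrib, Finset.sum_const, Finset.card_univ, ZMod.card,
      Finset.sum_ite_eq' univ (0 : ZMod p), if_pos (Finset.mem_univ _), nsmul_eq_mul]
    rw [show (p : ℝ) * 2 - 1 - 2 * p = -1 by ring]
    norm_num

theorem sum_pts : ∑ v : ZMod p × ZMod p, affinePts p v.1 v.2 = (p : ℝ) ^ 3 := by
  classical
  simp only [affinePts_eq]
  rw [Fintype.sum_prod_type]
  have h1 : ∀ α : ZMod p, ∑ β : ZMod p, ∑ x : ZMod p, ∑ y : ZMod p,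
      (if y ^ 2 = x ^ 3 + α * x + β then (1 : ℝ) else 0) = (p : ℝ) ^ 2 := by
    intro α
    rw [Finset.sum_comm]
    have h2 : ∀ x : ZMod p, ∑ β : ZMod p, ∑ y : ZMod p,
        (if y ^ 2 = x ^ 3 + α * x + β then (1 : ℝ) else 0) = p := by
      intro x
      rw [Finset.sum_comm]
      have h3 : ∀ y : ZMod p, ∑ β : ZMod p,
          (if y ^ 2 = x ^ 3 + α * x + β then (1 : ℝ) else 0) = 1 := by
        intro y
        rw [Finset.sum_eq_single (y ^ 2 - (x ^ 3 + α * x))]
        · rw [if_pos (by ring)]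
        · intro β _ hβ
          rw [if_neg]
          intro h
          apply hβ
          rw [h]; ring
        · intro h
          exact absurd (Finset.mem_univ _) h
      simp only [h3, Finset.sum_const, Finset.card_univ, ZMod.card, nsmul_eq_mul, mul_one]
    simp only [h2, Finset.sum_const, Finset.card_univ, ZMod.card, nsmul_eq_mul]
    ring
  simp only [h1, Finset.sum_const, Finset.card_univ, ZMod.card, nsmul_eq_mul]
  ring

theorem sum_pts_sq : ∑ v : ZMod p × ZMod p, affinePts p v.1 v.2 ^ 2 =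
    (p : ℝ) ^ 4 - (p : ℝ) ^ 3 + (p : ℝ) ^ 2 * sqPairs p := by
  classical
  have hsq : ∀ v : ZMod p × ZMod p, affinePts p v.1 v.2 ^ 2 =
      ∑ x : ZMod p, ∑ x' : ZMod p, ∑ y : ZMod p, ∑ y' : ZMod p,
        (if y ^ 2 = x ^ 3 + v.1 * x + v.2 then (1 : ℝ) else 0) *
        (if y' ^ 2 = x' ^ 3 + v.1 * x' + v.2 then (1 : ℝ) else 0) := by
    intro v
    rw [affinePts_eq, pow_two, Finset.sum_mul_sum]
    refine Finset.sum_congr rfl fun x _ => Finset.sum_congr rfl fun x' _ => ?_
    rw [Finset.sum_mul_sum]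
  simp only [hsq]
  rw [Finset.sum_comm]
  have h1 : ∀ x : ZMod p, ∑ v : ZMod p × ZMod p, ∑ x' : ZMod p, ∑ y : ZMod p, ∑ y' : ZMod p,
        (if y ^ 2 = x ^ 3 + v.1 * x + v.2 then (1 : ℝ) else 0) *
        (if y' ^ 2 = x' ^ 3 + v.1 * x' + v.2 then (1 : ℝ) else 0) =
      (p : ℝ) ^ 3 - (p : ℝ) ^ 2 + p * sqPairs p := by
    intro x
    rw [Finset.sum_comm]
    have h2 : ∀ x' : ZMod p, ∑ v : ZMod p × ZMod p, ∑ y : ZMod p, ∑ y' : ZMod p,
        (if y ^ 2 = x ^ 3 + v.1 * x + v.2 then (1 : ℝ) else 0) *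
        (if y' ^ 2 = x' ^ 3 + v.1 * x' + v.2 then (1 : ℝ) else 0) =
        (p : ℝ) ^ 2 + if x' = x then p * sqPairs p - (p : ℝ) ^ 2 else 0 := by
      intro x'
      rw [Finset.sum_comm]
      by_cases hx : x' = x
      · rw [if_pos hx, hx]
        have h3 : ∀ y : ZMod p, ∑ v : ZMod p × ZMod p, ∑ y' : ZMod p,
            (if y ^ 2 = x ^ 3 + v.1 * x + v.2 then (1 : ℝ) else 0) *
            (if y' ^ 2 = x ^ 3 + v.1 * x + v.2 then (1 : ℝ) else 0) =
            p * ∑ y' : ZMod p, if y' ^ 2 = y ^ 2 then (1 : ℝ) else 0 := by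
          intro y
          rw [Fintype.sum_prod_type]
          have h4 : ∀ α : ZMod p, ∑ β : ZMod p, ∑ y' : ZMod p,
              (if y ^ 2 = x ^ 3 + α * x + β then (1 : ℝ) else 0) *
              (if y' ^ 2 = x ^ 3 + α * x + β then (1 : ℝ) else 0) =
              ∑ y' : ZMod p, if y' ^ 2 = y ^ 2 then (1 : ℝ) else 0 := by
            intro α
            rw [Finset.sum_eq_single (y ^ 2 - (x ^ 3 + α * x))]
            · refine Finset.sum_congr rfl fun y' _ => ?_
              rw [if_pos (by ring), one_mul]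
              have : x ^ 3 + α * x + (y ^ 2 - (x ^ 3 + α * x)) = y ^ 2 := by ring
              rw [this]
            · intro β _ hβ
              refine Finset.sum_eq_zero fun y' _ => ?_
              rw [if_neg, zero_mul]
              intro h
              apply hβ
              rw [h]; ring
            · intro h
              exact absurd (Finset.mem_univ _) h
          simp only [h4, Finset.sum_const, Finset.card_univ, ZMod.card, nsmul_eq_mul]
        simp only [h3]
        rw [← Finset.mul_sum]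
        unfold sqPairs
        ring
      · rw [if_neg hx, add_zero]
        have h3 : ∀ y : ZMod p, ∑ v : ZMod p × ZMod p, ∑ y' : ZMod p,
            (if y ^ 2 = x ^ 3 + v.1 * x + v.2 then (1 : ℝ) else 0) *
            (if y' ^ 2 = x' ^ 3 + v.1 * x' + v.2 then (1 : ℝ) else 0) = p := by
          intro y
          rw [Finset.sum_comm]
          have h4 : ∀ y' : ZMod p, ∑ v : ZMod p × ZMod p,
              (if y ^ 2 = x ^ 3 + v.1 * x + v.2 then (1 : ℝ) else 0) *
              (if y' ^ 2 = x' ^ 3 + v.1 * x' + v.2 then (1 : ℝ) else 0) = 1 := by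
            intro y'
            have hxx : x - x' ≠ 0 := sub_ne_zero.2 (Ne.symm hx)
            set α0 : ZMod p := ((y ^ 2 - x ^ 3) - (y' ^ 2 - x' ^ 3)) * (x - x')⁻¹ with hα0
            have hα : α0 * (x - x') = (y ^ 2 - x ^ 3) - (y' ^ 2 - x' ^ 3) := by
              rw [hα0, mul_assoc, inv_mul_cancel₀ hxx, mul_one]
            rw [Finset.sum_eq_single (α0, y ^ 2 - x ^ 3 - α0 * x)]
            · rw [if_pos (by ring), if_pos (by linear_combination hα), one_mul]
            · rintro ⟨α, β⟩ _ hne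
              by_cases ha : y ^ 2 = x ^ 3 + α * x + β
              · rw [if_pos ha, one_mul, if_neg]
                intro hb
                apply hne
                have h5 : (α - α0) * (x - x') = 0 := by linear_combination -ha + hb - hα
                rcases mul_eq_zero.1 h5 with h6 | h6
                · have h7 : α = α0 := sub_eq_zero.1 h6
                  rw [Prod.mk.injEq]
                  refine ⟨h7, ?_⟩
                  rw [← h7]
                  linear_combination -ha
                · exact absurd h6 hxx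
              · rw [if_neg ha, zero_mul]
            · intro h
              exact absurd (Finset.mem_univ _) h
          simp only [h4, Finset.sum_const, Finset.card_univ, ZMod.card, nsmul_eq_mul, mul_one]
        simp only [h3, Finset.sum_const, Finset.card_univ, ZMod.card, nsmul_eq_mul]
        ring
    simp only [h2]
    rw [Finset.sum_add_distrib, Finset.sum_const, Finset.card_univ, ZMod.card,
      Finset.sum_ite_eq' univ x, if_pos (Finset.mem_univ _), nsmul_eq_mul]
    ring
  simp only [h1, Finset.sum_const, Finset.card_univ, ZMod.card, nsmul_eq_mul]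
  ring

theorem tr1_sum : ∑ v : ZMod p × ZMod p, tr1 p v = 0 := by
  have hp0 : (0 : ℝ) < p := p_pos'
  unfold tr1
  rw [← Finset.sum_div, Finset.sum_sub_distrib, sum_pts, Finset.sum_const, Finset.card_univ,
    Fintype.card_prod, ZMod.card, nsmul_eq_mul]
  push_cast
  rw [show (p : ℝ) * p * p - (p : ℝ) ^ 3 = 0 by ring, zero_div]

theorem tr1_sq : (∑ v : ZMod p × ZMod p, tr1 p v ^ 2) / (p : ℝ) ^ 2 =
    (sqPairs p - p) / (p : ℝ) ^ 2 := by
  have hp0 : (0 : ℝ) < p := p_pos'
  have h1 : ∀ v : ZMod p × ZMod p, tr1 p v ^ 2 = ((p : ℝ) ^ 2 - 2 * p * affinePts p v.1 v.2 +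
      affinePts p v.1 v.2 ^ 2) / (p : ℝ) ^ 2 := by
    intro v
    unfold tr1
    rw [div_pow]
    congr 1
    ring
  simp only [h1]
  rw [← Finset.sum_div, Finset.sum_add_distrib, Finset.sum_sub_distrib, ← Finset.mul_sum,
    sum_pts, sum_pts_sq, Finset.sum_const, Finset.card_univ, Fintype.card_prod, ZMod.card,
    nsmul_eq_mul]
  push_cast
  field_simp
  ring

theorem affinePts_bd (α β : ZMod p) : 0 ≤ affinePts p α β ∧ affinePts p α β ≤ 2 * p := by
  classical
  constructor
  · unfold affinePts; positivity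
  · rw [affinePts_eq]
    have h1 : ∀ x : ZMod p, ∑ y : ZMod p, (if y ^ 2 = x ^ 3 + α * x + β then (1 : ℝ) else 0) ≤
        2 := by
      intro x
      by_cases h : ∃ y0 : ZMod p, y0 ^ 2 = x ^ 3 + α * x + β
      · obtain ⟨y0, hy0⟩ := h
        rw [Finset.sum_ite, Finset.sum_const_zero, add_zero, Finset.sum_const, nsmul_eq_mul,
          mul_one]
        have h2 : (univ.filter fun y : ZMod p => y ^ 2 = x ^ 3 + α * x + β) ⊆ {y0, -y0} := by
          intro y hy
          rw [Finset.mem_filter] at hy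
          rw [Finset.mem_insert, Finset.mem_singleton]
          have h3 := hy.2
          rw [← hy0] at h3
          exact sq_eq_sq_iff_eq_or_eq_neg.1 h3
        have h3 := (Finset.card_le_card h2).trans Finset.card_le_two
        exact_mod_cast h3
      · push Not at h
        rw [Finset.sum_eq_zero fun y _ => if_neg (h y)]
        norm_num
    calc _ ≤ ∑ _x : ZMod p, (2 : ℝ) := Finset.sum_le_sum fun x _ => h1 x
      _ = 2 * p := by rw [Finset.sum_const, Finset.card_univ, ZMod.card, nsmul_eq_mul]; ring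

theorem tr1_abs (v : ZMod p × ZMod p) : |tr1 p v| ≤ 1 := by
  have hp0 : (0 : ℝ) < p := p_pos'
  obtain ⟨h1, h2⟩ := affinePts_bd v.1 v.2
  unfold tr1
  rw [abs_div, abs_of_pos hp0, div_le_one hp0, abs_le]
  constructor <;> linarith

theorem adm_tr1 : Adm (fun k => (∑ v : ZMod p × ZMod p, tr1 p v ^ k) / (p : ℝ) ^ 2)
    ((sqPairs p - p) / (p : ℝ) ^ 2) := by
  have hp0 : (0 : ℝ) < p := p_pos'
  have hp2 : (0 : ℝ) < (p : ℝ) ^ 2 := by positivity
  refine ⟨?_, ?_, tr1_sq, fun k hk => ?_, ?_, ?_⟩
  · simp only [pow_zero, Finset.sum_const, Finset.card_univ, Fintype.card_prod, ZMod.card,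
      nsmul_eq_mul, mul_one, Nat.cast_mul]
    field_simp
  · simp only [pow_one]
    rw [tr1_sum, zero_div]
  · rw [← tr1_sq, abs_div, abs_of_pos hp2]
    refine div_le_div_of_nonneg_right ?_ hp2.le
    refine (Finset.abs_sum_le_sum_abs _ _).trans (Finset.sum_le_sum fun v _ => ?_)
    rw [abs_pow, ← sq_abs (tr1 p v)]
    exact pow_le_pow_of_le_one (abs_nonneg _) (tr1_abs v) hk
  · rw [← tr1_sq]
    have : 0 ≤ ∑ v : ZMod p × ZMod p, tr1 p v ^ 2 := Finset.sum_nonneg fun v _ => sq_nonneg _
    positivity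
  · rw [← tr1_sq, div_le_one hp2]
    calc ∑ v : ZMod p × ZMod p, tr1 p v ^ 2 ≤ ∑ _v : ZMod p × ZMod p, (1 : ℝ) :=
          Finset.sum_le_sum fun v _ => by
            rw [← sq_abs]
            exact pow_le_one₀ (abs_nonneg _) (tr1_abs v)
      _ = (p : ℝ) ^ 2 := by
          rw [Finset.sum_const, Finset.card_univ, Fintype.card_prod, ZMod.card, nsmul_eq_mul]
          push_cast
          ring

end

end Pool.Agent.X280.HP
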