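import Pool.Agent.X280.HP.Wei
import Pool.Agent.X280.HG.LogW

/-!
# Pencils of Weierstrass cubics: the normal law of the averages of Nagao's conjecture
-/

set_option autoImplicit false
set_option linter.unusedSectionVars false

namespace Pool.Agent.X280.HP

open Finset hiding val
open Filter Topology Polynomial Pool.Agent.Y722.HS Pool.Agent.X280.BP Pool.Agent.X280.UC
  Pool.Agent.X280.HG MeasureTheory ProbabilityTheory

/-- The values at `t` of two polynomials. -/
def evW {p : ℕ} (a b : ℕ) (t : ZMod p) (c : Fin (a + 1) ⊕ Fin (b + 1) → ZMod p) :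
    ZMod p × ZMod p :=
  (∑ i : Fin (a + 1), c (Sum.inl i) * t ^ (i : ℕ), ∑ j : Fin (b + 1), c (Sum.inr j) * t ^ (j : ℕ))

section
variable {p : ℕ} [hp : Fact p.Prime]

/-- The interpolation polynomial. -/
theorem interp (m : ℕ) (x : ZMod p) (t : Fin m → ZMod p) (h : ∀ i, t i ≠ x) :
    ∃ L : (ZMod p)[X], L.natDegree ≤ m ∧ L.eval x = 1 ∧ ∀ i, L.eval (t i) = 0 := by
  refine ⟨∏ i : Fin m, (C (x - t i)⁻¹ * (X - C (t i))), ?_, ?_, fun i => ?_⟩
  · have h1 : ∀ i : Fin m, (C (x - t i)⁻¹ * (X - C (t i)) : (ZMod p)[X]).natDegree ≤ 1 := fun i =>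
      (natDegree_C_mul_le _ _).trans (natDegree_X_sub_C_le (t i))
    have h2 : (∏ i : Fin m, (C (x - t i)⁻¹ * (X - C (t i)) : (ZMod p)[X])).natDegree ≤
        ∑ i : Fin m, (C (x - t i)⁻¹ * (X - C (t i)) : (ZMod p)[X]).natDegree :=
      natDegree_prod_le _ _
    have h3 : ∑ i : Fin m, (C (x - t i)⁻¹ * (X - C (t i)) : (ZMod p)[X]).natDegree ≤
        ∑ _i : Fin m, (1 : ℕ) := Finset.sum_le_sum fun i _ => h1 i
    have h4 : ∑ _i : Fin m, (1 : ℕ) = m := by simp
    exact h2.trans (h3.trans h4.le)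
  · rw [eval_prod]
    refine Finset.prod_eq_one fun i _ => ?_
    rw [eval_mul, eval_C, eval_sub, eval_X, eval_C]
    exact inv_mul_cancel₀ (sub_ne_zero.2 (h i).symm)
  · rw [eval_prod]
    refine Finset.prod_eq_zero (Finset.mem_univ i) ?_
    rw [eval_mul, eval_sub, eval_X, eval_C, eval_C, sub_self, mul_zero]

theorem eval_fin (L : (ZMod p)[X]) (n : ℕ) (h : L.natDegree ≤ n) (y : ZMod p) :
    ∑ i : Fin (n + 1), L.coeff i * y ^ (i : ℕ) = L.eval y := by
  rw [Fin.sum_univ_eq_sum_range (fun i => L.coeff i * y ^ i) (n + 1),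
    eval_eq_sum_range' (Nat.lt_succ_of_le h)]

theorem ev2_evW (a b : ℕ) (ha : 3 ≤ a) (hb : 3 ≤ b) :
    Ev2 (evW (p := p) a b) 3 := by
  refine ⟨fun v c t u => ?_, fun m hm x t h => ?_⟩
  · unfold evW
    ext
    · simp only [Pi.add_apply, Pi.smul_apply, smul_eq_mul, Prod.fst_add, Prod.smul_fst,
        Finset.mul_sum]
      rw [← Finset.sum_add_distrib]
      refine Finset.sum_congr rfl fun i _ => ?_
      ring
    · simp only [Pi.add_apply, Pi.smul_apply, smul_eq_mul, Prod.snd_add, Prod.smul_snd,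
        Finset.mul_sum]
      rw [← Finset.sum_add_distrib]
      refine Finset.sum_congr rfl fun i _ => ?_
      ring
  · obtain ⟨L, hL, hx, ht⟩ := interp m x t h
    refine ⟨Sum.elim (fun i => L.coeff i) (fun _ => 0), Sum.elim (fun _ => 0) (fun j => L.coeff j),
      ?_, ?_, fun i => ⟨?_, ?_⟩⟩
    · unfold evW
      simp only [Sum.elim_inl, Sum.elim_inr, zero_mul, Finset.sum_const_zero]
      rw [eval_fin L a (by omega), hx]
    · unfold evW
      simp only [Sum.elim_inl, Sum.elim_inr, zero_mul, Finset.sum_const_zero]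
      rw [eval_fin L b (by omega), hx]
    · unfold evW
      simp only [Sum.elim_inl, Sum.elim_inr, zero_mul, Finset.sum_const_zero]
      rw [eval_fin L a (by omega), ht]
      rfl
    · unfold evW
      simp only [Sum.elim_inl, Sum.elim_inr, zero_mul, Finset.sum_const_zero]
      rw [eval_fin L b (by omega), ht]
      rfl

theorem sum_range_cast (f : ZMod p → ℝ) : ∑ t ∈ range p, f (t : ZMod p) = ∑ x : ZMod p, f x := by
  refine Finset.sum_nbij' (fun t : ℕ => (t : ZMod p)) (fun x => x.val) ?_ ?_ ?_ ?_ ?_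
  · intro t _
    exact Finset.mem_univ _
  · intro x _
    exact Finset.mem_range.2 (ZMod.val_lt x)
  · intro t ht
    exact ZMod.val_cast_of_lt (Finset.mem_range.1 ht)
  · intro x _
    exact ZMod.natCast_zmod_val x
  · intro t _
    rfl

end

/-- The fibral average of the reductions. -/
noncomputable def favg (a b p : ℕ) (c : Fin (a + 1) ⊕ Fin (b + 1) → ZMod p) : ℝ :=
  (∑ t ∈ range p, ((p : ℝ) - affinePts p (evW a b (t : ZMod p) c).1
    (evW a b (t : ZMod p) c).2)) / p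

theorem favg_eq {a b p : ℕ} [hp : Fact p.Prime] (c : Fin (a + 1) ⊕ Fin (b + 1) → ZMod p) :
    favg a b p c = SV2 (evW a b) (tr1 p) univ c := by
  unfold favg SV2
  rw [sum_range_cast (fun x => (p : ℝ) - affinePts p (evW a b x c).1 (evW a b x c).2),
    Finset.sum_div]
  rfl

/-- The local data of the fibral averages. -/
theorem ld_favg (a b : ℕ) (ha : 3 ≤ a) (hb : 3 ≤ b) :
    ∃ C : ℝ, LD (fun p (c : Fin (a + 1) ⊕ Fin (b + 1) → ZMod p) => favg a b p c) 0 1 C := by
  obtain ⟨C4, h40, h4⟩ := exists_asy 4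
  have hg4 : 0 ≤ |gm 4| := abs_nonneg _
  refine ⟨2 + 4 * (C4 + |gm 4|), by positivity, fun p hp _ => ?_, fun p hp _ => ?_,
    fun p hp _ => ?_⟩
  · have : Fact p.Prime := ⟨hp⟩
    have hp0 : (0 : ℝ) < p := p_pos'
    have e1 : (fun c : Fin (a + 1) ⊕ Fin (b + 1) → ZMod p => favg a b p c) = fun c =>
        SV2 (evW a b) (tr1 p) univ c ^ 1 := by
      funext c
      rw [favg_eq, pow_one]
    rw [e1, EM_SV2 (ev2_evW a b ha hb) univ 1 (by omega), (ME_one adm_tr1 _).2, sub_zero, abs_zero]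
    positivity
  · have : Fact p.Prime := ⟨hp⟩
    have hp0 : (0 : ℝ) < p := p_pos'
    simp only [favg_eq]
    rw [EM_SV2 (ev2_evW a b ha hb) univ 2 (by omega), ME_two adm_tr1, Finset.card_univ, ZMod.card]
    have e1 : (p : ℝ) * ((sqPairs p - p) / (p : ℝ) ^ 2) - 1 = (sqPairs p - 2 * p) / p := by
      field_simp
      ring
    rw [e1, abs_div, abs_of_pos hp0]
    have h1 := sqPairs_near (p := p)
    gcongr
    linarith [mul_nonneg (by norm_num : (0 : ℝ) ≤ 4) (add_nonneg h40 hg4)]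
  · have : Fact p.Prime := ⟨hp⟩
    have hp0 : (0 : ℝ) < p := p_pos'
    have hp2 : (2 : ℝ) ≤ p := by exact_mod_cast hp.two_le
    simp only [favg_eq]
    rw [EM_SV2 (ev2_evW a b ha hb) univ 4 (by omega), Finset.card_univ, ZMod.card]
    have hR : (p : ℝ) * ((sqPairs p - p) / (p : ℝ) ^ 2) ≤ 2 := by
      have e1 : (p : ℝ) * ((sqPairs p - p) / (p : ℝ) ^ 2) = (sqPairs p - p) / p := by
        field_simp
      rw [e1, div_le_iff₀ hp0]
      have h1 := (abs_le.1 (sqPairs_near (p := p))).2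
      linarith
    have h5 := h4.bound adm_tr1 (n := p) (by norm_num : (1 : ℝ) ≤ 2) hR
    rw [show 4 / 2 = 2 by rfl] at h5
    have h6 := (le_abs_self _).trans h5
    linarith

/-! ### The law -/

/-- The polynomial with the coefficients `v 0, …, v n`. -/
noncomputable def polyOf {n : ℕ} (v : Fin (n + 1) → ℤ) : ℤ[X] := ∑ i, C (v i) * X ^ (i : ℕ)

/-- The Frobenius trace of the reduction modulo `p` of the fibre at `t` of `y² = x³ + A x + B`: the number
`p` minus the number of the affine points. -/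
noncomputable def frobTrace (A B : ℤ[X]) (p t : ℕ) : ℝ :=
  p - affinePts p ((A.eval (t : ℤ) : ℤ) : ZMod p) ((B.eval (t : ℤ) : ℤ) : ZMod p)

/-- The fibral average. -/
noncomputable def fibralAverage (A B : ℤ[X]) (p : ℕ) : ℝ :=
  (∑ t ∈ range p, frobTrace A B p t) / p

/-- The average of Nagao's conjecture. -/
noncomputable def nagaoMean (A B : ℤ[X]) (T : ℕ) : ℝ :=
  (∑ p ∈ primesUpTo T, Real.log p * fibralAverage A B p) / T

theorem eval_polyOf {n : ℕ} (v : Fin (n + 1) → ℤ) (p t : ℕ) :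
    (((polyOf v).eval (t : ℤ) : ℤ) : ZMod p) =
      ∑ i : Fin (n + 1), (v i : ZMod p) * (t : ZMod p) ^ (i : ℕ) := by
  unfold polyOf
  rw [eval_finsetSum]
  push_cast
  refine Finset.sum_congr rfl fun i _ => ?_
  rw [eval_mul, eval_C, eval_pow, eval_X]
  push_cast
  rfl

theorem fibralAverage_eq {a b : ℕ} (c : Fin (a + 1) ⊕ Fin (b + 1) → ℤ) (p : ℕ) :
    fibralAverage (polyOf fun i => c (Sum.inl i)) (polyOf fun j => c (Sum.inr j)) p =
      favg a b p (red p c) := by
  unfold fibralAverage favg frobTrace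
  simp only [eval_polyOf]
  rfl

/-- **The normal law** with arbitrary sets of primes and weights. -/
theorem law_wei (a b : ℕ) (ha : 3 ≤ a) (hb : 3 ≤ b) (δ : ℝ) (hδ : 0 < δ) (u ε : ℝ) (hε : 0 < ε) :
    ∃ K : ℕ, ∀ (P : Finset ℕ) (w : ℕ → ℝ) (y H : ℕ), (∀ p ∈ P, p.Prime ∧ p ≤ y) →
      (∀ p ∈ P, |w p| ≤ 1) → δ * P.card ≤ ∑ p ∈ P, w p ^ 2 → K ≤ P.card → y ^ K ≤ H →
      |({c : Fin (a + 1) ⊕ Fin (b + 1) → ℤ | (∀ q, |c q| ≤ H) ∧
        ∑ p ∈ P, w p * fibralAverage (polyOf fun i => c (Sum.inl i))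
          (polyOf fun j => c (Sum.inr j)) p ≤ u * √(∑ p ∈ P, w p ^ 2)}.ncard : ℝ) /
        (2 * H + 1 : ℝ) ^ (a + b + 2) - (gaussianReal 0 1).real (Set.Iic u)| ≤ ε := by
  classical
  obtain ⟨C, hC⟩ := ld_favg a b ha hb
  obtain ⟨K, hK⟩ := abs_law hC (by norm_num : (0 : ℝ) < 1 - 0 ^ 2) hδ u hε
  have hcd : Fintype.card (Fin (a + 1) ⊕ Fin (b + 1)) = a + b + 2 := by
    rw [Fintype.card_sum, Fintype.card_fin, Fintype.card_fin]
    ring
  refine ⟨max K 1, fun P w y H hP hw hvar hcard hH => ?_⟩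
  have hc1 : 1 ≤ P.card := (le_max_right _ _).trans hcard
  have hy1 : 1 ≤ y := by
    obtain ⟨p, hp⟩ : P.Nonempty := by rw [← Finset.card_pos]; omega
    have h1 := (hP p hp).2
    have h2 := (hP p hp).1.pos
    omega
  have hfin := hK P w y H hP hw hvar ((le_max_left _ _).trans hcard)
    ((Nat.pow_le_pow_right hy1 (le_max_left _ _)).trans hH)
  have hW0 : 0 < ∑ p ∈ P, w p ^ 2 := by
    have : (1 : ℝ) ≤ P.card := by exact_mod_cast hc1
    have h2 : 0 < δ * P.card := by positivity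
    linarith
  have hs0 : 0 < √(∑ p ∈ P, w p ^ 2) := Real.sqrt_pos.2 hW0
  rw [show ((1 : ℝ) - 0 ^ 2) = 1 by ring, one_mul] at hfin
  rw [measureReal_def, law_apply H _ _ measurableSet_Iic,
    ENNReal.toReal_ofReal (by positivity), hcd] at hfin
  rw [ncard_box]
  have e : ((Pool.Agent.Y722.HS.box (Fin (a + 1) ⊕ Fin (b + 1)) H).filter (fun c =>
      ∑ p ∈ P, w p * fibralAverage (polyOf fun i => c (Sum.inl i))
          (polyOf fun j => c (Sum.inr j)) p ≤ u * √(∑ p ∈ P, w p ^ 2))) =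
      (Pool.Agent.Y722.HS.box (Fin (a + 1) ⊕ Fin (b + 1)) H).filter (fun c =>
        (∑ p ∈ P, w p * (favg a b p (red p c) - 0)) / √(∑ p ∈ P, w p ^ 2) ∈ Set.Iic u) := by
    apply Finset.filter_congr
    intro c _
    rw [Set.mem_Iic, div_le_iff₀ hs0]
    have e2 : ∑ p ∈ P, w p * fibralAverage (polyOf fun i => c (Sum.inl i))
          (polyOf fun j => c (Sum.inr j)) p = ∑ p ∈ P, w p * (favg a b p (red p c) - 0) := by
      refine Finset.sum_congr rfl fun p _ => ?_
      rw [fibralAverage_eq, sub_zero]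
    rw [e2]
  rw [e]
  exact hfin

/-- **The normal law of the averages of Nagao's conjecture.** -/
theorem law_nagaoMean (a b : ℕ) (ha : 3 ≤ a) (hb : 3 ≤ b) (u ε : ℝ) (hε : 0 < ε) :
    ∃ K : ℕ, ∀ T H : ℕ, K ≤ T → T ^ K ≤ H →
      |({c : Fin (a + 1) ⊕ Fin (b + 1) → ℤ | (∀ q, |c q| ≤ H) ∧
        nagaoMean (polyOf fun i => c (Sum.inl i)) (polyOf fun j => c (Sum.inr j)) T ≤
        u * (√(∑ p ∈ primesUpTo T, Real.log p ^ 2) / T)}.ncard : ℝ) /
        (2 * H + 1 : ℝ) ^ (a + b + 2) - (gaussianReal 0 1).real (Set.Iic u)| ≤ ε := by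
  obtain ⟨K1, hK1⟩ := law_wei a b ha hb (1 / 8) (by norm_num) u ε hε
  obtain ⟨K2, hK2⟩ := eventually_atTop.1 (many_primes.and log_weights)
  refine ⟨max (max K1 K2) (K1 ^ 2 + 3), fun T H hT hH => ?_⟩
  have hT1 : K2 ≤ T := (le_max_right _ _).trans ((le_max_left _ _).trans hT)
  have hT2 : K1 ^ 2 + 3 ≤ T := (le_max_right _ _).trans hT
  have hT0 : (0 : ℝ) < T := by exact_mod_cast (by omega : 0 < T)
  obtain ⟨h1, h2⟩ := hK2 T hT1
  have hlog : 0 < Real.log T := Real.log_pos (by exact_mod_cast (by omega : 1 < T))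
  have hcard : K1 ≤ (primesUpTo T).card := by
    have h3 : (K1 : ℝ) ≤ √(T : ℝ) := by
      apply Real.le_sqrt_of_sq_le
      exact_mod_cast (by omega : K1 ^ 2 ≤ T)
    have h4 : 0 ≤ √(T : ℝ) := Real.sqrt_nonneg _
    have h5 : (K1 : ℝ) ≤ ((primesUpTo T).card : ℝ) := by linarith
    exact_mod_cast h5
  have hfin := hK1 (primesUpTo T) (fun p => Real.log p / Real.log T) T H
    (fun p hp => ((mem_primesUpTo.1 hp).symm)) (fun p hp => by
      have h3 := mem_primesUpTo.1 hp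
      have hp1 : (1 : ℝ) ≤ p := by exact_mod_cast h3.2.one_lt.le
      rw [abs_of_nonneg (div_nonneg (Real.log_nonneg hp1) hlog.le), div_le_one hlog]
      exact Real.log_le_log (by linarith) (by exact_mod_cast h3.1)) h2 hcard
    ((Nat.pow_le_pow_right (by omega) ((le_max_left _ _).trans (le_max_left _ _))).trans hH)
  have e : {c : Fin (a + 1) ⊕ Fin (b + 1) → ℤ | (∀ q, |c q| ≤ H) ∧
        nagaoMean (polyOf fun i => c (Sum.inl i)) (polyOf fun j => c (Sum.inr j)) T ≤
        u * (√(∑ p ∈ primesUpTo T, Real.log p ^ 2) / T)} =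
      {c : Fin (a + 1) ⊕ Fin (b + 1) → ℤ | (∀ q, |c q| ≤ H) ∧
        ∑ p ∈ primesUpTo T, Real.log p / Real.log T * fibralAverage (polyOf fun i => c (Sum.inl i))
          (polyOf fun j => c (Sum.inr j)) p ≤
          u * √(∑ p ∈ primesUpTo T, (Real.log p / Real.log T) ^ 2)} := by
    ext c
    simp only [Set.mem_ofPred_eq]
    refine and_congr_right fun _ => ?_
    obtain ⟨S, hS⟩ : ∃ S : ℝ, S = ∑ p ∈ primesUpTo T, Real.log p *
      fibralAverage (polyOf fun i => c (Sum.inl i)) (polyOf fun j => c (Sum.inr j)) p := ⟨_, rfl⟩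
    obtain ⟨σ, hσ⟩ : ∃ σ : ℝ, σ = √(∑ p ∈ primesUpTo T, Real.log p ^ 2) := ⟨_, rfl⟩
    have e2 : ∑ p ∈ primesUpTo T, Real.log p / Real.log T *
        fibralAverage (polyOf fun i => c (Sum.inl i)) (polyOf fun j => c (Sum.inr j)) p =
        S / Real.log T := by
      rw [hS, Finset.sum_div]
      refine Finset.sum_congr rfl fun p _ => ?_
      ring
    have e3 : √(∑ p ∈ primesUpTo T, (Real.log p / Real.log T) ^ 2) = σ / Real.log T := by
      have e4 : ∑ p ∈ primesUpTo T, (Real.log p / Real.log T) ^ 2 =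
          (∑ p ∈ primesUpTo T, Real.log p ^ 2) / Real.log T ^ 2 := by
        simp only [div_pow]
        rw [← Finset.sum_div]
      rw [e4, Real.sqrt_div' _ (sq_nonneg _), Real.sqrt_sq hlog.le, hσ]
    have e7 : nagaoMean (polyOf fun i => c (Sum.inl i)) (polyOf fun j => c (Sum.inr j)) T =
        S / T := by rw [hS]; rfl
    rw [e2, e3, e7, ← hσ]
    have e5 : u * (σ / Real.log T) = (u * σ) / Real.log T := by ring
    have e6 : u * (σ / T) = (u * σ) / T := by ring
    rw [e5, e6, div_le_div_iff_of_pos_right hlog, div_le_div_iff_of_pos_right hT0]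
  rw [e]
  exact hfin

end Pool.Agent.X280.HP
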