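import Pool.Agent.X280.HP.WeiLaw

/-!
# Pencils of Weierstrass cubics: the mean squares of the linear forms in the fibral averages
-/

set_option autoImplicit false
set_option linter.unusedSectionVars false

namespace Pool.Agent.X280.HP

open Finset hiding val
open Filter Topology Polynomial Pool.Agent.Y722.HS Pool.Agent.X280.BP Pool.Agent.X280.UC
  Pool.Agent.X280.HG

section
variable {p : ℕ} [hp : Fact p.Prime]

theorem sqPairs_eq : sqPairs p = if p = 2 then 2 else 2 * (p : ℝ) - 1 := by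
  classical
  have h1 : ∀ y : ZMod p, ∑ y' : ZMod p, (if y' ^ 2 = y ^ 2 then (1 : ℝ) else 0) =
      (({y, -y} : Finset (ZMod p)).card : ℝ) := by
    intro y
    rw [Finset.sum_ite, Finset.sum_const_zero, add_zero, Finset.sum_const, nsmul_eq_mul, mul_one]
    congr 2
    ext y'
    simp only [Finset.mem_filter, Finset.mem_univ, true_and, Finset.mem_insert,
      Finset.mem_singleton]
    exact sq_eq_sq_iff_eq_or_eq_neg
  unfold sqPairs
  simp only [h1]
  rcases hp.out.eq_two_or_odd' with h2 | h2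
  · subst h2
    have h3 : ∀ y : ZMod 2, (({y, -y} : Finset (ZMod 2)).card : ℝ) = 1 := by
      intro y
      have : (-y : ZMod 2) = y := ZMod.neg_eq_self_mod_two y
      rw [this]
      simp
    simp only [h3]
    rw [Finset.sum_const, Finset.card_univ, ZMod.card]
    norm_num
  · have h3 : ∀ y : ZMod p, (({y, -y} : Finset (ZMod p)).card : ℝ) =
        2 - if y = 0 then (1 : ℝ) else 0 := by
      intro y
      split_ifs with hy
      · rw [hy]; norm_num
      · have hne : y ≠ -y := by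
          intro h
          have h4 : (2 : ZMod p) * y = 0 := by linear_combination h
          rcases mul_eq_zero.1 h4 with h5 | h5
          · have h6 : p ∣ 2 := (ZMod.natCast_eq_zero_iff 2 p).1 (by exact_mod_cast h5)
            have h7 := Nat.le_of_dvd (by norm_num) h6
            have h8 := hp.out.two_le
            have h9 : p = 2 := by omega
            rw [h9] at h2
            exact absurd h2 (by decide)
          · exact hy h5
        rw [Finset.card_pair hne]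
        norm_num
    have h4 : p ≠ 2 := by
      intro h
      rw [h] at h2
      exact absurd h2 (by decide)
    simp only [h3]
    rw [Finset.sum_sub_distrib, Finset.sum_const, Finset.card_univ, ZMod.card,
      Finset.sum_ite_eq' univ (0 : ZMod p), if_pos (Finset.mem_univ _), nsmul_eq_mul, if_neg h4]
    ring

/-- The points are independent. -/
theorem ev2_evW' (a b d : ℕ) (ha : d ≤ a) (hb : d ≤ b) :
    Ev2 (evW (p := p) a b) d := by
  refine ⟨fun v c t u => ?_, fun m hm x t h => ?_⟩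
  · unfold evW
    ext
    · simp only [Pi.add_apply, Pi.smul_apply, smul_eq_mul, Prod.fst_add, Prod.smul_fst,
        Finset.mul_sum]
      rw [← Finset.sum_add_distrib]
      refine Finset.sum_congr rfl fun i _ => ?_
      ring
    · simp only [Pi.add_apply, Pi.smul_apply, smul_eq_mul, Prod.snd_add, Prod.smul_snd,
        Finset.mul_sum]
      rw [← Finset.sum_add_distrib]
      refine Finset.sum_congr rfl fun i _ => ?_
      ring
  · obtain ⟨L, hL, hx, ht⟩ := interp m x t h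
    refine ⟨Sum.elim (fun i => L.coeff i) (fun _ => 0), Sum.elim (fun _ => 0) (fun j => L.coeff j),
      ?_, ?_, fun i => ⟨?_, ?_⟩⟩
    · unfold evW
      simp only [Sum.elim_inl, Sum.elim_inr, zero_mul, Finset.sum_const_zero]
      rw [eval_fin L a (by omega), hx]
    · unfold evW
      simp only [Sum.elim_inl, Sum.elim_inr, zero_mul, Finset.sum_const_zero]
      rw [eval_fin L b (by omega), hx]
    · unfold evW
      simp only [Sum.elim_inl, Sum.elim_inr, zero_mul, Finset.sum_const_zero]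
      rw [eval_fin L a (by omega), ht]
      rfl
    · unfold evW
      simp only [Sum.elim_inl, Sum.elim_inr, zero_mul, Finset.sum_const_zero]
      rw [eval_fin L b (by omega), ht]
      rfl

end

/-- The variance of the fibral average. -/
noncomputable def vr (p : ℕ) : ℝ := if p = 2 then 0 else 1 - 1 / p

theorem vr_bd {p : ℕ} (hp : p.Prime) : 0 ≤ vr p ∧ vr p ≤ 1 := by
  have hp0 : (0 : ℝ) < p := by exact_mod_cast hp.pos
  have hp1 : (1 : ℝ) ≤ p := by exact_mod_cast hp.one_lt.le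
  unfold vr
  have h1 : 1 / (p : ℝ) ≤ 1 := by rw [div_le_one hp0]; exact hp1
  have h2 : 0 ≤ 1 / (p : ℝ) := by positivity
  split_ifs
  · constructor <;> norm_num
  · constructor <;> linarith

section
variable {a b : ℕ}

theorem EM_favg (ha : 1 ≤ a) (hb : 1 ≤ b) {p : ℕ} (hp : p.Prime) [NeZero p] :
    EM p (fun c : Fin (a + 1) ⊕ Fin (b + 1) → ZMod p => favg a b p c) = 0 ∧
    EM p (fun c : Fin (a + 1) ⊕ Fin (b + 1) → ZMod p => favg a b p c ^ 2) = vr p := by
  have : Fact p.Prime := ⟨hp⟩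
  have hp0 : (0 : ℝ) < p := p_pos'
  constructor
  · have e1 : (fun c : Fin (a + 1) ⊕ Fin (b + 1) → ZMod p => favg a b p c) = fun c =>
        SV2 (evW a b) (tr1 p) univ c ^ 1 := by
      funext c
      rw [favg_eq, pow_one]
    rw [e1, EM_SV2 (ev2_evW' a b 1 ha hb) univ 1 (by omega), (ME_one adm_tr1 _).2]
  · simp only [favg_eq]
    rw [EM_SV2 (ev2_evW' a b 1 ha hb) univ 2 (by omega), ME_two adm_tr1, Finset.card_univ,
      ZMod.card, sqPairs_eq]
    unfold vr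
    split_ifs with h
    · rw [h]; norm_num
    · field_simp
      ring

theorem EM_abs_favg (ha : 1 ≤ a) (hb : 1 ≤ b) {p : ℕ} (hp : p.Prime) [NeZero p] :
    EM p (fun c : Fin (a + 1) ⊕ Fin (b + 1) → ZMod p => |favg a b p c|) ≤ 1 := by
  obtain ⟨h1, h2⟩ := EM_favg ha hb hp
  have h3 := EM_monoV p (fun c : Fin (a + 1) ⊕ Fin (b + 1) → ZMod p => |favg a b p c|)
    (fun c => (1 / 2 : ℝ) * favg a b p c ^ 2 + 1 / 2) fun c => by
      have := sq_nonneg (|favg a b p c| - 1)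
      have h4 := sq_abs (favg a b p c)
      nlinarith
  rw [EM_add', EM_mul', EM_const', h2] at h3
  have h4 := (vr_bd hp).2
  linarith

/-- **The covariances.** -/
theorem cov (ha : 1 ≤ a) (hb : 1 ≤ b) {p q : ℕ} (hp : p.Prime) (hq : q.Prime) (H : ℕ)
    (hH : p * q ≤ 2 * H + 1) :
    |EB H (fun c : Fin (a + 1) ⊕ Fin (b + 1) → ℤ => favg a b p (red p c) * favg a b q (red q c)) -
      (if p = q then vr p else 0)| ≤ 2 ^ (a + b + 2) * ((p : ℝ) * q / (2 * H + 1)) := by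
  have hcd : Fintype.card (Fin (a + 1) ⊕ Fin (b + 1)) = a + b + 2 := by
    rw [Fintype.card_sum, Fintype.card_fin, Fintype.card_fin]
    ring
  have : NeZero p := ⟨hp.ne_zero⟩
  have : NeZero q := ⟨hq.ne_zero⟩
  have hp0 : (0 : ℝ) < p := by exact_mod_cast hp.pos
  have hp1 : (1 : ℝ) ≤ p := by exact_mod_cast hp.one_lt.le
  have hH0 : (0 : ℝ) < 2 * H + 1 := by positivity
  split_ifs with h
  · subst h
    have h1 : p ≤ 2 * H + 1 := (Nat.le_mul_self p).trans hH
    have h2 := EB_one_mod H p h1 (fun c : Fin (a + 1) ⊕ Fin (b + 1) → ZMod p =>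
      favg a b p c * favg a b p c)
    have e1 : (fun c : Fin (a + 1) ⊕ Fin (b + 1) → ZMod p => |favg a b p c * favg a b p c|) =
        fun c => favg a b p c ^ 2 := by
      funext c
      rw [abs_mul_self]; ring
    have e2 : (fun c : Fin (a + 1) ⊕ Fin (b + 1) → ZMod p => favg a b p c * favg a b p c) =
        fun c => favg a b p c ^ 2 := by
      funext c
      ring
    rw [e1, e2, (EM_favg ha hb hp).2, hcd] at h2
    refine h2.trans ?_
    have h3 := vr_bd hp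
    calc 2 ^ (a + b + 2) * ((p : ℝ) / (2 * H + 1)) * vr p ≤
        2 ^ (a + b + 2) * ((p : ℝ) / (2 * H + 1)) * 1 := by
          gcongr
          exact h3.2
      _ ≤ 2 ^ (a + b + 2) * ((p : ℝ) * p / (2 * H + 1)) := by
          rw [mul_one]
          gcongr
          nlinarith
  · have h2 := EB_two H p q ((Nat.coprime_primes hp hq).2 h) hH
      (fun c : Fin (a + 1) ⊕ Fin (b + 1) → ZMod p => favg a b p c)
      (fun c : Fin (a + 1) ⊕ Fin (b + 1) → ZMod q => favg a b q c)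
    rw [(EM_favg ha hb hp).1, zero_mul, hcd] at h2
    refine h2.trans ?_
    have h3 := EM_abs_favg ha hb hp
    have h4 := EM_abs_favg ha hb hq
    have h5 : 0 ≤ EM p (fun c : Fin (a + 1) ⊕ Fin (b + 1) → ZMod p => |favg a b p c|) := by
      unfold EM; positivity
    have h6 : 0 ≤ EM q (fun c : Fin (a + 1) ⊕ Fin (b + 1) → ZMod q => |favg a b q c|) := by
      unfold EM; positivity
    have h7 : EM p (fun c : Fin (a + 1) ⊕ Fin (b + 1) → ZMod p => |favg a b p c|) *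
        EM q (fun c : Fin (a + 1) ⊕ Fin (b + 1) → ZMod q => |favg a b q c|) ≤ 1 :=
      mul_le_one₀ h3 h6 h4
    calc _ ≤ 2 ^ (a + b + 2) * ((p : ℝ) * q / (2 * H + 1)) * 1 := by gcongr
      _ = _ := mul_one _

theorem norm_sq_sum (P : Finset ℕ) (z : ℕ → ℂ) (x : ℕ → ℝ) :
    ‖∑ p ∈ P, z p * (x p : ℂ)‖ ^ 2 =
      ∑ p ∈ P, ∑ q ∈ P, (z p * (starRingEnd ℂ) (z q)).re * (x p * x q) := by
  have h1 : ((‖∑ p ∈ P, z p * (x p : ℂ)‖ ^ 2 : ℝ) : ℂ) = (∑ p ∈ P, z p * (x p : ℂ)) *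
      (starRingEnd ℂ) (∑ p ∈ P, z p * (x p : ℂ)) := by
    rw [Complex.mul_conj']
    push_cast
    rfl
  have h2 : ‖∑ p ∈ P, z p * (x p : ℂ)‖ ^ 2 = ((∑ p ∈ P, z p * (x p : ℂ)) *
      (starRingEnd ℂ) (∑ p ∈ P, z p * (x p : ℂ))).re := by
    rw [← h1, Complex.ofReal_re]
  rw [h2, map_sum, Finset.sum_mul_sum, Complex.re_sum]
  refine Finset.sum_congr rfl fun p _ => ?_
  rw [Complex.re_sum]
  refine Finset.sum_congr rfl fun q _ => ?_
  rw [map_mul, Complex.conj_ofReal]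
  have e : z p * (x p : ℂ) * ((starRingEnd ℂ) (z q) * (x q : ℂ)) =
      z p * (starRingEnd ℂ) (z q) * ((x p * x q : ℝ) : ℂ) := by
    push_cast
    ring
  rw [e, Complex.re_mul_ofReal]

/-- **The mean squares.** -/
theorem mean_sq (ha : 1 ≤ a) (hb : 1 ≤ b) (P : Finset ℕ) (hP : ∀ p ∈ P, p.Prime) (z : ℕ → ℂ)
    (H : ℕ) (hH : ∀ p ∈ P, ∀ q ∈ P, p * q ≤ 2 * H + 1) :
    |EB H (fun c : Fin (a + 1) ⊕ Fin (b + 1) → ℤ =>
        ‖∑ p ∈ P, z p * (favg a b p (red p c) : ℂ)‖ ^ 2) - ∑ p ∈ P, ‖z p‖ ^ 2 * vr p| ≤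
      2 ^ (a + b + 2) * (∑ p ∈ P, ‖z p‖ * p) ^ 2 / (2 * H + 1) := by
  have hH0 : (0 : ℝ) < 2 * H + 1 := by positivity
  have e1 : EB H (fun c : Fin (a + 1) ⊕ Fin (b + 1) → ℤ =>
      ‖∑ p ∈ P, z p * (favg a b p (red p c) : ℂ)‖ ^ 2) =
      ∑ p ∈ P, ∑ q ∈ P, (z p * (starRingEnd ℂ) (z q)).re *
        EB H (fun c : Fin (a + 1) ⊕ Fin (b + 1) → ℤ =>
          favg a b p (red p c) * favg a b q (red q c)) := by
    have e2 : (fun c : Fin (a + 1) ⊕ Fin (b + 1) → ℤ =>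
        ‖∑ p ∈ P, z p * (favg a b p (red p c) : ℂ)‖ ^ 2) = fun c =>
        ∑ p ∈ P, ∑ q ∈ P, (z p * (starRingEnd ℂ) (z q)).re *
          (favg a b p (red p c) * favg a b q (red q c)) := by
      funext c
      exact norm_sq_sum P z fun p => favg a b p (red p c)
    rw [e2, EB_sum]
    refine Finset.sum_congr rfl fun p _ => ?_
    rw [EB_sum]
    refine Finset.sum_congr rfl fun q _ => ?_
    rw [EB_mul_left]
  have e3 : ∑ p ∈ P, ‖z p‖ ^ 2 * vr p = ∑ p ∈ P, ∑ q ∈ P, (z p * (starRingEnd ℂ) (z q)).re *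
      (if p = q then vr p else 0) := by
    refine Finset.sum_congr rfl fun p hp => ?_
    simp only [mul_ite, mul_zero]
    rw [Finset.sum_ite_eq P p, if_pos hp, Complex.mul_conj']
    norm_cast
  rw [e1, e3, ← Finset.sum_sub_distrib]
  simp only [← Finset.sum_sub_distrib, ← mul_sub]
  refine (Finset.abs_sum_le_sum_abs _ _).trans ?_
  have e4 : 2 ^ (a + b + 2) * (∑ p ∈ P, ‖z p‖ * p) ^ 2 / (2 * (H : ℝ) + 1) =
      ∑ p ∈ P, ∑ q ∈ P, (‖z p‖ * ‖z q‖) * (2 ^ (a + b + 2) * ((p : ℝ) * q / (2 * H + 1))) := by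
    rw [pow_two, Finset.sum_mul_sum, Finset.mul_sum, Finset.sum_div]
    refine Finset.sum_congr rfl fun p _ => ?_
    rw [Finset.mul_sum, Finset.sum_div]
    refine Finset.sum_congr rfl fun q _ => ?_
    ring
  rw [e4]
  refine Finset.sum_le_sum fun p hp => ?_
  refine (Finset.abs_sum_le_sum_abs _ _).trans (Finset.sum_le_sum fun q hq => ?_)
  rw [abs_mul]
  have h1 : |(z p * (starRingEnd ℂ) (z q)).re| ≤ ‖z p‖ * ‖z q‖ := by
    refine (Complex.abs_re_le_norm _).trans ?_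
    rw [norm_mul, Complex.norm_conj]
  exact mul_le_mul h1 (cov ha hb (hP p hp) (hP q hq) H (hH p hp q hq)) (abs_nonneg _)
    (by positivity)

end

/-! ### The Dirichlet series -/

/-- The partial sums of the Dirichlet series `∑_p A_p log p / p^s`. -/
noncomputable def dirPartial (A B : ℤ[X]) (T : ℕ) (s : ℂ) : ℂ :=
  ∑ p ∈ primesUpTo T, ((Real.log p : ℝ) : ℂ) / (p : ℂ) ^ s * (fibralAverage A B p : ℂ)

theorem norm_wt {p : ℕ} (hp : p.Prime) (s : ℂ) :
    ‖((Real.log p : ℝ) : ℂ) / (p : ℂ) ^ s‖ = Real.log p / (p : ℝ) ^ s.re := by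
  have hp1 : (1 : ℝ) ≤ p := by exact_mod_cast hp.one_lt.le
  rw [norm_div, Complex.norm_natCast_cpow_of_pos hp.pos, Complex.norm_real, Real.norm_eq_abs,
    abs_of_nonneg (Real.log_nonneg hp1)]

/-- **The boundedness of the mean squares of the partial sums.** -/
theorem dir_bounded {a b : ℕ} (ha : 1 ≤ a) (hb : 1 ≤ b) (σ : ℝ) (hσ : 1 / 2 < σ) :
    ∃ M : ℝ, ∀ s : ℂ, σ ≤ s.re → ∀ T H : ℕ, T ^ 4 ≤ H →
      EB H (fun c : Fin (a + 1) ⊕ Fin (b + 1) → ℤ =>
        ‖dirPartial (polyOf fun i => c (Sum.inl i)) (polyOf fun j => c (Sum.inr j)) T s‖ ^ 2) ≤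
      M := by
  obtain ⟨η, hη⟩ : ∃ η : ℝ, η = (2 * σ - 1) / 4 := ⟨_, rfl⟩
  have hη0 : 0 < η := by rw [hη]; linarith
  have hsum : Summable fun n : ℕ => 1 / (n : ℝ) ^ (σ + 1 / 2) :=
    Real.summable_one_div_nat_rpow.2 (by linarith)
  refine ⟨(1 / η ^ 2) * ∑' n : ℕ, 1 / (n : ℝ) ^ (σ + 1 / 2) + 2 ^ (a + b + 2) * 2,
    fun s hs T H hTH => ?_⟩
  have hH0 : (0 : ℝ) < 2 * H + 1 := by positivity
  have hle : ∀ p ∈ primesUpTo T, ∀ q ∈ primesUpTo T, p * q ≤ 2 * H + 1 := by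
    intro p hp q hq
    have h1 := mem_primesUpTo.1 hp
    have h2 := mem_primesUpTo.1 hq
    have hT1 : 1 ≤ T := h1.2.one_lt.le.trans h1.1
    calc p * q ≤ T * T := Nat.mul_le_mul h1.1 h2.1
      _ = T ^ 2 := by ring
      _ ≤ T ^ 4 := Nat.pow_le_pow_right hT1 (by norm_num)
      _ ≤ 2 * H + 1 := by omega
  have h1 := mean_sq ha hb (primesUpTo T) (fun p hp => (mem_primesUpTo.1 hp).2)
    (fun p => ((Real.log p : ℝ) : ℂ) / (p : ℂ) ^ s) H hle
  have e1 : (fun c : Fin (a + 1) ⊕ Fin (b + 1) → ℤ =>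
      ‖dirPartial (polyOf fun i => c (Sum.inl i)) (polyOf fun j => c (Sum.inr j)) T s‖ ^ 2) =
      fun c => ‖∑ p ∈ primesUpTo T, ((Real.log p : ℝ) : ℂ) / (p : ℂ) ^ s *
        (favg a b p (red p c) : ℂ)‖ ^ 2 := by
    funext c
    unfold dirPartial
    simp only [fibralAverage_eq]
  rw [e1]
  have h2 : ∑ p ∈ primesUpTo T, ‖((Real.log p : ℝ) : ℂ) / (p : ℂ) ^ s‖ ^ 2 * vr p ≤
      (1 / η ^ 2) * ∑' n : ℕ, 1 / (n : ℝ) ^ (σ + 1 / 2) := by
    have h3 : ∀ p ∈ primesUpTo T, ‖((Real.log p : ℝ) : ℂ) / (p : ℂ) ^ s‖ ^ 2 * vr p ≤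
        (1 / η ^ 2) * (1 / (p : ℝ) ^ (σ + 1 / 2)) := by
      intro p hp
      have hpp := (mem_primesUpTo.1 hp).2
      have hp0 : (0 : ℝ) < p := by exact_mod_cast hpp.pos
      have hp1 : (1 : ℝ) ≤ p := by exact_mod_cast hpp.one_lt.le
      rw [norm_wt hpp]
      have h4 : Real.log p / (p : ℝ) ^ s.re ≤ Real.log p / (p : ℝ) ^ σ :=
        div_le_div_of_nonneg_left (Real.log_nonneg hp1) (by positivity)
          (Real.rpow_le_rpow_of_exponent_le hp1 hs)
      have h5 : Real.log p ≤ (p : ℝ) ^ η / η := Real.log_le_rpow_div hp0.le hη0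
      have h6 : Real.log p / (p : ℝ) ^ s.re ≤ (p : ℝ) ^ η / η / (p : ℝ) ^ σ :=
        h4.trans (by gcongr)
      have h7 : 0 ≤ Real.log p / (p : ℝ) ^ s.re := div_nonneg (Real.log_nonneg hp1) (by positivity)
      have h8 := vr_bd hpp
      calc (Real.log p / (p : ℝ) ^ s.re) ^ 2 * vr p ≤ ((p : ℝ) ^ η / η / (p : ℝ) ^ σ) ^ 2 * 1 := by
            gcongr
            all_goals first | exact h8.1 | exact h8.2
        _ = (1 / η ^ 2) * (((p : ℝ) ^ η) ^ 2 / ((p : ℝ) ^ σ) ^ 2) := by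
            field_simp
        _ = (1 / η ^ 2) * (1 / (p : ℝ) ^ (σ + 1 / 2)) := by
            congr 1
            rw [← Real.rpow_natCast ((p : ℝ) ^ η) 2, ← Real.rpow_natCast ((p : ℝ) ^ σ) 2,
              ← Real.rpow_mul hp0.le, ← Real.rpow_mul hp0.le, ← Real.rpow_sub hp0, one_div,
              ← Real.rpow_neg hp0.le]
            congr 1
            rw [hη]
            push_cast
            ring
    calc _ ≤ ∑ p ∈ primesUpTo T, (1 / η ^ 2) * (1 / (p : ℝ) ^ (σ + 1 / 2)) :=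
          Finset.sum_le_sum h3
      _ = (1 / η ^ 2) * ∑ p ∈ primesUpTo T, 1 / (p : ℝ) ^ (σ + 1 / 2) := by
          rw [Finset.mul_sum]
      _ ≤ _ := by
          refine mul_le_mul_of_nonneg_left ?_ (by positivity)
          exact hsum.sum_le_tsum _ fun n _ => by positivity
  have h3 : ∑ p ∈ primesUpTo T, ‖((Real.log p : ℝ) : ℂ) / (p : ℂ) ^ s‖ * p ≤ 2 * (T : ℝ) ^ 2 := by
    have h4 : ∀ p ∈ primesUpTo T, ‖((Real.log p : ℝ) : ℂ) / (p : ℂ) ^ s‖ * p ≤ 2 * (T : ℝ) := by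
      intro p hp
      have hpp := (mem_primesUpTo.1 hp).2
      have hpT : (p : ℝ) ≤ T := by exact_mod_cast (mem_primesUpTo.1 hp).1
      have hp0 : (0 : ℝ) < p := by exact_mod_cast hpp.pos
      have hp1 : (1 : ℝ) ≤ p := by exact_mod_cast hpp.one_lt.le
      rw [norm_wt hpp]
      have h5 : Real.log p ≤ (p : ℝ) ^ (1 / 2 : ℝ) / (1 / 2) :=
        Real.log_le_rpow_div hp0.le (by norm_num)
      have h6 : (p : ℝ) ^ (1 / 2 : ℝ) ≤ (p : ℝ) ^ s.re :=
        Real.rpow_le_rpow_of_exponent_le hp1 (by linarith)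
      have h7 : Real.log p / (p : ℝ) ^ s.re ≤ 2 := by
        rw [div_le_iff₀ (by positivity)]
        linarith
      calc Real.log p / (p : ℝ) ^ s.re * p ≤ 2 * p := by gcongr
        _ ≤ 2 * T := by linarith
    have h5 : ((primesUpTo T).card : ℝ) ≤ T := by
      have h6 : primesUpTo T ⊆ Finset.Icc 1 T := by
        intro p hp
        have h7 := mem_primesUpTo.1 hp
        rw [Finset.mem_Icc]
        exact ⟨h7.2.one_lt.le, h7.1⟩
      have h7 := Finset.card_le_card h6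
      rw [Nat.card_Icc, Nat.add_sub_cancel] at h7
      exact_mod_cast h7
    calc _ ≤ ∑ _p ∈ primesUpTo T, 2 * (T : ℝ) := Finset.sum_le_sum h4
      _ = (primesUpTo T).card * (2 * (T : ℝ)) := by rw [Finset.sum_const, nsmul_eq_mul]
      _ ≤ T * (2 * (T : ℝ)) := by gcongr
      _ = _ := by ring
  have h4 : (0 : ℝ) ≤ ∑ p ∈ primesUpTo T, ‖((Real.log p : ℝ) : ℂ) / (p : ℂ) ^ s‖ * p :=
    Finset.sum_nonneg fun p _ => by positivity
  have h5 : 2 ^ (a + b + 2) * (∑ p ∈ primesUpTo T, ‖((Real.log p : ℝ) : ℂ) / (p : ℂ) ^ s‖ * p) ^ 2 /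
      (2 * (H : ℝ) + 1) ≤ 2 ^ (a + b + 2) * 2 := by
    rw [mul_div_assoc]
    refine mul_le_mul_of_nonneg_left ?_ (by positivity)
    rw [div_le_iff₀ hH0]
    have h6 : (∑ p ∈ primesUpTo T, ‖((Real.log p : ℝ) : ℂ) / (p : ℂ) ^ s‖ * p) ^ 2 ≤
        (2 * (T : ℝ) ^ 2) ^ 2 := pow_le_pow_left₀ h4 h3 2
    have h7 : (T : ℝ) ^ 4 ≤ H := by exact_mod_cast hTH
    nlinarith
  have h6 := (abs_le.1 h1).2
  linarith

/-- The inequality of Chebyshev. -/
theorem cheb {a b : ℕ} (H : ℕ) (f : (Fin (a + 1) ⊕ Fin (b + 1) → ℤ) → ℂ) (M l : ℝ) (hl : 0 < l)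
    (h : EB H (fun c => ‖f c‖ ^ 2) ≤ M) :
    ({c : Fin (a + 1) ⊕ Fin (b + 1) → ℤ | (∀ q, |c q| ≤ H) ∧ l ≤ ‖f c‖}.ncard : ℝ) /
      (2 * H + 1 : ℝ) ^ (a + b + 2) ≤ M / l ^ 2 := by
  classical
  have hcd : Fintype.card (Fin (a + 1) ⊕ Fin (b + 1)) = a + b + 2 := by
    rw [Fintype.card_sum, Fintype.card_fin, Fintype.card_fin]
    ring
  have hpos : (0 : ℝ) < (2 * H + 1 : ℝ) ^ (a + b + 2) := by positivity
  rw [ncard_box]
  unfold EB at h
  rw [hcd, div_le_iff₀ hpos] at h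
  rw [div_le_div_iff₀ hpos (by positivity)]
  refine le_trans ?_ h
  have h1 : (((Pool.Agent.Y722.HS.box (Fin (a + 1) ⊕ Fin (b + 1)) H).filter
      (fun c => l ≤ ‖f c‖)).card : ℝ) * l ^ 2 =
      ∑ c ∈ (Pool.Agent.Y722.HS.box (Fin (a + 1) ⊕ Fin (b + 1)) H).filter
        (fun c => l ≤ ‖f c‖), l ^ 2 := by
    rw [Finset.sum_const, nsmul_eq_mul]
  rw [h1]
  calc _ ≤ ∑ c ∈ (Pool.Agent.Y722.HS.box (Fin (a + 1) ⊕ Fin (b + 1)) H).filter
        (fun c => l ≤ ‖f c‖), ‖f c‖ ^ 2 := by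
        refine Finset.sum_le_sum fun c hc => ?_
        exact pow_le_pow_left₀ hl.le (Finset.mem_filter.1 hc).2 2
    _ ≤ _ := Finset.sum_le_sum_of_subset_of_nonneg (Finset.filter_subset _ _)
        fun c _ _ => by positivity

end Pool.Agent.X280.HP
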