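import Pool.Agent.X280.HP.WeiMean

/-!
# Pencils of Weierstrass cubics: uniform bounds of the truncated Dirichlet series
-/

set_option autoImplicit false
set_option linter.unusedSectionVars false

namespace Pool.Agent.X280.HP

open Finset hiding val
open Filter Topology Polynomial Pool.Agent.Y722.HS Pool.Agent.X280.BP Pool.Agent.X280.UC
  Pool.Agent.X280.HG

theorem cpow_diff {w : ℂ} {η : ℝ} (hη : 0 < η) (hw : η ≤ w.re) {n : ℕ} (hn : 1 ≤ n) :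
    ‖(n : ℂ) ^ (-w) - ((n + 1 : ℕ) : ℂ) ^ (-w)‖ ≤ ‖w‖ * (1 / (n : ℝ) ^ (1 + η)) := by
  have hn1 : (1 : ℝ) ≤ n := by exact_mod_cast hn
  have hn0 : (0 : ℝ) < n := by linarith
  have hd : ∀ x ∈ Set.Icc (n : ℝ) (n + 1), HasDerivWithinAt (fun y : ℝ => (y : ℂ) ^ (-w))
      (-w * (x : ℂ) ^ (-w - 1) * 1) (Set.Icc (n : ℝ) (n + 1)) x := by
    intro x hx
    have hx0 : 0 < x := hn0.trans_le hx.1
    have h1 : HasDerivAt (fun z : ℂ => z ^ (-w)) (-w * (x : ℂ) ^ (-w - 1) * 1) (x : ℂ) :=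
      (hasDerivAt_id (x : ℂ)).cpow_const (Or.inl (by simpa using hx0))
    exact h1.comp_ofReal.hasDerivWithinAt
  have hb : ∀ x ∈ Set.Icc (n : ℝ) (n + 1), ‖-w * (x : ℂ) ^ (-w - 1) * 1‖ ≤
      ‖w‖ * (1 / (n : ℝ) ^ (1 + η)) := by
    intro x hx
    have hx0 : 0 < x := hn0.trans_le hx.1
    rw [mul_one, norm_mul, norm_neg, Complex.norm_cpow_eq_rpow_re_of_pos hx0]
    refine mul_le_mul_of_nonneg_left ?_ (norm_nonneg _)
    have h1 : (-w - 1).re = -(1 + w.re) := by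
      rw [Complex.sub_re, Complex.neg_re, Complex.one_re]; ring
    rw [h1, one_div, ← Real.rpow_neg hn0.le]
    calc x ^ (-(1 + w.re)) ≤ (n : ℝ) ^ (-(1 + w.re)) :=
          Real.rpow_le_rpow_of_nonpos hn0 hx.1 (by linarith)
      _ ≤ (n : ℝ) ^ (-(1 + η)) := Real.rpow_le_rpow_of_exponent_le hn1 (by linarith)
  have h := (convex_Icc (n : ℝ) (n + 1)).norm_image_sub_le_of_norm_hasDerivWithin_le hd hb
    (x := ((n : ℝ) + 1)) (y := (n : ℝ)) (by constructor <;> linarith) (by constructor <;> linarith)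
  have e : ‖(n : ℝ) - ((n : ℝ) + 1)‖ = 1 := by
    rw [show (n : ℝ) - ((n : ℝ) + 1) = -1 by ring, norm_neg, norm_one]
  rw [e, mul_one] at h
  have e2 : (((n : ℝ) + 1 : ℝ) : ℂ) = ((n + 1 : ℕ) : ℂ) := by push_cast; rfl
  have e3 : (((n : ℝ) : ℝ) : ℂ) = (n : ℂ) := by push_cast; rfl
  simp only [e2, e3] at h
  exact h

theorem sum_primes_succ (f : ℕ → ℂ) (T : ℕ) : ∑ p ∈ primesUpTo (T + 1), f p =
    ∑ p ∈ primesUpTo T, f p + if (T + 1).Prime then f (T + 1) else 0 := by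
  unfold primesUpTo
  rw [Finset.sum_filter, Finset.sum_filter, Finset.sum_range_succ]

/-- Summation by parts. -/
theorem abel (x : ℕ → ℂ) (w : ℂ) (T : ℕ) : ∑ p ∈ primesUpTo T, x p * (p : ℂ) ^ (-w) =
    (∑ p ∈ primesUpTo T, x p) * ((T + 1 : ℕ) : ℂ) ^ (-w) +
      ∑ n ∈ range T, (∑ p ∈ primesUpTo (n + 1), x p) *
        (((n + 1 : ℕ) : ℂ) ^ (-w) - ((n + 1 + 1 : ℕ) : ℂ) ^ (-w)) := by
  induction T with
  | zero =>
    have : primesUpTo 0 = ∅ := by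
      unfold primesUpTo
      rfl
    simp [this]
  | succ T ih =>
    rw [sum_primes_succ (fun p => x p * (p : ℂ) ^ (-w)), ih, Finset.sum_range_succ,
      sum_primes_succ x]
    split_ifs
    · ring
    · ring

theorem dirPartial_shift (A B : ℤ[X]) (T : ℕ) (σ : ℝ) (w : ℂ) :
    dirPartial A B T ((σ : ℂ) + w) =
      dirPartial A B T σ * ((T + 1 : ℕ) : ℂ) ^ (-w) +
      ∑ n ∈ range T, dirPartial A B (n + 1) σ *
        (((n + 1 : ℕ) : ℂ) ^ (-w) - ((n + 1 + 1 : ℕ) : ℂ) ^ (-w)) := by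
  unfold dirPartial
  rw [← abel]
  refine Finset.sum_congr rfl fun p hp => ?_
  have hp0 : (p : ℂ) ≠ 0 := by exact_mod_cast (mem_primesUpTo.1 hp).2.ne_zero
  rw [Complex.cpow_add _ _ hp0, Complex.cpow_neg]
  field_simp

/-- The majorant. -/
noncomputable def gmaj (A B : ℤ[X]) (T : ℕ) (σ η R : ℝ) : ℝ :=
  ‖dirPartial A B T σ‖ + R * ∑ n ∈ range T, 1 / ((n + 1 : ℕ) : ℝ) ^ (1 + η) *
    ‖dirPartial A B (n + 1) σ‖

theorem dir_le_gmaj (A B : ℤ[X]) (T : ℕ) (σ : ℝ) {η R : ℝ} (hη : 0 < η) {w : ℂ} (hw : η ≤ w.re)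
    (hR : ‖w‖ ≤ R) : ‖dirPartial A B T ((σ : ℂ) + w)‖ ≤ gmaj A B T σ η R := by
  have hR0 : 0 ≤ R := (norm_nonneg _).trans hR
  rw [dirPartial_shift]
  unfold gmaj
  refine (norm_add_le _ _).trans (add_le_add ?_ ?_)
  · rw [norm_mul]
    refine mul_le_of_le_one_right (norm_nonneg _) ?_
    rw [Complex.norm_natCast_cpow_of_pos (Nat.succ_pos T), Complex.neg_re]
    exact Real.rpow_le_one_of_one_le_of_nonpos (by exact_mod_cast Nat.succ_pos T) (by linarith)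
  · refine (norm_sum_le _ _).trans ?_
    rw [Finset.mul_sum]
    refine Finset.sum_le_sum fun n _ => ?_
    rw [norm_mul]
    have h1 := cpow_diff hη hw (n := n + 1) (by omega)
    have h2 : (0 : ℝ) ≤ 1 / ((n + 1 : ℕ) : ℝ) ^ (1 + η) := by positivity
    calc ‖dirPartial A B (n + 1) σ‖ * _ ≤ ‖dirPartial A B (n + 1) σ‖ *
          (‖w‖ * (1 / ((n + 1 : ℕ) : ℝ) ^ (1 + η))) := by gcongr
      _ ≤ ‖dirPartial A B (n + 1) σ‖ * (R * (1 / ((n + 1 : ℕ) : ℝ) ^ (1 + η))) := by gcongr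
      _ = _ := by ring

theorem gmaj_sq (A B : ℤ[X]) (T : ℕ) (σ η R Z : ℝ)
    (hZ : ∑ n ∈ range T, 1 / ((n + 1 : ℕ) : ℝ) ^ (1 + η) ≤ Z) :
    gmaj A B T σ η R ^ 2 ≤ 2 * ‖dirPartial A B T σ‖ ^ 2 + 2 * R ^ 2 * Z *
      ∑ n ∈ range T, 1 / ((n + 1 : ℕ) : ℝ) ^ (1 + η) * ‖dirPartial A B (n + 1) σ‖ ^ 2 := by
  unfold gmaj
  obtain ⟨Y, hY⟩ : ∃ Y : ℝ, Y = ∑ n ∈ range T, 1 / ((n + 1 : ℕ) : ℝ) ^ (1 + η) *
    ‖dirPartial A B (n + 1) σ‖ := ⟨_, rfl⟩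
  obtain ⟨Y2, hY2⟩ : ∃ Y2 : ℝ, Y2 = ∑ n ∈ range T, 1 / ((n + 1 : ℕ) : ℝ) ^ (1 + η) *
    ‖dirPartial A B (n + 1) σ‖ ^ 2 := ⟨_, rfl⟩
  have h1 : Y ^ 2 ≤ (∑ n ∈ range T, 1 / ((n + 1 : ℕ) : ℝ) ^ (1 + η)) * Y2 := by
    rw [hY, hY2]
    refine Finset.sum_sq_le_sum_mul_sum_of_sq_le_mul _ (fun n _ => by positivity)
      (fun n _ => by positivity) fun n _ => le_of_eq ?_
    ring
  have h2 : 0 ≤ Y2 := by
    rw [hY2]
    exact Finset.sum_nonneg fun n _ => by positivity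
  have h3 : Y ^ 2 ≤ Z * Y2 := h1.trans (mul_le_mul_of_nonneg_right hZ h2)
  rw [← hY, ← hY2]
  have h4 : R ^ 2 * Y ^ 2 ≤ R ^ 2 * (Z * Y2) := mul_le_mul_of_nonneg_left h3 (sq_nonneg R)
  nlinarith [sq_nonneg (‖dirPartial A B T σ‖ - R * Y)]

/-- **Uniform bounds.** -/
theorem unif_bound {a b : ℕ} (ha : 1 ≤ a) (hb : 1 ≤ b) (σ : ℝ) (hσ : 1 / 2 < σ) (R : ℝ) :
    ∃ M : ℝ, ∀ T H : ℕ, T ^ 4 ≤ H → ∀ l : ℝ, 0 < l →
      ({c : Fin (a + 1) ⊕ Fin (b + 1) → ℤ | (∀ q, |c q| ≤ H) ∧ ∃ s : ℂ, σ ≤ s.re ∧ ‖s‖ ≤ R ∧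
        l ≤ ‖dirPartial (polyOf fun i => c (Sum.inl i)) (polyOf fun j => c (Sum.inr j)) T s‖}.ncard :
          ℝ) / (2 * H + 1 : ℝ) ^ (a + b + 2) ≤ M / l ^ 2 := by
  classical
  obtain ⟨η, hη⟩ : ∃ η : ℝ, η = (σ - 1 / 2) / 2 := ⟨_, rfl⟩
  have hη0 : 0 < η := by rw [hη]; linarith
  obtain ⟨σ1, hσ1⟩ : ∃ σ1 : ℝ, σ1 = 1 / 2 + η := ⟨_, rfl⟩
  have hσ12 : 1 / 2 < σ1 := by rw [hσ1]; linarith
  obtain ⟨M1, hM1⟩ := dir_bounded ha hb σ1 hσ12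
  have hsum : Summable fun n : ℕ => 1 / ((n + 1 : ℕ) : ℝ) ^ (1 + η) :=
    (summable_nat_add_iff 1).2 (Real.summable_one_div_nat_rpow.2 (by linarith))
  obtain ⟨Z, hZd⟩ : ∃ Z : ℝ, Z = ∑' n : ℕ, 1 / ((n + 1 : ℕ) : ℝ) ^ (1 + η) := ⟨_, rfl⟩
  have hZ : ∀ T : ℕ, ∑ n ∈ range T, 1 / ((n + 1 : ℕ) : ℝ) ^ (1 + η) ≤ Z := by
    intro T
    rw [hZd]
    exact hsum.sum_le_tsum _ fun n _ => by positivity
  have hZ0 : 0 ≤ Z := by simpa using hZ 0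
  have hM10 : 0 ≤ M1 := by
    refine le_trans ?_ (hM1 (σ1 : ℂ) (by simp) 0 0 (by norm_num))
    exact EB_nonneg _ _ fun c => by positivity
  obtain ⟨R1, hR1⟩ : ∃ R1 : ℝ, R1 = R + |σ1| := ⟨_, rfl⟩
  refine ⟨2 * M1 + 2 * R1 ^ 2 * Z * (Z * M1), fun T H hTH l hl => ?_⟩
  obtain ⟨g, hg⟩ : ∃ g : (Fin (a + 1) ⊕ Fin (b + 1) → ℤ) → ℝ, g = fun c =>
    gmaj (polyOf fun i => c (Sum.inl i)) (polyOf fun j => c (Sum.inr j)) T σ1 η R1 := ⟨_, rfl⟩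
  have h1 : EB H (fun c => ‖(g c : ℂ)‖ ^ 2) ≤ 2 * M1 + 2 * R1 ^ 2 * Z * (Z * M1) := by
    have h2 : EB H (fun c => ‖(g c : ℂ)‖ ^ 2) ≤ EB H (fun c : Fin (a + 1) ⊕ Fin (b + 1) → ℤ =>
        2 * ‖dirPartial (polyOf fun i => c (Sum.inl i)) (polyOf fun j => c (Sum.inr j)) T σ1‖ ^ 2 +
        2 * R1 ^ 2 * Z * ∑ n ∈ range T, 1 / ((n + 1 : ℕ) : ℝ) ^ (1 + η) *
          ‖dirPartial (polyOf fun i => c (Sum.inl i)) (polyOf fun j => c (Sum.inr j))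
            (n + 1) σ1‖ ^ 2) := by
      refine EB_mono H _ _ fun c => ?_
      rw [Complex.norm_real, Real.norm_eq_abs, sq_abs, hg]
      exact gmaj_sq _ _ T σ1 η R1 Z (hZ T)
    have e : EB H (fun c : Fin (a + 1) ⊕ Fin (b + 1) → ℤ =>
        2 * ‖dirPartial (polyOf fun i => c (Sum.inl i)) (polyOf fun j => c (Sum.inr j)) T σ1‖ ^ 2 +
        2 * R1 ^ 2 * Z * ∑ n ∈ range T, 1 / ((n + 1 : ℕ) : ℝ) ^ (1 + η) *
          ‖dirPartial (polyOf fun i => c (Sum.inl i)) (polyOf fun j => c (Sum.inr j))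
            (n + 1) σ1‖ ^ 2) =
        2 * EB H (fun c : Fin (a + 1) ⊕ Fin (b + 1) → ℤ =>
          ‖dirPartial (polyOf fun i => c (Sum.inl i)) (polyOf fun j => c (Sum.inr j)) T σ1‖ ^ 2) +
        2 * R1 ^ 2 * Z * ∑ n ∈ range T, 1 / ((n + 1 : ℕ) : ℝ) ^ (1 + η) *
          EB H (fun c : Fin (a + 1) ⊕ Fin (b + 1) → ℤ =>
            ‖dirPartial (polyOf fun i => c (Sum.inl i)) (polyOf fun j => c (Sum.inr j))
            (n + 1) σ1‖ ^ 2) := by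
      have e1 : ∀ f1 f2 : (Fin (a + 1) ⊕ Fin (b + 1) → ℤ) → ℝ, EB H (fun c => f1 c + f2 c) =
          EB H f1 + EB H f2 := by
        intro f1 f2
        unfold EB
        rw [Finset.sum_add_distrib, add_div]
      rw [e1, EB_mul_left, EB_mul_left, EB_sum]
      congr 2
      refine Finset.sum_congr rfl fun n _ => ?_
      rw [EB_mul_left]
    rw [e] at h2
    refine h2.trans (add_le_add ?_ ?_)
    · exact mul_le_mul_of_nonneg_left (hM1 (σ1 : ℂ) (by simp) T H hTH) (by norm_num)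
    · refine mul_le_mul_of_nonneg_left ?_ (by positivity)
      calc _ ≤ ∑ n ∈ range T, 1 / ((n + 1 : ℕ) : ℝ) ^ (1 + η) * M1 := by
            refine Finset.sum_le_sum fun n hn => ?_
            refine mul_le_mul_of_nonneg_left (hM1 (σ1 : ℂ) (by simp) (n + 1) H ?_) (by positivity)
            exact (Nat.pow_le_pow_left (Finset.mem_range.1 hn) 4).trans hTH
        _ = (∑ n ∈ range T, 1 / ((n + 1 : ℕ) : ℝ) ^ (1 + η)) * M1 := by rw [Finset.sum_mul]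
        _ ≤ Z * M1 := mul_le_mul_of_nonneg_right (hZ T) hM10
  refine le_trans ?_ (cheb H (fun c => (g c : ℂ)) _ l hl h1)
  have hfin : {c : Fin (a + 1) ⊕ Fin (b + 1) → ℤ | (∀ q, |c q| ≤ H) ∧ l ≤ ‖(g c : ℂ)‖}.Finite := by
    refine Set.Finite.subset (Finset.finite_toSet
      (Pool.Agent.Y722.HS.box (Fin (a + 1) ⊕ Fin (b + 1)) H)) fun c hc => ?_
    rw [Finset.mem_coe]
    unfold Pool.Agent.Y722.HS.box IH
    rw [Fintype.mem_piFinset]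
    intro q
    rw [Finset.mem_Icc, ← abs_le]
    exact hc.1 q
  refine div_le_div_of_nonneg_right ?_ (by positivity)
  have hsub : {c : Fin (a + 1) ⊕ Fin (b + 1) → ℤ | (∀ q, |c q| ≤ H) ∧ ∃ s : ℂ, σ ≤ s.re ∧
      ‖s‖ ≤ R ∧ l ≤ ‖dirPartial (polyOf fun i => c (Sum.inl i))
        (polyOf fun j => c (Sum.inr j)) T s‖} ⊆
      {c : Fin (a + 1) ⊕ Fin (b + 1) → ℤ | (∀ q, |c q| ≤ H) ∧ l ≤ ‖(g c : ℂ)‖} := by
    rintro c ⟨hc, s, hs1, hs2, hs3⟩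
    refine ⟨hc, hs3.trans ?_⟩
    have h2 := dir_le_gmaj (polyOf fun i => c (Sum.inl i)) (polyOf fun j => c (Sum.inr j)) T σ1
      hη0 (w := s - σ1) (R := R1) (by
        rw [Complex.sub_re, Complex.ofReal_re, hσ1, hη]
        linarith) (by
        refine (norm_sub_le _ _).trans ?_
        rw [Complex.norm_real, Real.norm_eq_abs, hR1]
        linarith)
    rw [add_sub_cancel] at h2
    rw [Complex.norm_real, Real.norm_eq_abs, hg]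
    exact h2.trans (le_abs_self _)
  exact_mod_cast Set.ncard_le_ncard hsub hfin

end Pool.Agent.X280.HP
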